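import Mathlib
import Pool.Agent.Helper97.CV.Count

/-!
MP_8ee768_co, project TH-Y': links of odd covers and transport by permutations.

`OddFam k V D`: all members of `D` are `(k+1)`-subsets of `V` and every `k`-subset of `V` lies in
an odd number of members. An odd `(13,5,4)`-cover is an `OddFam 4 univ`, its links are
`OddFam 3 {x}ᶜ`, the double links are `OddFam 2 {x,y}ᶜ`, the triple links `OddFam 1 {x,y,z}ᶜ`.
-/

set_option autoImplicit false

namespace Pool.Agent.Helper79.CV

open Finset
open Pool.Agent.Helper89.CV (OddCover)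
open Pool.Agent.Helper97.CV

/-- odd covers of the `k`-subsets of `V` by `(k+1)`-subsets of `V` -/
def OddFam (k : ℕ) (V : Finset (Fin 13)) (D : Finset (Finset (Fin 13))) : Prop :=
  (∀ b ∈ D, b ⊆ V ∧ b.card = k + 1) ∧
    ∀ s : Finset (Fin 13), s ⊆ V → s.card = k → Odd (cnt D s)

theorem oddFam_univ {B : Finset (Finset (Fin 13))} : OddFam 4 univ B ↔ OddCover B := by
  constructor
  · intro h
    exact ⟨fun b hb => (h.1 b hb).2, fun s hs => h.2 s (subset_univ s) hs⟩
  · intro h
    exact ⟨fun b hb => ⟨subset_univ b, h.1 b hb⟩, fun s _ hs => h.2 s hs⟩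

/-- number of members of the link -/
theorem cnt_link (B : Finset (Finset (Fin 13))) {x : Fin 13} {s : Finset (Fin 13)} (hx : x ∉ s) :
    cnt (link B x) s = cnt B (insert x s) := by
  unfold cnt
  refine card_bij' (fun c _ => insert x c) (fun b _ => b.erase x) ?_ ?_ ?_ ?_
  · intro c hc
    rw [mem_filter, mem_link] at hc
    rw [mem_filter]
    exact ⟨hc.1.2, insert_subset_insert x hc.2⟩
  · intro b hb
    rw [mem_filter] at hb
    have hxb : x ∈ b := hb.2 (mem_insert_self x s)
    rw [mem_filter, mem_link]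
    refine ⟨⟨notMem_erase x b, by rw [insert_erase hxb]; exact hb.1⟩, ?_⟩
    intro a ha
    rw [mem_erase]
    exact ⟨fun h => hx (h ▸ ha), hb.2 (mem_insert_of_mem ha)⟩
  · intro c hc
    rw [mem_filter, mem_link] at hc
    exact erase_insert hc.1.1
  · intro b hb
    rw [mem_filter] at hb
    exact insert_erase (hb.2 (mem_insert_self x s))

theorem card_link (B : Finset (Finset (Fin 13))) (x : Fin 13) :
    (link B x).card = cnt B {x} := by
  have h1 := cnt_link B (notMem_empty x)
  rw [insert_empty_eq] at h1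
  rw [← h1]
  unfold cnt
  congr 1
  rw [filter_true_of_mem fun b _ => empty_subset b]

/-- the link of an odd family is an odd family -/
theorem OddFam.link {k : ℕ} {V : Finset (Fin 13)} {D : Finset (Finset (Fin 13))}
    (h : OddFam (k + 1) V D) {x : Fin 13} (hx : x ∈ V) :
    OddFam k (V.erase x) (link D x) := by
  constructor
  · intro c hc
    rw [mem_link] at hc
    obtain ⟨h1, h2⟩ := h.1 _ hc.2
    constructor
    · intro a ha
      rw [mem_erase]
      exact ⟨fun h3 => hc.1 (h3 ▸ ha), h1 (mem_insert_of_mem ha)⟩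
    · rw [card_insert_of_notMem hc.1] at h2
      omega
  · intro s hs hk
    have hxs : x ∉ s := fun h3 => notMem_erase x V (hs h3)
    rw [cnt_link D hxs]
    refine h.2 _ ?_ ?_
    · intro a ha
      rcases mem_insert.1 ha with h3 | h3
      · rw [h3]
        exact hx
      · exact mem_of_mem_erase (hs h3)
    · rw [card_insert_of_notMem hxs, hk]

theorem mem_link_link {B : Finset (Finset (Fin 13))} {x y : Fin 13} {q : Finset (Fin 13)} :
    q ∈ link (link B x) y ↔ x ∉ q ∧ y ∉ q ∧ x ≠ y ∧ insert x (insert y q) ∈ B := by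
  rw [mem_link, mem_link, mem_insert, not_or]
  tauto

/-- double links are symmetric -/
theorem link_comm (B : Finset (Finset (Fin 13))) (x y : Fin 13) :
    link (link B x) y = link (link B y) x := by
  ext q
  rw [mem_link_link, mem_link_link, insert_comm x y q]
  tauto

/-- odd covers: the link of a point -/
theorem oddFam_link {B : Finset (Finset (Fin 13))} (hB : OddCover B) (x : Fin 13) :
    OddFam 3 (univ.erase x) (link B x) :=
  (oddFam_univ.2 hB).link (mem_univ x)

/-- odd covers: the double link of two points -/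
theorem oddFam_link₂ {B : Finset (Finset (Fin 13))} (hB : OddCover B) {x y : Fin 13}
    (hxy : x ≠ y) : OddFam 2 ((univ.erase x).erase y) (link (link B x) y) :=
  (oddFam_link hB x).link (mem_erase.2 ⟨hxy.symm, mem_univ y⟩)

/-- odd covers: the triple link of three points -/
theorem oddFam_link₃ {B : Finset (Finset (Fin 13))} (hB : OddCover B) {x y z : Fin 13}
    (hxy : x ≠ y) (hxz : x ≠ z) (hyz : y ≠ z) :
    OddFam 1 (((univ.erase x).erase y).erase z) (link (link (link B x) y) z) :=
  (oddFam_link₂ hB hxy).link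
    (mem_erase.2 ⟨hyz.symm, mem_erase.2 ⟨hxz.symm, mem_univ z⟩⟩)

/-- the excess of a triple in the link -/
theorem ex_insert (B : Finset (Finset (Fin 13))) {x : Fin 13} {s : Finset (Fin 13)} (hx : x ∉ s) :
    ex B (insert x s) = cnt (link B x) s / 2 := by
  unfold ex
  rw [cnt_link B hx]

/-- the size of a link -/
theorem two_mul_card_link {B : Finset (Finset (Fin 13))} (hB : OddCover B) (x : Fin 13) :
    2 * (link B x).card = 114 + MM B x := by
  rw [card_link]
  exact two_cnt_point hB x

/-- the size of a double link -/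
theorem card_link_link {B : Finset (Finset (Fin 13))} (hB : OddCover B) {x y : Fin 13}
    (hxy : x ≠ y) : (link (link B x) y).card = 19 + 2 * mm B x y := by
  rw [card_link, cnt_link B (by rw [mem_singleton]; exact hxy)]
  exact cnt_pair hB hxy

/-! ## transport -/

/-- the image of a set of points -/
def mapS (σ : Equiv.Perm (Fin 13)) (s : Finset (Fin 13)) : Finset (Fin 13) := s.map σ.toEmbedding

/-- the image of a family -/
def mapF (σ : Equiv.Perm (Fin 13)) (B : Finset (Finset (Fin 13))) : Finset (Finset (Fin 13)) :=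
  B.image (mapS σ)

theorem card_mapS (σ : Equiv.Perm (Fin 13)) (s : Finset (Fin 13)) : (mapS σ s).card = s.card :=
  card_map _

theorem mem_mapS {σ : Equiv.Perm (Fin 13)} {s : Finset (Fin 13)} {a : Fin 13} :
    σ a ∈ mapS σ s ↔ a ∈ s := by
  unfold mapS
  rw [mem_map_equiv, Equiv.symm_apply_apply]

theorem mem_mapS' {σ : Equiv.Perm (Fin 13)} {s : Finset (Fin 13)} {a : Fin 13} :
    a ∈ mapS σ s ↔ σ.symm a ∈ s := by
  unfold mapS
  rw [mem_map_equiv]

theorem mapS_symm_mapS (σ : Equiv.Perm (Fin 13)) (s : Finset (Fin 13)) :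
    mapS σ.symm (mapS σ s) = s := by
  ext a
  rw [mem_mapS', mem_mapS', Equiv.symm_symm, Equiv.symm_apply_apply]

theorem mapS_mapS_symm (σ : Equiv.Perm (Fin 13)) (s : Finset (Fin 13)) :
    mapS σ (mapS σ.symm s) = s := by
  ext a
  rw [mem_mapS', mem_mapS', Equiv.symm_symm, Equiv.apply_symm_apply]

theorem mapS_injective (σ : Equiv.Perm (Fin 13)) : Function.Injective (mapS σ) :=
  Function.LeftInverse.injective (mapS_symm_mapS σ)

theorem mapS_subset {σ : Equiv.Perm (Fin 13)} {s t : Finset (Fin 13)} :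
    mapS σ s ⊆ mapS σ t ↔ s ⊆ t := by
  unfold mapS
  exact map_subset_map

theorem mapS_insert (σ : Equiv.Perm (Fin 13)) (a : Fin 13) (s : Finset (Fin 13)) :
    mapS σ (insert a s) = insert (σ a) (mapS σ s) := by
  unfold mapS
  rw [map_insert]
  rfl

theorem mapS_one (s : Finset (Fin 13)) : mapS 1 s = s := by
  ext a
  rw [mem_mapS']
  rfl

theorem mapS_mul (σ τ : Equiv.Perm (Fin 13)) (s : Finset (Fin 13)) :
    mapS (σ * τ) s = mapS σ (mapS τ s) := by
  ext a
  rw [mem_mapS', mem_mapS', mem_mapS']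
  rfl

theorem mem_mapF {σ : Equiv.Perm (Fin 13)} {B : Finset (Finset (Fin 13))}
    {s : Finset (Fin 13)} : mapS σ s ∈ mapF σ B ↔ s ∈ B := by
  unfold mapF
  exact (mapS_injective σ).mem_finset_image

theorem mem_mapF' {σ : Equiv.Perm (Fin 13)} {B : Finset (Finset (Fin 13))}
    {s : Finset (Fin 13)} : s ∈ mapF σ B ↔ mapS σ.symm s ∈ B := by
  have h := mem_mapF (σ := σ) (B := B) (s := mapS σ.symm s)
  rwa [mapS_mapS_symm] at h

theorem card_mapF (σ : Equiv.Perm (Fin 13)) (B : Finset (Finset (Fin 13))) :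
    (mapF σ B).card = B.card := by
  unfold mapF
  exact card_image_of_injective _ (mapS_injective σ)

theorem mapF_one (B : Finset (Finset (Fin 13))) : mapF 1 B = B := by
  ext s
  rw [mem_mapF']
  have h : mapS (Equiv.symm (1 : Equiv.Perm (Fin 13))) s = s := mapS_one s
  rw [h]

theorem mapF_mul (σ τ : Equiv.Perm (Fin 13)) (B : Finset (Finset (Fin 13))) :
    mapF (σ * τ) B = mapF σ (mapF τ B) := by
  ext s
  rw [mem_mapF', mem_mapF', mem_mapF', ← mapS_mul]
  rfl

theorem mapF_symm_mapF (σ : Equiv.Perm (Fin 13)) (B : Finset (Finset (Fin 13))) :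
    mapF σ.symm (mapF σ B) = B := by
  ext s
  rw [mem_mapF', mem_mapF', Equiv.symm_symm, mapS_symm_mapS]

theorem cnt_mapF (σ : Equiv.Perm (Fin 13)) (B : Finset (Finset (Fin 13)))
    (s : Finset (Fin 13)) : cnt (mapF σ B) (mapS σ s) = cnt B s := by
  unfold cnt mapF
  rw [filter_image]
  rw [card_image_of_injective _ (mapS_injective σ)]
  congr 1
  refine filter_congr fun b _ => ?_
  exact mapS_subset

theorem cnt_mapF' (σ : Equiv.Perm (Fin 13)) (B : Finset (Finset (Fin 13)))
    (s : Finset (Fin 13)) : cnt (mapF σ B) s = cnt B (mapS σ.symm s) := by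
  rw [← cnt_mapF σ B, mapS_mapS_symm]

theorem OddFam.map {k : ℕ} {V : Finset (Fin 13)} {D : Finset (Finset (Fin 13))}
    (h : OddFam k V D) (σ : Equiv.Perm (Fin 13)) : OddFam k (mapS σ V) (mapF σ D) := by
  constructor
  · intro b hb
    rw [mem_mapF'] at hb
    obtain ⟨h1, h2⟩ := h.1 _ hb
    refine ⟨?_, ?_⟩
    · rw [← mapS_mapS_symm σ b]
      exact mapS_subset.2 h1
    · rwa [card_mapS] at h2
  · intro s hs hk
    rw [cnt_mapF']
    refine h.2 _ ?_ ?_
    · rw [← mapS_symm_mapS σ V]
      exact mapS_subset.2 hs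
    · rwa [card_mapS]

theorem oddCover_mapF {B : Finset (Finset (Fin 13))} (hB : OddCover B)
    (σ : Equiv.Perm (Fin 13)) : OddCover (mapF σ B) := by
  have h := (oddFam_univ.2 hB).map σ
  have h2 : mapS σ univ = univ := by
    ext a
    rw [mem_mapS']
    simp only [mem_univ]
  rw [h2] at h
  exact oddFam_univ.1 h

theorem link_mapF (σ : Equiv.Perm (Fin 13)) (B : Finset (Finset (Fin 13))) (x : Fin 13) :
    link (mapF σ B) (σ x) = mapF σ (link B x) := by
  ext s
  rw [mem_link, mem_mapF', mem_mapF', mem_link, mapS_insert, Equiv.symm_apply_apply]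
  rw [mem_mapS', Equiv.symm_symm]

theorem link_mapF' (σ : Equiv.Perm (Fin 13)) (B : Finset (Finset (Fin 13))) (x : Fin 13) :
    link (mapF σ B) x = mapF σ (link B (σ.symm x)) := by
  rw [← link_mapF, Equiv.apply_symm_apply]

theorem ex_mapF (σ : Equiv.Perm (Fin 13)) (B : Finset (Finset (Fin 13)))
    (s : Finset (Fin 13)) : ex (mapF σ B) (mapS σ s) = ex B s := by
  unfold ex
  rw [cnt_mapF]

theorem mapS_pair (σ : Equiv.Perm (Fin 13)) (x y : Fin 13) : mapS σ {x, y} = {σ x, σ y} := by
  unfold mapS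
  rw [map_insert, map_singleton]
  rfl

theorem mapS_singleton (σ : Equiv.Perm (Fin 13)) (x : Fin 13) : mapS σ {x} = {σ x} := by
  unfold mapS
  rw [map_singleton]
  rfl

theorem mm_mapF {B : Finset (Finset (Fin 13))} (hB : OddCover B) (σ : Equiv.Perm (Fin 13))
    {x y : Fin 13} (hxy : x ≠ y) : mm (mapF σ B) (σ x) (σ y) = mm B x y := by
  have h1 := cnt_pair hB hxy
  have h2 := cnt_pair (oddCover_mapF hB σ) (σ.injective.ne hxy)
  rw [← mapS_pair, cnt_mapF] at h2
  omega

theorem MM_mapF {B : Finset (Finset (Fin 13))} (hB : OddCover B) (σ : Equiv.Perm (Fin 13))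
    (x : Fin 13) : MM (mapF σ B) (σ x) = MM B x := by
  have h1 := two_cnt_point hB x
  have h2 := two_cnt_point (oddCover_mapF hB σ) (σ x)
  rw [← mapS_singleton, cnt_mapF] at h2
  omega

/-! ## a cover is determined by its links at `K` on the blocks meeting `K` -/

theorem mem_iff_erase_mem_link {B : Finset (Finset (Fin 13))} {x : Fin 13}
    {b : Finset (Fin 13)} (hx : x ∈ b) : b ∈ B ↔ b.erase x ∈ link B x := by
  rw [mem_link, insert_erase hx]
  exact ⟨fun h => ⟨notMem_erase x b, h⟩, fun h => h.2⟩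

end Pool.Agent.Helper79.CV
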