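import Mathlib
import Pool.Agent.Helper79.CV.Link

/-!
MP_8ee768_co, project TH-Y': bit masks and colex encoded families.

* `mk s` is the bit mask of a set of points, `Helper89.CV.ofMask` is its inverse on masks `< 2^13`.
* `L n k` is the list of the masks of the `k`-subsets of `{0, .., n-1}` in colex order
  (= increasing masks), of length `Nat.choose n k`.
* `enc n k D` is the family `D` of `k`-subsets of `{0, .., n-1}` as a number: bit `i` says whether
  the set with mask `(L n k)[i]` belongs to `D`.
-/

set_option autoImplicit false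

namespace Pool.Agent.Helper79.CV

open Finset
open Pool.Agent.Helper89.CV (OddCover ofMask)
open Pool.Agent.Helper97.CV

/-- bit mask of a set of points -/
def mk (s : Finset (Fin 13)) : ℕ := Nat.ofBits (fun i : Fin 13 => decide (i ∈ s))

theorem mk_lt (s : Finset (Fin 13)) : mk s < 2 ^ 13 := Nat.ofBits_lt_two_pow _

theorem testBit_mk (s : Finset (Fin 13)) (i : Fin 13) :
    (mk s).testBit i.val = decide (i ∈ s) := by
  unfold mk
  rw [Nat.testBit_ofBits_lt _ _ i.isLt]

theorem testBit_mk_ge (s : Finset (Fin 13)) {i : ℕ} (hi : 13 ≤ i) :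
    (mk s).testBit i = false := by
  unfold mk
  exact Nat.testBit_ofBits_ge _ _ hi

theorem mem_ofMask {m : ℕ} {i : Fin 13} : i ∈ ofMask m ↔ m.testBit i.val = true := by
  unfold ofMask
  simp only [mem_filter, mem_univ, true_and]

theorem ofMask_mk (s : Finset (Fin 13)) : ofMask (mk s) = s := by
  ext i
  rw [mem_ofMask, testBit_mk, decide_eq_true_eq]

theorem mk_ofMask {m : ℕ} (hm : m < 2 ^ 13) : mk (ofMask m) = m := by
  refine Nat.eq_of_testBit_eq fun i => ?_
  by_cases hi : i < 13
  · have h := testBit_mk (ofMask m) ⟨i, hi⟩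
    simp only at h
    rw [h]
    by_cases hb : m.testBit i = true
    · rw [hb, decide_eq_true_eq, mem_ofMask]
      exact hb
    · rw [Bool.not_eq_true] at hb
      rw [hb, decide_eq_false_iff_not, mem_ofMask]
      simp only
      rw [hb]
      exact Bool.false_ne_true
  · rw [testBit_mk_ge _ (by omega), Nat.testBit_eq_false_of_lt]
    exact lt_of_lt_of_le hm (Nat.pow_le_pow_right (by norm_num) (by omega))

theorem ofMask_injOn {a b : ℕ} (ha : a < 2 ^ 13) (hb : b < 2 ^ 13)
    (h : ofMask a = ofMask b) : a = b := by
  rw [← mk_ofMask ha, ← mk_ofMask hb, h]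

theorem mk_injective : Function.Injective mk :=
  Function.LeftInverse.injective ofMask_mk

theorem ofMask_land (a b : ℕ) : ofMask (a &&& b) = ofMask a ∩ ofMask b := by
  ext i
  rw [mem_inter, mem_ofMask, mem_ofMask, mem_ofMask, Nat.testBit_and, Bool.and_eq_true]

theorem ofMask_lor (a b : ℕ) : ofMask (a ||| b) = ofMask a ∪ ofMask b := by
  ext i
  rw [mem_union, mem_ofMask, mem_ofMask, mem_ofMask, Nat.testBit_or, Bool.or_eq_true]

theorem ofMask_zero : ofMask 0 = ∅ := by
  ext i
  rw [mem_ofMask, Nat.zero_testBit]
  simp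

theorem ofMask_subset {a b : ℕ} (ha : a < 2 ^ 13) :
    ofMask a ⊆ ofMask b ↔ a &&& b = a := by
  constructor
  · intro h
    refine Nat.eq_of_testBit_eq fun i => ?_
    rw [Nat.testBit_and]
    by_cases hb : a.testBit i = true
    · have hi : i < 13 := by
        by_contra h13
        rw [Nat.testBit_eq_false_of_lt (lt_of_lt_of_le ha
          (Nat.pow_le_pow_right (by norm_num) (by omega)))] at hb
        exact Bool.false_ne_true hb
      have h1 : (⟨i, hi⟩ : Fin 13) ∈ ofMask a := mem_ofMask.2 hb
      have h2 := mem_ofMask.1 (h h1)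
      simp only at h2
      rw [hb, h2]
      rfl
    · rw [Bool.not_eq_true] at hb
      rw [hb]
      rfl
  · intro h i hi
    rw [← h, ofMask_land, mem_inter] at hi
    exact hi.2

/-- adding a new largest point -/
theorem ofMask_add {m : ℕ} (n : Fin 13) (hm : m < 2 ^ (n : ℕ)) :
    ofMask (m + 2 ^ (n : ℕ)) = insert n (ofMask m) := by
  ext i
  rw [mem_insert, mem_ofMask, mem_ofMask, Nat.add_comm]
  rcases lt_trichotomy i.val n.val with h | h | h
  · rw [Nat.testBit_two_pow_add_gt h]
    constructor
    · exact Or.inr
    · rintro (h1 | h1)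
      · exact absurd (congrArg Fin.val h1) h.ne
      · exact h1
  · have hin : i = n := Fin.ext h
    subst hin
    rw [Nat.testBit_two_pow_add_eq, Nat.testBit_eq_false_of_lt hm]
    simp
  · have h1 : 2 ^ (n : ℕ) + m < 2 ^ (i : ℕ) := by
      calc 2 ^ (n : ℕ) + m < 2 ^ (n : ℕ) + 2 ^ (n : ℕ) := by omega
        _ = 2 ^ (n.val + 1) := by rw [pow_succ]; omega
        _ ≤ 2 ^ (i : ℕ) := Nat.pow_le_pow_right (by norm_num) h
    rw [Nat.testBit_eq_false_of_lt h1]
    rw [Nat.testBit_eq_false_of_lt (lt_of_le_of_lt (Nat.le_add_left _ _) h1)]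
    constructor
    · intro h2
      exact absurd h2 Bool.false_ne_true
    · rintro (h2 | h2)
      · exact absurd (congrArg Fin.val h2) h.ne'
      · exact absurd h2 Bool.false_ne_true

theorem notMem_ofMask {m : ℕ} (n : Fin 13) (hm : m < 2 ^ (n : ℕ)) : n ∉ ofMask m := by
  rw [mem_ofMask, Nat.testBit_eq_false_of_lt hm]
  exact Bool.false_ne_true

/-- the masks of the `k`-subsets of `{0, .., n-1}` in colex order -/
def L : ℕ → ℕ → List ℕ
  | _, 0 => [0]
  | 0, _ + 1 => []
  | n + 1, k + 1 => L n (k + 1) ++ (L n k).map (fun m => m + 2 ^ n)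

theorem L_zero (n : ℕ) : L n 0 = [0] := by
  cases n <;> rfl

theorem L_succ (n k : ℕ) : L (n + 1) (k + 1) = L n (k + 1) ++ (L n k).map (fun m => m + 2 ^ n) :=
  rfl

theorem length_L (n k : ℕ) : (L n k).length = n.choose k := by
  induction n generalizing k with
  | zero =>
    cases k with
    | zero => rfl
    | succ k => rfl
  | succ n ih =>
    cases k with
    | zero => rw [L_zero]; simp
    | succ k =>
      rw [L_succ, List.length_append, List.length_map, ih, ih, Nat.choose_succ_succ, Nat.add_comm]

theorem lt_of_mem_L {n k m : ℕ} (h : m ∈ L n k) : m < 2 ^ n := by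
  induction n generalizing k m with
  | zero =>
    cases k with
    | zero =>
      rw [L_zero, List.mem_singleton] at h
      rw [h]
      norm_num
    | succ k => exact absurd h (List.not_mem_nil)
  | succ n ih =>
    cases k with
    | zero =>
      rw [L_zero, List.mem_singleton] at h
      rw [h]
      positivity
    | succ k =>
      rw [L_succ, List.mem_append, List.mem_map] at h
      rw [pow_succ]
      rcases h with h | ⟨a, ha, rfl⟩
      · have := ih h
        omega
      · have := ih ha
        omega

theorem mem_L {n k : ℕ} (hn : n ≤ 13) {m : ℕ} :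
    m ∈ L n k ↔ m < 2 ^ n ∧ (ofMask m).card = k := by
  induction n generalizing k m with
  | zero =>
    rw [pow_zero, Nat.lt_one_iff]
    cases k with
    | zero =>
      rw [L_zero, List.mem_singleton]
      constructor
      · rintro rfl
        exact ⟨rfl, by rw [ofMask_zero, card_empty]⟩
      · exact fun h => h.1
    | succ k =>
      constructor
      · intro h
        exact absurd h List.not_mem_nil
      · rintro ⟨rfl, h⟩
        rw [ofMask_zero, card_empty] at h
        omega
  | succ n ih =>
    have hsplit : ∀ m : ℕ, m < 2 ^ (n + 1) → m < 2 ^ n ∨ ∃ a, a < 2 ^ n ∧ a + 2 ^ n = m := by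
      intro m hm
      rw [pow_succ] at hm
      by_cases h : m < 2 ^ n
      · exact Or.inl h
      · exact Or.inr ⟨m - 2 ^ n, by omega, by omega⟩
    have hcard : ∀ a, a < 2 ^ n → (ofMask (a + 2 ^ n)).card = (ofMask a).card + 1 := by
      intro a ha
      have h1 := ofMask_add ⟨n, by omega⟩ ha
      simp only at h1
      rw [h1, card_insert_of_notMem (notMem_ofMask ⟨n, by omega⟩ ha)]
    cases k with
    | zero =>
      rw [L_zero, List.mem_singleton]
      constructor
      · rintro rfl
        exact ⟨by positivity, by rw [ofMask_zero, card_empty]⟩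
      · rintro ⟨h1, h2⟩
        rcases hsplit m h1 with h3 | ⟨a, ha, rfl⟩
        · have h4 := (ih (by omega) (k := 0) (m := m)).2 ⟨h3, h2⟩
          rw [L_zero, List.mem_singleton] at h4
          exact h4
        · rw [hcard a ha] at h2
          omega
    | succ k =>
      rw [L_succ, List.mem_append, List.mem_map, ih (by omega)]
      constructor
      · rintro (⟨h1, h2⟩ | ⟨a, ha, rfl⟩)
        · exact ⟨lt_of_lt_of_le h1 (Nat.pow_le_pow_right (by norm_num) (by omega)), h2⟩
        · rw [ih (by omega)] at ha
          refine ⟨?_, ?_⟩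
          · rw [pow_succ]
            omega
          · rw [hcard a ha.1, ha.2]
      · rintro ⟨h1, h2⟩
        rcases hsplit m h1 with h3 | ⟨a, ha, rfl⟩
        · exact Or.inl ⟨h3, h2⟩
        · refine Or.inr ⟨a, ?_, rfl⟩
          rw [ih (by omega)]
          refine ⟨ha, ?_⟩
          rw [hcard a ha] at h2
          omega

theorem sorted_L (n k : ℕ) : (L n k).Pairwise (· < ·) := by
  induction n generalizing k with
  | zero =>
    cases k with
    | zero => rw [L_zero]; exact List.pairwise_singleton _ _
    | succ k => exact List.Pairwise.nil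
  | succ n ih =>
    cases k with
    | zero => rw [L_zero]; exact List.pairwise_singleton _ _
    | succ k =>
      rw [L_succ, List.pairwise_append]
      refine ⟨ih _, ?_, ?_⟩
      · rw [List.pairwise_map]
        exact (ih k).imp fun h => by omega
      · intro a ha b hb
        rw [List.mem_map] at hb
        obtain ⟨c, hc, rfl⟩ := hb
        have := lt_of_mem_L ha
        omega

theorem nodup_L (n k : ℕ) : (L n k).Nodup := (sorted_L n k).imp fun h => h.ne

end Pool.Agent.Helper79.CV
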