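import Mathlib
import Pool.Agent.Helper79.CV.Colex

/-!
MP_8ee768_co, project TH-Y': families of `k`-subsets of `{0, .., n-1}` as numbers.

`enc n k D` has bit `i` iff the set with mask `(L n k)[i]` belongs to `D`; `fam n k N` is the
family with code `N`.
-/

set_option autoImplicit false

namespace Pool.Agent.Helper79.CV

open Finset
open Pool.Agent.Helper89.CV (OddCover ofMask)
open Pool.Agent.Helper97.CV

/-- the family of the `k`-subsets of `{0, .., n-1}` with code `N` -/
def fam (n k N : ℕ) : Finset (Finset (Fin 13)) :=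
  (univ.filter (fun i : Fin (L n k).length => N.testBit i.val = true)).image
    (fun i => ofMask ((L n k)[i.val]))

/-- the code of a family -/
def enc (n k : ℕ) (D : Finset (Finset (Fin 13))) : ℕ :=
  Nat.ofBits (fun i : Fin (L n k).length => decide (ofMask ((L n k)[i.val]) ∈ D))

/-- colex rank -/
def rk (n k : ℕ) (s : Finset (Fin 13)) : ℕ := (L n k).idxOf (mk s)

theorem mem_fam {n k N : ℕ} {s : Finset (Fin 13)} :
    s ∈ fam n k N ↔ ∃ (i : ℕ) (h : i < (L n k).length),
      N.testBit i = true ∧ ofMask ((L n k)[i]) = s := by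
  unfold fam
  simp only [mem_image, mem_filter, mem_univ, true_and]
  constructor
  · rintro ⟨i, h1, h2⟩
    exact ⟨i.val, i.isLt, h1, h2⟩
  · rintro ⟨i, h, h1, h2⟩
    exact ⟨⟨i, h⟩, h1, h2⟩

/-- `s` is a `k`-subset of `{0, .., n-1}` -/
def Sub (n k : ℕ) (s : Finset (Fin 13)) : Prop := mk s < 2 ^ n ∧ s.card = k

theorem sub_iff {n k : ℕ} (hn : n ≤ 13) {s : Finset (Fin 13)} :
    Sub n k s ↔ mk s ∈ L n k := by
  rw [mem_L hn, ofMask_mk]
  rfl

theorem mk_lt_iff {n : ℕ} {s : Finset (Fin 13)} : mk s < 2 ^ n ↔ ∀ a ∈ s, a.val < n := by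
  constructor
  · intro h a ha
    by_contra hna
    have h1 := testBit_mk s a
    rw [Nat.testBit_eq_false_of_lt (lt_of_lt_of_le h
      (Nat.pow_le_pow_right (by norm_num) (by omega)))] at h1
    rw [decide_eq_true ha] at h1
    exact Bool.false_ne_true h1
  · intro h
    refine Nat.lt_pow_two_of_testBit _ fun i hi => ?_
    by_cases h13 : i < 13
    · have h1 := testBit_mk s ⟨i, h13⟩
      simp only at h1
      rw [h1, decide_eq_false_iff_not]
      intro h2
      exact absurd (h _ h2) (by simp only; omega)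
    · exact testBit_mk_ge s (by omega)

theorem Sub.mem_L {n k : ℕ} (hn : n ≤ 13) {s : Finset (Fin 13)} (h : Sub n k s) :
    mk s ∈ L n k := (sub_iff hn).1 h

theorem rk_lt {n k : ℕ} (hn : n ≤ 13) {s : Finset (Fin 13)} (h : Sub n k s) :
    rk n k s < (L n k).length := List.idxOf_lt_length_of_mem (h.mem_L hn)

theorem getElem_rk {n k : ℕ} (hn : n ≤ 13) {s : Finset (Fin 13)} (h : Sub n k s) :
    (L n k)[rk n k s]'(rk_lt hn h) = mk s := List.getElem_idxOf _

theorem ofMask_getElem_sub {n k : ℕ} (hn : n ≤ 13) {i : ℕ} (h : i < (L n k).length) :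
    Sub n k (ofMask ((L n k)[i])) := by
  have h1 := (mem_L hn).1 (List.getElem_mem h)
  refine ⟨?_, h1.2⟩
  rw [mk_ofMask (lt_of_lt_of_le h1.1 (Nat.pow_le_pow_right (by norm_num) hn))]
  exact h1.1

theorem mk_ofMask_getElem {n k : ℕ} (hn : n ≤ 13) {i : ℕ} (h : i < (L n k).length) :
    mk (ofMask ((L n k)[i])) = (L n k)[i] :=
  mk_ofMask (lt_of_lt_of_le (lt_of_mem_L (List.getElem_mem h))
    (Nat.pow_le_pow_right (by norm_num) hn))

theorem rk_getElem {n k : ℕ} (hn : n ≤ 13) {i : ℕ} (h : i < (L n k).length) :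
    rk n k (ofMask ((L n k)[i])) = i := by
  unfold rk
  rw [mk_ofMask_getElem hn h]
  exact (nodup_L n k).idxOf_getElem i h

theorem ofMask_getElem_rk {n k : ℕ} (hn : n ≤ 13) {s : Finset (Fin 13)} (h : Sub n k s) :
    ofMask ((L n k)[rk n k s]'(rk_lt hn h)) = s := by
  rw [getElem_rk hn h, ofMask_mk]

theorem mem_fam_iff {n k N : ℕ} (hn : n ≤ 13) {s : Finset (Fin 13)} :
    s ∈ fam n k N ↔ Sub n k s ∧ N.testBit (rk n k s) = true := by
  rw [mem_fam]
  constructor
  · rintro ⟨i, h, h1, rfl⟩
    refine ⟨ofMask_getElem_sub hn h, ?_⟩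
    rw [rk_getElem hn h]
    exact h1
  · rintro ⟨h1, h2⟩
    exact ⟨rk n k s, rk_lt hn h1, h2, ofMask_getElem_rk hn h1⟩

theorem testBit_enc {n k : ℕ} (D : Finset (Finset (Fin 13))) {i : ℕ}
    (h : i < (L n k).length) :
    (enc n k D).testBit i = decide (ofMask ((L n k)[i]) ∈ D) := by
  unfold enc
  rw [Nat.testBit_ofBits_lt _ _ h]

theorem testBit_enc_ge {n k : ℕ} (D : Finset (Finset (Fin 13))) {i : ℕ}
    (h : (L n k).length ≤ i) : (enc n k D).testBit i = false := by
  unfold enc
  exact Nat.testBit_ofBits_ge _ _ h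

theorem testBit_enc_rk {n k : ℕ} (hn : n ≤ 13) (D : Finset (Finset (Fin 13)))
    {s : Finset (Fin 13)} (h : Sub n k s) :
    (enc n k D).testBit (rk n k s) = decide (s ∈ D) := by
  rw [testBit_enc D (rk_lt hn h), ofMask_getElem_rk hn h]

theorem enc_lt (n k : ℕ) (D : Finset (Finset (Fin 13))) : enc n k D < 2 ^ n.choose k := by
  rw [← length_L]
  exact Nat.ofBits_lt_two_pow _

theorem fam_enc {n k : ℕ} (hn : n ≤ 13) {D : Finset (Finset (Fin 13))}
    (hD : ∀ s ∈ D, Sub n k s) : fam n k (enc n k D) = D := by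
  ext s
  rw [mem_fam_iff hn]
  constructor
  · rintro ⟨h1, h2⟩
    rw [testBit_enc_rk hn D h1, decide_eq_true_eq] at h2
    exact h2
  · intro h
    refine ⟨hD s h, ?_⟩
    rw [testBit_enc_rk hn D (hD s h), decide_eq_true_eq]
    exact h

theorem enc_fam {n k N : ℕ} (hn : n ≤ 13) (hN : N < 2 ^ n.choose k) :
    enc n k (fam n k N) = N := by
  refine Nat.eq_of_testBit_eq fun i => ?_
  by_cases h : i < (L n k).length
  · rw [testBit_enc _ h]
    by_cases hb : N.testBit i = true
    · rw [hb, decide_eq_true_eq, mem_fam]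
      exact ⟨i, h, hb, rfl⟩
    · rw [Bool.not_eq_true] at hb
      rw [hb, decide_eq_false_iff_not, mem_fam_iff hn]
      rintro ⟨-, h2⟩
      rw [rk_getElem hn h, hb] at h2
      exact Bool.false_ne_true h2
  · rw [testBit_enc_ge _ (by omega), Nat.testBit_eq_false_of_lt]
    rw [length_L] at h
    exact lt_of_lt_of_le hN (Nat.pow_le_pow_right (by norm_num) (by omega))

theorem sub_of_mem_fam {n k N : ℕ} (hn : n ≤ 13) {s : Finset (Fin 13)} (h : s ∈ fam n k N) :
    Sub n k s := ((mem_fam_iff hn).1 h).1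

theorem enc_injective {n k : ℕ} (hn : n ≤ 13) {D E : Finset (Finset (Fin 13))}
    (hD : ∀ s ∈ D, Sub n k s) (hE : ∀ s ∈ E, Sub n k s) (h : enc n k D = enc n k E) :
    D = E := by
  rw [← fam_enc hn hD, ← fam_enc hn hE, h]

/-! ## set operations -/

theorem enc_inter (n k : ℕ) (D E : Finset (Finset (Fin 13))) :
    enc n k (D ∩ E) = enc n k D &&& enc n k E := by
  refine Nat.eq_of_testBit_eq fun i => ?_
  rw [Nat.testBit_and]
  by_cases h : i < (L n k).length
  · rw [testBit_enc _ h, testBit_enc _ h, testBit_enc _ h, ← Bool.decide_and]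
    congr 1
    rw [mem_inter]
  · rw [testBit_enc_ge _ (by omega), testBit_enc_ge _ (by omega)]
    rfl

theorem enc_union (n k : ℕ) (D E : Finset (Finset (Fin 13))) :
    enc n k (D ∪ E) = enc n k D ||| enc n k E := by
  refine Nat.eq_of_testBit_eq fun i => ?_
  rw [Nat.testBit_or]
  by_cases h : i < (L n k).length
  · rw [testBit_enc _ h, testBit_enc _ h, testBit_enc _ h, ← Bool.decide_or]
    congr 1
    rw [mem_union]
  · rw [testBit_enc_ge _ (by omega), testBit_enc_ge _ (by omega), testBit_enc_ge _ (by omega)]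
    rfl

theorem fam_land {n : ℕ} (hn : n ≤ 13) (k N N' : ℕ) :
    fam n k (N &&& N') = fam n k N ∩ fam n k N' := by
  ext s
  rw [mem_inter, mem_fam_iff hn, mem_fam_iff hn, mem_fam_iff hn, Nat.testBit_and,
    Bool.and_eq_true]
  tauto

theorem fam_lor {n : ℕ} (hn : n ≤ 13) (k N N' : ℕ) :
    fam n k (N ||| N') = fam n k N ∪ fam n k N' := by
  ext s
  rw [mem_union, mem_fam_iff hn, mem_fam_iff hn, mem_fam_iff hn, Nat.testBit_or,
    Bool.or_eq_true]
  tauto

theorem fam_xor {n : ℕ} (hn : n ≤ 13) (k N N' : ℕ) :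
    fam n k (N ^^^ N') = symmDiff (fam n k N) (fam n k N') := by
  ext s
  rw [mem_symmDiff, mem_fam_iff hn, mem_fam_iff hn, mem_fam_iff hn, Nat.testBit_xor]
  cases N.testBit (rk n k s) <;> cases N'.testBit (rk n k s) <;> simp

theorem fam_zero (n k : ℕ) : fam n k 0 = ∅ := by
  ext s
  rw [mem_fam]
  constructor
  · rintro ⟨i, -, h, -⟩
    rw [Nat.zero_testBit] at h
    exact absurd h Bool.false_ne_true
  · intro h
    exact absurd h (notMem_empty s)

/-! ## the last point -/

theorem getElem_L_lt {n k i : ℕ} (h : i < (L n (k + 1)).length) :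
    (L (n + 1) (k + 1))[i]'(by rw [L_succ, List.length_append]; omega) =
      (L n (k + 1))[i] := by
  simp only [L_succ]
  rw [List.getElem_append_left h]

theorem getElem_L_add {n k i : ℕ} (h : i < (L n k).length) :
    (L (n + 1) (k + 1))[n.choose (k + 1) + i]'(by
      rw [L_succ, List.length_append, List.length_map, length_L]; omega) =
      (L n k)[i] + 2 ^ n := by
  simp only [L_succ]
  rw [List.getElem_append_right (by rw [length_L]; omega)]
  rw [List.getElem_map]
  congr 2
  rw [length_L]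
  omega

/-- the blocks avoiding the last point -/
theorem enc_mod (n k : ℕ) (D : Finset (Finset (Fin 13))) :
    enc (n + 1) (k + 1) D % 2 ^ n.choose (k + 1) = enc n (k + 1) D := by
  refine Nat.eq_of_testBit_eq fun i => ?_
  rw [Nat.testBit_mod_two_pow]
  by_cases h : i < n.choose (k + 1)
  · have h1 : i < (L n (k + 1)).length := by rw [length_L]; exact h
    have h2 : i < (L (n + 1) (k + 1)).length := by rw [L_succ, List.length_append]; omega
    rw [testBit_enc _ h1, testBit_enc _ h2, getElem_L_lt h1, decide_eq_true h, Bool.true_and]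
  · rw [decide_eq_false h, Bool.false_and, testBit_enc_ge]
    rw [length_L]
    omega

/-- the link of the last point is a shift -/
theorem enc_shift (n : Fin 13) (k : ℕ) (D : Finset (Finset (Fin 13))) :
    enc (n.val + 1) (k + 1) D >>> n.val.choose (k + 1) = enc n.val k (link D n) := by
  refine Nat.eq_of_testBit_eq fun i => ?_
  rw [Nat.testBit_shiftRight]
  by_cases h : i < (L n.val k).length
  · have h2 : n.val.choose (k + 1) + i < (L (n.val + 1) (k + 1)).length := by
      rw [L_succ, List.length_append, List.length_map, length_L]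
      omega
    have hlt := lt_of_mem_L (List.getElem_mem h)
    rw [testBit_enc _ h, testBit_enc _ h2]
    congr 1
    rw [getElem_L_add h, ofMask_add n hlt, mem_link, eq_iff_iff]
    exact ⟨fun h3 => ⟨notMem_ofMask n hlt, h3⟩, fun h3 => h3.2⟩
  · rw [testBit_enc_ge (n := n.val) (k := k) _ (by omega), testBit_enc_ge]
    rw [L_succ, List.length_append, List.length_map, length_L]
    omega

/-- splitting a code at the last point -/
theorem enc_split (n : Fin 13) (k : ℕ) (D : Finset (Finset (Fin 13))) :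
    enc (n.val + 1) (k + 1) D =
      enc n.val (k + 1) D + 2 ^ n.val.choose (k + 1) * enc n.val k (link D n) := by
  rw [← enc_shift n k D, ← enc_mod n.val k D, Nat.shiftRight_eq_div_pow]
  exact (Nat.mod_add_div _ _).symm

end Pool.Agent.Helper79.CV
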