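import Mathlib
import Pool.Agent.Helper79.CV.Enc

/-!
MP_8ee768_co, project TH-Y': frames. Moving points to standard positions and perfect matchings to
the standard perfect matching.
-/

set_option autoImplicit false

namespace Pool.Agent.Helper79.CV

open Finset
open Pool.Agent.Helper89.CV (OddCover ofMask)
open Pool.Agent.Helper97.CV

/-- distinct points can be moved anywhere -/
theorem exists_perm {n : ℕ} (a b : Fin n ↪ Fin 13) :
    ∃ σ : Equiv.Perm (Fin 13), ∀ i, σ (a i) = b i := by
  have := Equiv.Perm.isMultiplyPretransitive (Fin 13) n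
  obtain ⟨σ, h⟩ := MulAction.exists_smul_eq (Equiv.Perm (Fin 13)) a b
  exact ⟨σ, fun i => by rw [← h]; rfl⟩

theorem exists_perm_one (x a : Fin 13) : ∃ σ : Equiv.Perm (Fin 13), σ x = a :=
  ⟨Equiv.swap x a, Equiv.swap_apply_left x a⟩

theorem exists_perm_two {x y a b : Fin 13} (hxy : x ≠ y) (hab : a ≠ b) :
    ∃ σ : Equiv.Perm (Fin 13), σ x = a ∧ σ y = b := by
  have hinj : ∀ {u v : Fin 13}, u ≠ v → Function.Injective ![u, v] := by
    intro u v huv i j hij
    fin_cases i <;> fin_cases j <;> simp_all [huv.symm]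
  obtain ⟨σ, h⟩ := exists_perm ⟨![x, y], hinj hxy⟩ ⟨![a, b], hinj hab⟩
  exact ⟨σ, h 0, h 1⟩

theorem exists_perm_three {x y z a b c : Fin 13} (hxy : x ≠ y) (hxz : x ≠ z) (hyz : y ≠ z)
    (hab : a ≠ b) (hac : a ≠ c) (hbc : b ≠ c) :
    ∃ σ : Equiv.Perm (Fin 13), σ x = a ∧ σ y = b ∧ σ z = c := by
  have hinj : ∀ {u v w : Fin 13}, u ≠ v → u ≠ w → v ≠ w → Function.Injective ![u, v, w] := by
    intro u v w h1 h2 h3 i j hij
    fin_cases i <;> fin_cases j <;> simp_all [h1.symm, h2.symm, h3.symm]
  obtain ⟨σ, h⟩ := exists_perm ⟨![x, y, z], hinj hxy hxz hyz⟩ ⟨![a, b, c], hinj hab hac hbc⟩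
  exact ⟨σ, h 0, h 1, h 2⟩

/-! ## perfect matchings -/

/-- `D` is a perfect matching of the points `< 2 j` -/
def IsPM (j : ℕ) (D : Finset (Finset (Fin 13))) : Prop :=
  (∀ p ∈ D, p.card = 2 ∧ ∀ a ∈ p, a.val < 2 * j) ∧
    ∀ a : Fin 13, a.val < 2 * j → cnt D {a} = 1

/-- the standard perfect matching `{01, 23, 45, ..}` of the points `< 2 j` -/
def stdPM : ℕ → Finset (Finset (Fin 13))
  | 0 => ∅
  | j + 1 => insert (ofMask (3 * 4 ^ j)) (stdPM j)

theorem mem_ofMask_three (j : ℕ) (a : Fin 13) :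
    a ∈ ofMask (3 * 4 ^ j) ↔ a.val = 2 * j ∨ a.val = 2 * j + 1 := by
  have h4 : (3 * 4 ^ j : ℕ) = 2 ^ (2 * j + 1) + 2 ^ (2 * j) := by
    have : (4 : ℕ) ^ j = 2 ^ (2 * j) := by
      rw [pow_mul]
      norm_num
    rw [this, pow_succ]
    omega
  rw [mem_ofMask, h4]
  rcases lt_trichotomy a.val (2 * j + 1) with h | h | h
  · rw [Nat.testBit_two_pow_add_gt h, Nat.testBit_two_pow, decide_eq_true_eq]
    omega
  · rw [h, Nat.testBit_two_pow_add_eq, Nat.testBit_two_pow]
    simp
  · rw [Nat.testBit_eq_false_of_lt]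
    · constructor
      · intro h1
        exact absurd h1 Bool.false_ne_true
      · omega
    · calc 2 ^ (2 * j + 1) + 2 ^ (2 * j) < 2 ^ (2 * j + 1) + 2 ^ (2 * j + 1) := by
            have : 2 ^ (2 * j) < 2 ^ (2 * j + 1) := Nat.pow_lt_pow_right (by norm_num) (by omega)
            omega
        _ = 2 ^ (2 * j + 1 + 1) := by rw [pow_succ 2 (2 * j + 1)]; omega
        _ ≤ 2 ^ a.val := Nat.pow_le_pow_right (by norm_num) h

theorem cnt_singleton_eq_one {D : Finset (Finset (Fin 13))} {a : Fin 13}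
    (h : cnt D {a} = 1) : ∃ p ∈ D, a ∈ p ∧ ∀ r ∈ D, a ∈ r → r = p := by
  unfold cnt at h
  obtain ⟨p, hp⟩ := card_eq_one.1 h
  have hm : ∀ r, r ∈ D.filter (fun b => {a} ⊆ b) ↔ r = p := by
    intro r
    rw [hp, mem_singleton]
  simp only [mem_filter, singleton_subset_iff] at hm
  have h1 := (hm p).2 rfl
  exact ⟨p, h1.1, h1.2, fun r hr ha => (hm r).1 ⟨hr, ha⟩⟩

theorem IsPM.map {j : ℕ} {D : Finset (Finset (Fin 13))} (h : IsPM j D)
    {σ : Equiv.Perm (Fin 13)} (hσ : ∀ a : Fin 13, a.val < 2 * j → (σ a).val < 2 * j)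
    (hσ' : ∀ a : Fin 13, a.val < 2 * j → (σ.symm a).val < 2 * j) : IsPM j (mapF σ D) := by
  constructor
  · intro p hp
    rw [mem_mapF'] at hp
    obtain ⟨h1, h2⟩ := h.1 _ hp
    refine ⟨by rwa [card_mapS] at h1, fun a ha => ?_⟩
    have h3 : σ.symm a ∈ mapS σ.symm p := by
      rw [mem_mapS']
      simp only [Equiv.symm_symm, Equiv.apply_symm_apply]
      exact ha
    have h4 := hσ _ (h2 _ h3)
    rwa [Equiv.apply_symm_apply] at h4
  · intro a ha
    rw [cnt_mapF', mapS_singleton]
    exact h.2 _ (hσ' a ha)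

/-- every perfect matching can be moved to the standard one, fixing the points `≥ 2 j` -/
theorem IsPM.exists_perm (j : ℕ) (hj : 2 * j ≤ 13) {D : Finset (Finset (Fin 13))}
    (h : IsPM j D) : ∃ σ : Equiv.Perm (Fin 13),
      (∀ a : Fin 13, 2 * j ≤ a.val → σ a = a) ∧ mapF σ D = stdPM j := by
  induction j generalizing D with
  | zero =>
    refine ⟨1, fun a _ => rfl, ?_⟩
    rw [mapF_one]
    ext p
    constructor
    · intro hp
      obtain ⟨h1, h2⟩ := h.1 p hp
      obtain ⟨a, ha⟩ : p.Nonempty := by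
        rw [← card_pos]
        omega
      exact absurd (h2 a ha) (by omega)
    · intro hp
      exact absurd hp (notMem_empty p)
  | succ j ih =>
    have hj1 : 2 * j + 1 < 13 := by omega
    set a : Fin 13 := ⟨2 * j + 1, hj1⟩ with ha
    set b : Fin 13 := ⟨2 * j, by omega⟩ with hb
    have hab : a ≠ b := by
      intro h1
      have := congrArg Fin.val h1
      simp only [ha, hb] at this
      omega
    obtain ⟨p, hpD, hap, -⟩ := cnt_singleton_eq_one (h.2 a (by simp only [ha]; omega))
    obtain ⟨hp2, hplt⟩ := h.1 p hpD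
    obtain ⟨c, hc⟩ : ∃ c, p.erase a = {c} := by
      rw [← card_eq_one, card_erase_of_mem hap, hp2]
    have hcp : c ∈ p := by
      have : c ∈ p.erase a := by
        rw [hc]
        exact mem_singleton_self c
      exact mem_of_mem_erase this
    have hca : c ≠ a := by
      have : c ∈ p.erase a := by
        rw [hc]
        exact mem_singleton_self c
      exact ne_of_mem_erase this
    have hpe : p = {a, c} := by
      rw [← insert_erase hap, hc]
    have hclt := hplt c hcp
    set σ := Equiv.swap c b with hσ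
    have hσlt : ∀ u : Fin 13, u.val < 2 * (j + 1) → (σ u).val < 2 * (j + 1) := by
      intro u hu
      rw [hσ, Equiv.swap_apply_def]
      split_ifs with h1 h2
      · simp only [hb]
        omega
      · exact hclt
      · exact hu
    have hσs : σ.symm = σ := Equiv.symm_swap c b
    have h' : IsPM (j + 1) (mapF σ D) := h.map hσlt (by rw [hσs]; exact hσlt)
    have hσa : σ a = a := Equiv.swap_apply_of_ne_of_ne hca.symm hab
    have hσc : σ c = b := Equiv.swap_apply_left c b
    have hmem : ({a, b} : Finset (Fin 13)) ∈ mapF σ D := by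
      have h1 : mapS σ p ∈ mapF σ D := mem_mapF.2 hpD
      rw [hpe, mapS_pair, hσa, hσc] at h1
      exact h1
    set E := mapF σ D with hE
    have hge : ∀ u : Fin 13, 2 * (j + 1) ≤ u.val → σ u = u := by
      intro u hu
      refine Equiv.swap_apply_of_ne_of_ne ?_ ?_
      · rintro rfl
        omega
      · rintro rfl
        simp only [hb] at hu
        omega
    have hpair : ofMask (3 * 4 ^ j) = {a, b} := by
      ext u
      rw [mem_ofMask_three, mem_insert, mem_singleton, Fin.ext_iff, Fin.ext_iff]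
      simp only [ha, hb]
      omega
    have hE' : IsPM j (E.erase {a, b}) := by
      constructor
      · intro r hr
        have hrE := mem_of_mem_erase hr
        obtain ⟨h1, h2⟩ := h'.1 r hrE
        refine ⟨h1, fun u hu => ?_⟩
        have h3 := h2 u hu
        by_contra hlt
        have h4 : u = a ∨ u = b := by
          rw [Fin.ext_iff, Fin.ext_iff]
          simp only [ha, hb]
          omega
        have h5 : u ∈ ({a, b} : Finset (Fin 13)) := by
          rw [mem_insert, mem_singleton]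
          exact h4
        obtain ⟨s, -, -, h6⟩ := cnt_singleton_eq_one (h'.2 u h3)
        exact (ne_of_mem_erase hr) ((h6 r hrE hu).trans (h6 _ hmem h5).symm)
      · intro u hu
        have h1 := h'.2 u (by omega)
        rw [← h1]
        unfold cnt
        congr 1
        ext r
        simp only [mem_filter, mem_erase, singleton_subset_iff]
        constructor
        · rintro ⟨⟨-, h2⟩, h3⟩
          exact ⟨h2, h3⟩
        · rintro ⟨h2, h3⟩
          refine ⟨⟨?_, h2⟩, h3⟩
          rintro rfl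
          rw [mem_insert, mem_singleton, Fin.ext_iff, Fin.ext_iff] at h3
          simp only [ha, hb] at h3
          omega
    obtain ⟨τ, hτ, hτE⟩ := ih (by omega) hE'
    refine ⟨τ * σ, fun u hu => ?_, ?_⟩
    · rw [Equiv.Perm.mul_apply, hge u hu, hτ u (by omega)]
    · rw [mapF_mul, ← hE, ← insert_erase hmem]
      have h1 : mapF τ (insert {a, b} (E.erase {a, b})) =
          insert (mapS τ {a, b}) (mapF τ (E.erase {a, b})) := by
        unfold mapF
        rw [image_insert]
      rw [h1, hτE, mapS_pair, hτ a (by simp only [ha]; omega), hτ b (by simp only [hb]; omega),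
        ← hpair]
      rfl

/-- a minimal odd family of pairs is a perfect matching -/
theorem isPM_of_oddFam {j : ℕ} (hj : 2 * j ≤ 13) {V : Finset (Fin 13)}
    (hV : ∀ a : Fin 13, a ∈ V ↔ a.val < 2 * j) {D : Finset (Finset (Fin 13))}
    (h : OddFam 1 V D) (hc : D.card = j) : IsPM j D := by
  have h2 : ∀ b ∈ D, b.card = 2 := fun b hb => (h.1 b hb).2
  refine ⟨fun p hp => ⟨h2 p hp, fun a ha => (hV a).1 ((h.1 p hp).1 ha)⟩, ?_⟩
  have hsum : ∑ a : Fin 13, cnt D {a} = 2 * D.card := by
    have h3 := double_count D 2 h2 (fun _ => 1) ∅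
    rw [card_empty, compl_empty] at h3
    have h4 : ∀ a : Fin 13, cnt D {a} = ∑ b ∈ D.filter (fun b => insert a ∅ ⊆ b), 1 := by
      intro a
      rw [insert_empty_eq]
      exact card_eq_sum_ones _
    rw [sum_congr rfl fun a _ => h4 a, h3]
    have h5 : D.filter (fun b => ∅ ⊆ b) = D := filter_true_of_mem fun b _ => empty_subset b
    rw [h5, ← card_eq_sum_ones]
  have hodd : ∀ a ∈ V, Odd (cnt D {a}) := fun a ha =>
    h.2 {a} (singleton_subset_iff.2 ha) (card_singleton a)
  have hVcard : V.card = 2 * j := by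
    have h6 : V = univ.filter (fun a : Fin 13 => a.val < 2 * j) := by
      ext a
      rw [hV, mem_filter]
      simp
    rw [h6]
    have h7 : ∀ k : Fin 14, (univ.filter (fun a : Fin 13 => a.val < k.val)).card = k.val := by
      decide
    exact h7 ⟨2 * j, by omega⟩
  have hsV : ∑ a ∈ V, cnt D {a} ≤ V.card := by
    calc ∑ a ∈ V, cnt D {a} ≤ ∑ a : Fin 13, cnt D {a} :=
          sum_le_sum_of_subset (subset_univ V)
      _ = V.card := by rw [hsum, hc, hVcard]
  have hge : ∀ a ∈ V, 1 ≤ cnt D {a} := fun a ha => (hodd a ha).pos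
  intro a ha
  have haV := (hV a).2 ha
  by_contra hne
  have h1 := hge a haV
  have h9 : ∑ b ∈ V, 1 < ∑ b ∈ V, cnt D {b} :=
    sum_lt_sum hge ⟨a, haV, by omega⟩
  rw [← card_eq_sum_ones] at h9
  omega

end Pool.Agent.Helper79.CV
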