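import Mathlib
import Pool.Agent.Helper79.CV.Frame

/-!
MP_8ee768_co, project TH-Y': the frame `x, y, z = 12, 11, 10` with the standard perfect matching as
triple link, and the structure of the pair links with 19 triples (near-STS(11)).
-/

set_option autoImplicit false

namespace Pool.Agent.Helper79.CV

open Finset
open Pool.Agent.Helper89.CV (OddCover ofMask)
open Pool.Agent.Helper97.CV

theorem card_link₃ {B : Finset (Finset (Fin 13))} (hB : OddCover B) {x y z : Fin 13}
    (hxy : x ≠ y) (hxz : x ≠ z) (hyz : y ≠ z) :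
    (link (link (link B x) y) z).card = 5 + Lam B {x, y, z} := by
  have hy : x ∉ ({y, z} : Finset (Fin 13)) := by
    rw [mem_insert, mem_singleton]
    tauto
  have hz : y ∉ ({z} : Finset (Fin 13)) := by
    rw [mem_singleton]
    exact hyz
  rw [card_link, cnt_link _ hz, cnt_link _ hy]
  refine cnt_triple hB ?_
  rw [card_insert_of_notMem hy, card_insert_of_notMem hz, card_singleton]

theorem mapF_link₃ (σ : Equiv.Perm (Fin 13)) (B : Finset (Finset (Fin 13))) (x y z : Fin 13) :
    link (link (link (mapF σ B) (σ x)) (σ y)) (σ z) = mapF σ (link (link (link B x) y) z) := by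
  rw [link_mapF, link_mapF, link_mapF]

/-- the frame: three points without excess go to `12, 11, 10`, their link to `stdPM 5` -/
theorem exists_frame {B : Finset (Finset (Fin 13))} (hB : OddCover B) {x y z : Fin 13}
    (hxy : x ≠ y) (hxz : x ≠ z) (hyz : y ≠ z) (h : Lam B {x, y, z} = 0) :
    ∃ σ : Equiv.Perm (Fin 13), σ x = 12 ∧ σ y = 11 ∧ σ z = 10 ∧
      link (link (link (mapF σ B) 12) 11) 10 = stdPM 5 := by
  obtain ⟨σ, h1, h2, h3⟩ := exists_perm_three hxy hxz hyz
    (show (12 : Fin 13) ≠ 11 by decide) (show (12 : Fin 13) ≠ 10 by decide)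
    (show (11 : Fin 13) ≠ 10 by decide)
  have hBσ := oddCover_mapF hB σ
  have hodd := oddFam_link₃ hBσ (show (12 : Fin 13) ≠ 11 by decide)
    (show (12 : Fin 13) ≠ 10 by decide) (show (11 : Fin 13) ≠ 10 by decide)
  have hc : (link (link (link (mapF σ B) 12) 11) 10).card = 5 := by
    rw [← h1, ← h2, ← h3, mapF_link₃, card_mapF, card_link₃ hB hxy hxz hyz, h]
  have hV : ∀ a : Fin 13, a ∈ ((univ.erase (12 : Fin 13)).erase 11).erase 10 ↔
      a.val < 2 * 5 := by decide
  have hPM := isPM_of_oddFam (by norm_num) hV hodd hc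
  obtain ⟨τ, hτ, hτD⟩ := hPM.exists_perm 5 (by norm_num)
  have t12 : τ 12 = 12 := hτ 12 (by decide)
  have t11 : τ 11 = 11 := hτ 11 (by decide)
  have t10 : τ 10 = 10 := hτ 10 (by decide)
  refine ⟨τ * σ, ?_, ?_, ?_, ?_⟩
  · rw [Equiv.Perm.mul_apply, h1, t12]
  · rw [Equiv.Perm.mul_apply, h2, t11]
  · rw [Equiv.Perm.mul_apply, h3, t10]
  · rw [mapF_mul, ← hτD]
    have h4 := mapF_link₃ τ (mapF σ B) 12 11 10
    rw [t12, t11, t10] at h4
    exact h4

/-! ## near-STS(11) -/

/-- double counting inside `V` -/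
theorem sum_cnt_insert {k : ℕ} {V : Finset (Fin 13)} {D : Finset (Finset (Fin 13))}
    (h : OddFam k V D) (s : Finset (Fin 13)) :
    ∑ v ∈ V \ s, cnt D (insert v s) = (k + 1 - s.card) * cnt D s := by
  have h1 := double_count D (k + 1) (fun b hb => (h.1 b hb).2) (fun _ => 1) s
  have h2 : ∀ t : Finset (Fin 13), cnt D t = ∑ b ∈ D.filter (fun b => t ⊆ b), 1 := fun t =>
    card_eq_sum_ones _
  rw [h2 s, ← h1]
  have h3 : V \ s ⊆ sᶜ := by
    intro a ha
    rw [mem_sdiff] at ha
    exact mem_compl.2 ha.2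
  rw [← sum_subset h3]
  · exact sum_congr rfl fun v _ => h2 _
  · intro a ha hna
    rw [← h2, cnt, card_eq_zero, filter_eq_empty_iff]
    intro b hb hab
    refine hna (mem_sdiff.2 ⟨?_, mem_compl.1 ha⟩)
    exact (h.1 b hb).1 (hab (mem_insert_self a s))

theorem sum_cnt_point {k : ℕ} {V : Finset (Fin 13)} {D : Finset (Finset (Fin 13))}
    (h : OddFam k V D) : ∑ v ∈ V, cnt D {v} = (k + 1) * D.card := by
  have h1 := sum_cnt_insert h ∅
  have h2 : cnt D ∅ = D.card := by
    unfold cnt
    rw [filter_true_of_mem fun b _ => empty_subset b]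
  rw [h2, card_empty, sdiff_empty, Nat.sub_zero] at h1
  rw [← h1]
  exact sum_congr rfl fun v _ => by rw [insert_empty_eq]

theorem five_le_cnt {V : Finset (Fin 13)} {T : Finset (Finset (Fin 13))} (h : OddFam 2 V T)
    (hV : V.card = 11) {a : Fin 13} (ha : a ∈ V) : 5 ≤ cnt T {a} := by
  have h1 := sum_cnt_insert h {a}
  have h2 : ∑ v ∈ V \ {a}, 1 ≤ ∑ v ∈ V \ {a}, cnt T (insert v {a}) := by
    refine sum_le_sum fun v hv => ?_
    rw [mem_sdiff, mem_singleton] at hv
    refine (h.2 _ ?_ (card_pair hv.2)).pos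
    intro b hb
    rw [mem_insert, mem_singleton] at hb
    rcases hb with rfl | rfl
    · exact hv.1
    · exact ha
  rw [← card_eq_sum_ones, card_sdiff_of_subset (singleton_subset_iff.2 ha), hV,
    card_singleton, h1, card_singleton] at h2
  omega

/-- a near-STS has a point of degree 5 -/
theorem exists_cnt_five {V : Finset (Fin 13)} {T : Finset (Finset (Fin 13))} (h : OddFam 2 V T)
    (hV : V.card = 11) (hT : T.card = 19) : ∃ a ∈ V, cnt T {a} = 5 := by
  by_contra hne
  have h1 : ∀ a ∈ V, 6 ≤ cnt T {a} := by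
    intro a ha
    have h2 := five_le_cnt h hV ha
    have h3 : cnt T {a} ≠ 5 := fun h4 => hne ⟨a, ha, h4⟩
    omega
  have h2 := sum_cnt_point h
  have h3 : ∑ v ∈ V, 6 ≤ ∑ v ∈ V, cnt T {v} := sum_le_sum h1
  rw [sum_const, hV, h2, hT, smul_eq_mul] at h3
  omega

/-- a pair of points: both ends of a pair covered at least 3 times have degree at least 6 -/
theorem six_le_cnt {V : Finset (Fin 13)} {T : Finset (Finset (Fin 13))} (h : OddFam 2 V T)
    (hV : V.card = 11) {a b : Fin 13} (ha : a ∈ V) (hb : b ∈ V) (hab : a ≠ b)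
    (h3 : cnt T {a, b} ≠ 1) : 6 ≤ cnt T {a} := by
  have h1 := sum_cnt_insert h {a}
  have hpair : ∀ v ∈ V \ {a}, 1 ≤ cnt T (insert v {a}) := by
    intro v hv
    rw [mem_sdiff, mem_singleton] at hv
    refine (h.2 _ ?_ (card_pair hv.2)).pos
    intro c hc
    rw [mem_insert, mem_singleton] at hc
    rcases hc with rfl | rfl
    · exact hv.1
    · exact ha
  have hlt : ∑ v ∈ V \ {a}, 1 < ∑ v ∈ V \ {a}, cnt T (insert v {a}) := by
    have hbm : b ∈ V \ {a} := by
      rw [mem_sdiff, mem_singleton]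
      exact ⟨hb, hab.symm⟩
    refine sum_lt_sum hpair ⟨b, hbm, ?_⟩
    have h4 := hpair b hbm
    have h5 : cnt T (insert b {a}) = cnt T {a, b} := by
      rw [pair_comm a b]
    rw [h5] at h4 ⊢
    omega
  rw [← card_eq_sum_ones, card_sdiff_of_subset (singleton_subset_iff.2 ha), hV,
    card_singleton, h1, card_singleton] at hlt
  omega

/-- the excess pair of a near-STS -/
theorem exists_excess {V : Finset (Fin 13)} {T : Finset (Finset (Fin 13))} (h : OddFam 2 V T)
    (hV : V.card = 11) (hT : T.card = 19) :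
    ∃ u ∈ V, ∃ v ∈ V, u ≠ v ∧ cnt T {u} = 6 ∧ cnt T {v} = 6 ∧ cnt T {u, v} = 3 ∧
      (∀ a ∈ V, a ≠ u → a ≠ v → cnt T {a} = 5) ∧
      ∀ a ∈ V, ∀ b ∈ V, a ≠ b → ({a, b} : Finset (Fin 13)) ≠ {u, v} → cnt T {a, b} = 1 := by
  have hsum := sum_cnt_point h
  rw [hT] at hsum
  have hex : ∑ v ∈ V, (cnt T {v} - 5) = 2 := by
    have h1 : ∑ v ∈ V, (cnt T {v} - 5 + 5) = ∑ v ∈ V, cnt T {v} :=
      sum_congr rfl fun v hv => by
        have := five_le_cnt h hV hv
        omega
    rw [sum_add_distrib, sum_const, hV, hsum, smul_eq_mul] at h1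
    omega
  have hpos : ∃ u ∈ V, 0 < cnt T {u} - 5 := by
    by_contra hne
    have h1 : ∑ v ∈ V, (cnt T {v} - 5) = 0 := by
      refine sum_eq_zero fun v hv => ?_
      by_contra h2
      exact hne ⟨v, hv, by omega⟩
    omega
  obtain ⟨u, hu, hu6⟩ := hpos
  have h2 := sum_cnt_insert h {u}
  have hpair : ∀ a ∈ V, ∀ b ∈ V, a ≠ b → Odd (cnt T {a, b}) := by
    intro a ha b hb hab
    refine h.2 _ ?_ (card_pair hab)
    intro c hc
    rw [mem_insert, mem_singleton] at hc
    rcases hc with rfl | rfl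
    · exact ha
    · exact hb
  have hv : ∃ v ∈ V, u ≠ v ∧ cnt T {u, v} ≠ 1 := by
    by_contra hne
    have h3 : ∀ v ∈ V \ {u}, cnt T (insert v {u}) = 1 := by
      intro v hv
      rw [mem_sdiff, mem_singleton] at hv
      by_contra h4
      exact hne ⟨v, hv.1, fun h5 => hv.2 h5.symm, by rwa [pair_comm]⟩
    rw [sum_congr rfl h3, sum_const, card_sdiff_of_subset (singleton_subset_iff.2 hu), hV,
      card_singleton, smul_eq_mul] at h2
    omega
  obtain ⟨v, hvV, huv, hcv⟩ := hv
  have hu6' := six_le_cnt h hV hu hvV huv hcv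
  have hv6' := six_le_cnt h hV hvV hu huv.symm (by rwa [pair_comm])
  have hrest : ∀ a ∈ V, a ≠ u → a ≠ v → cnt T {a} = 5 := by
    intro a ha hau hav
    by_contra hne
    have h5 := five_le_cnt h hV ha
    have h6 : ∑ w ∈ ({a, u, v} : Finset (Fin 13)), (cnt T {w} - 5) ≤
        ∑ w ∈ V, (cnt T {w} - 5) := by
      refine sum_le_sum_of_subset ?_
      intro w hw
      simp only [mem_insert, mem_singleton] at hw
      rcases hw with rfl | rfl | rfl
      · exact ha
      · exact hu
      · exact hvV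
    rw [sum_insert (by simp only [mem_insert, mem_singleton]; tauto),
      sum_insert (by rw [mem_singleton]; exact huv), sum_singleton] at h6
    omega
  have huv6 : cnt T {u} = 6 ∧ cnt T {v} = 6 := by
    have h6 : ∑ w ∈ ({u, v} : Finset (Fin 13)), (cnt T {w} - 5) ≤
        ∑ w ∈ V, (cnt T {w} - 5) := by
      refine sum_le_sum_of_subset ?_
      intro w hw
      simp only [mem_insert, mem_singleton] at hw
      rcases hw with rfl | rfl
      · exact hu
      · exact hvV
    rw [sum_insert (by rw [mem_singleton]; exact huv), sum_singleton] at h6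
    omega
  have hothers : ∀ a ∈ V, ∀ b ∈ V, a ≠ b → ({a, b} : Finset (Fin 13)) ≠ {u, v} →
      cnt T {a, b} = 1 := by
    intro a ha b hb hab hne
    by_contra h1
    have ha6 := six_le_cnt h hV ha hb hab h1
    have hb6 := six_le_cnt h hV hb ha hab.symm (by rwa [pair_comm])
    have ha' : a = u ∨ a = v := by
      by_contra h3
      rw [not_or] at h3
      have := hrest a ha h3.1 h3.2
      omega
    have hb' : b = u ∨ b = v := by
      by_contra h3
      rw [not_or] at h3
      have := hrest b hb h3.1 h3.2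
      omega
    rcases ha' with rfl | rfl <;> rcases hb' with rfl | rfl
    · exact hab rfl
    · exact hne rfl
    · exact hne (pair_comm _ _)
    · exact hab rfl
  refine ⟨u, hu, v, hvV, huv, huv6.1, huv6.2, ?_, hrest, hothers⟩
  have h7 : ∑ w ∈ V \ {u}, cnt T (insert w {u}) =
      cnt T (insert v {u}) + ∑ w ∈ (V \ {u}).erase v, cnt T (insert w {u}) := by
    refine (add_sum_erase _ _ ?_).symm
    rw [mem_sdiff, mem_singleton]
    exact ⟨hvV, huv.symm⟩
  have h8 : ∀ w ∈ (V \ {u}).erase v, cnt T (insert w {u}) = 1 := by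
    intro w hw
    rw [mem_erase, mem_sdiff, mem_singleton] at hw
    refine hothers w hw.2.1 u hu hw.2.2 ?_
    intro h9
    have h10 : w ∈ ({u, v} : Finset (Fin 13)) := by
      rw [← h9]
      exact mem_insert_self w _
    rw [mem_insert, mem_singleton] at h10
    rcases h10 with h11 | h11
    · exact hw.2.2 h11
    · exact hw.1 h11
  have hvm : v ∈ V \ {u} := by
    rw [mem_sdiff, mem_singleton]
    exact ⟨hvV, huv.symm⟩
  rw [h7, sum_congr rfl h8, sum_const, card_erase_of_mem hvm,
    card_sdiff_of_subset (singleton_subset_iff.2 hu), hV, card_singleton, smul_eq_mul,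
    huv6.1, pair_comm v u] at h2
  omega

end Pool.Agent.Helper79.CV
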