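import Mathlib
import Pool.Agent.Helper79.CV.Near
import Pool.Agent.Helper82.TY.PopEnc

/-!
MP_8ee768_co, project TH-Y': linkage between verified tables and actual links.

Root frame: the root is the point `12`. The table frame of a second point `y` is given by a
permutation `σ` with `σ 12 = 12`, `σ y = 11` which moves the pair link of `12, y` to
`fam 11 3 T`.
-/

set_option autoImplicit false

namespace Pool.Agent.Helper79.CV

open Finset
open Pool.Agent.Helper89.CV (OddCover ofMask)
open Pool.Agent.Helper97.CV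
open Pool.Agent.Helper82.TY (below sub_iff_below)

theorem mem_below {n : ℕ} {a : Fin 13} : a ∈ below n ↔ a.val < n := by
  unfold below
  rw [mem_filter]
  exact ⟨fun h => h.2, fun h => ⟨mem_univ a, h⟩⟩

theorem mapS_eq_self {σ : Equiv.Perm (Fin 13)} {s : Finset (Fin 13)} (h : ∀ a ∈ s, σ a = a) :
    mapS σ s = s := by
  unfold mapS
  refine (map_eq_image _ _).trans ?_
  conv_rhs => rw [← image_id (s := s)]
  exact image_congr fun a ha => h a ha

theorem mapF_eq_self {σ : Equiv.Perm (Fin 13)} {F : Finset (Finset (Fin 13))}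
    (h : ∀ s ∈ F, ∀ a ∈ s, σ a = a) : mapF σ F = F := by
  unfold mapF
  conv_rhs => rw [← image_id (s := F)]
  exact image_congr fun s hs => mapS_eq_self (h s hs)

theorem mapF_filter (σ : Equiv.Perm (Fin 13)) (F : Finset (Finset (Fin 13)))
    (p : Finset (Fin 13) → Prop) (p' : Finset (Fin 13) → Prop) [DecidablePred p]
    [DecidablePred p'] (h : ∀ s, p' (mapS σ s) ↔ p s) :
    mapF σ (F.filter p) = (mapF σ F).filter p' := by
  ext s
  rw [mem_mapF', mem_filter, mem_filter, mem_mapF']
  have := h (mapS σ.symm s)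
  rw [mapS_mapS_symm] at this
  tauto

/-- the cone over a family -/
def cone (p : Fin 13) (E : Finset (Finset (Fin 13))) : Finset (Finset (Fin 13)) :=
  E.image (fun s => insert p s)

theorem mem_cone {p : Fin 13} {E : Finset (Finset (Fin 13))} (hE : ∀ s ∈ E, p ∉ s)
    {b : Finset (Fin 13)} : b ∈ cone p E ↔ p ∈ b ∧ b.erase p ∈ E := by
  unfold cone
  rw [mem_image]
  constructor
  · rintro ⟨s, hs, rfl⟩
    exact ⟨mem_insert_self p s, by rwa [erase_insert (hE s hs)]⟩
  · rintro ⟨h1, h2⟩
    exact ⟨b.erase p, h2, insert_erase h1⟩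

theorem mapF_cone (σ : Equiv.Perm (Fin 13)) (p : Fin 13) (E : Finset (Finset (Fin 13))) :
    mapF σ (cone p E) = cone (σ p) (mapF σ E) := by
  unfold mapF cone
  rw [image_image, image_image]
  refine image_congr fun s _ => ?_
  simp only [Function.comp]
  exact mapS_insert σ p s

/-- the blocks through `y` avoiding `x` are the cone over the part of the link avoiding `x` -/
theorem filter_eq_cone (B : Finset (Finset (Fin 13))) {x y : Fin 13} (hxy : x ≠ y) :
    B.filter (fun b => y ∈ b ∧ x ∉ b) = cone y ((link B y).filter (fun s => x ∉ s)) := by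
  ext b
  rw [mem_cone (p := y) (fun s hs => (mem_link.1 (mem_filter.1 hs).1).1), mem_filter, mem_filter,
    mem_link]
  constructor
  · rintro ⟨h1, h2, h3⟩
    refine ⟨h2, ⟨notMem_erase y b, by rwa [insert_erase h2]⟩, ?_⟩
    exact fun h4 => h3 (mem_of_mem_erase h4)
  · rintro ⟨h1, ⟨h2, h3⟩, h4⟩
    rw [insert_erase h1] at h3
    exact ⟨h3, h1, fun h5 => h4 (mem_erase.2 ⟨hxy, h5⟩)⟩

/-- code of a cone over the last point -/
theorem enc_cone (n : Fin 13) (k : ℕ) {E : Finset (Finset (Fin 13))}
    (hE : ∀ s ∈ E, n ∉ s) :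
    enc (n.val + 1) (k + 1) (cone n E) = enc n.val k E <<< n.val.choose (k + 1) := by
  rw [enc_split n k (cone n E)]
  have h1 : link (cone n E) n = E := by
    ext s
    rw [mem_link, mem_cone hE]
    constructor
    · rintro ⟨h1, -, h2⟩
      rwa [erase_insert h1] at h2
    · intro h
      exact ⟨hE s h, mem_insert_self n s, by rwa [erase_insert (hE s h)]⟩
  have h2 : enc n.val (k + 1) (cone n E) = 0 := by
    refine Nat.eq_of_testBit_eq fun i => ?_
    rw [Nat.zero_testBit]
    by_cases h : i < (L n.val (k + 1)).length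
    · rw [testBit_enc _ h, decide_eq_false_iff_not, mem_cone hE]
      rintro ⟨h3, -⟩
      exact notMem_ofMask n (lt_of_mem_L (List.getElem_mem h)) h3
    · exact testBit_enc_ge _ (by omega)
  rw [h1, h2, Nat.shiftLeft_eq, Nat.zero_add, Nat.mul_comm]

/-- the family form: `fam` of a shifted code is a cone -/
theorem fam_shift_cone (n : Fin 13) (k e : ℕ) (he : e < 2 ^ n.val.choose k) :
    fam (n.val + 1) (k + 1) (e <<< n.val.choose (k + 1)) = cone n (fam n.val k e) := by
  have hn : n.val ≤ 13 := by omega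
  have hE : ∀ s ∈ fam n.val k e, n ∉ s := by
    intro s hs h1
    have h2 := (sub_of_mem_fam hn hs).1
    rw [mk_lt_iff] at h2
    exact absurd (h2 n h1) (lt_irrefl _)
  have h3 := enc_cone n k hE
  rw [enc_fam hn he] at h3
  rw [← h3, fam_enc (by omega)]
  intro s hs
  unfold cone at hs
  rw [mem_image] at hs
  obtain ⟨r, hr, rfl⟩ := hs
  have h4 := sub_of_mem_fam hn hr
  refine ⟨?_, ?_⟩
  · rw [mk_lt_iff]
    intro a ha
    rw [mem_insert] at ha
    rcases ha with rfl | ha
    · omega
    · have := mk_lt_iff.1 h4.1 a ha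
      omega
  · rw [card_insert_of_notMem (hE r hr), h4.2]

/-- properties of links invariant under relabelling -/
def Inv (P : Finset (Finset (Fin 13)) → Prop) : Prop :=
  ∀ (σ : Equiv.Perm (Fin 13)) (D : Finset (Finset (Fin 13))), P D → P (mapF σ D)

/-- completeness of a table: every odd `(12,4,3)`-cover on `{0, .., 11}` with at most
`57 + cap / 2` blocks and with property `P` whose link at `11` is `fam 11 3 T` has its part
avoiding `11` in `S` -/
def TableOK (T cap : ℕ) (P : Finset (Finset (Fin 13)) → Prop)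
    (S : Set (Finset (Finset (Fin 13)))) : Prop :=
  ∀ D : Finset (Finset (Fin 13)), OddFam 3 (below 12) D → link D 11 = fam 11 3 T →
    2 * D.card ≤ 114 + cap → P D → D.filter (fun s => (11 : Fin 13) ∉ s) ∈ S

/-- completeness of a list of representatives (codes on `{0, .., 11}`) -/
def RootOK (cap : ℕ) (P : Finset (Finset (Fin 13)) → Prop) (reps : List ℕ) : Prop :=
  ∀ D : Finset (Finset (Fin 13)), OddFam 3 (below 12) D → 2 * D.card ≤ 114 + cap → P D →
    ∃ σ : Equiv.Perm (Fin 13), σ 12 = 12 ∧ ∃ r ∈ reps, mapF σ D = fam 12 4 r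

theorem below_twelve : below 12 = univ.erase 12 := by decide

/-- the root can be moved to `12` and its link to a representative -/
theorem root_wlog {B : Finset (Finset (Fin 13))} (hB : OddCover B) {x : Fin 13} {cap : ℕ}
    {P : Finset (Finset (Fin 13)) → Prop} (hP : Inv P) {reps : List ℕ}
    (hR : RootOK cap P reps) (hM : MM B x ≤ cap) (hPx : P (link B x)) :
    ∃ σ : Equiv.Perm (Fin 13), σ x = 12 ∧ ∃ r ∈ reps, link (mapF σ B) 12 = fam 12 4 r := by
  obtain ⟨τ, hτ⟩ := exists_perm_one x 12
  have hlink : link (mapF τ B) 12 = mapF τ (link B x) := by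
    rw [← hτ, link_mapF]
  have h1 : OddFam 3 (below 12) (link (mapF τ B) 12) := by
    rw [below_twelve]
    exact oddFam_link (oddCover_mapF hB τ) 12
  have h2 : 2 * (link (mapF τ B) 12).card ≤ 114 + cap := by
    rw [hlink, card_mapF, two_mul_card_link hB x]
    omega
  obtain ⟨σ, hσ, r, hr, hσr⟩ := hR _ h1 h2 (by rw [hlink]; exact hP τ _ hPx)
  refine ⟨σ * τ, ?_, r, hr, ?_⟩
  · rw [Equiv.Perm.mul_apply, hτ, hσ]
  · rw [mapF_mul, ← hσr]
    conv_lhs => rw [← hσ]
    exact link_mapF σ _ _

/-- the linkage with the property of the transported link as a hypothesis -/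
theorem linkage_core {B : Finset (Finset (Fin 13))} (hB : OddCover B) {y : Fin 13} {T cap : ℕ}
    {P : Finset (Finset (Fin 13)) → Prop} {S : Set (Finset (Finset (Fin 13)))}
    (hT : TableOK T cap P S) {σ : Equiv.Perm (Fin 13)} (h12 : σ 12 = 12) (hy : σ y = 11)
    (hσT : mapF σ (link (link B 12) y) = fam 11 3 T) (hM : MM B y ≤ cap)
    (hPy : P (mapF (Equiv.swap 11 12) (mapF σ (link B y)))) :
    ∃ E ∈ S, B.filter (fun b => y ∈ b ∧ (12 : Fin 13) ∉ b) = mapF σ.symm (cone 11 E) := by
  have hBσ := oddCover_mapF hB σ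
  set B' := mapF σ B with hB'
  set τ : Equiv.Perm (Fin 13) := Equiv.swap 11 12 with hτ
  have hl11 : link B' 11 = mapF σ (link B y) := by
    rw [hB', ← hy, link_mapF]
  have hl12 : link B' 12 = mapF σ (link B 12) := by
    conv_lhs => rw [hB', ← h12]
    exact link_mapF σ B 12
  have hll : link (link B' 12) 11 = fam 11 3 T := by
    rw [hl12, ← hσT, ← hy, link_mapF]
  have hfix : ∀ a : Fin 13, a ≠ 11 → a ≠ 12 → τ a = a := fun a h1 h2 =>
    Equiv.swap_apply_of_ne_of_ne h1 h2
  have hτ11 : τ 11 = 12 := Equiv.swap_apply_left _ _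
  have hτ12 : τ 12 = 11 := Equiv.swap_apply_right _ _
  have hodd : OddFam 3 (below 12) (mapF τ (link B' 11)) := by
    have h1 := (oddFam_link hBσ 11).map τ
    have h2 : mapS τ (univ.erase 11) = below 12 := by
      ext a
      rw [mem_mapS', mem_erase, mem_below]
      have hs : τ.symm = τ := Equiv.symm_swap _ _
      rw [hs]
      constructor
      · rintro ⟨h3, -⟩
        by_contra h4
        have h5 : a = 12 := by
          apply Fin.ext
          have : (12 : Fin 13).val = 12 := rfl
          omega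
        exact h3 (by rw [h5, hτ12])
      · intro h3
        refine ⟨fun h4 => ?_, mem_univ _⟩
        have h5 : a = 12 := by
          have h6 : τ (τ a) = a := by
            rw [hτ]
            exact congrFun (congrArg DFunLike.coe (Equiv.swap_mul_self (11 : Fin 13) 12)) a
          rw [← h6, h4, hτ11]
        rw [h5] at h3
        exact absurd h3 (by decide)
    rw [h2] at h1
    exact h1
  have hlinkD : link (mapF τ (link B' 11)) 11 = fam 11 3 T := by
    have h1 : link (mapF τ (link B' 11)) (τ 12) = mapF τ (link (link B' 11) 12) :=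
      link_mapF τ _ _
    rw [hτ12, link_comm B' 11 12, hll] at h1
    rw [h1]
    refine mapF_eq_self fun s hs a ha => ?_
    have h2 := mk_lt_iff.1 (sub_of_mem_fam (by norm_num) hs).1 a ha
    refine hfix a ?_ ?_
    · rintro rfl
      exact absurd h2 (by decide)
    · rintro rfl
      exact absurd h2 (by decide)
  have hcard : 2 * (mapF τ (link B' 11)).card ≤ 114 + cap := by
    rw [card_mapF, hl11, card_mapF, two_mul_card_link hB y]
    omega
  have hPD : P (mapF τ (link B' 11)) := by
    rw [hl11]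
    exact hPy
  have hE := hT _ hodd hlinkD hcard hPD
  have hEeq : (mapF τ (link B' 11)).filter (fun s => (11 : Fin 13) ∉ s) =
      (link B' 11).filter (fun s => (12 : Fin 13) ∉ s) := by
    rw [← mapF_filter τ (link B' 11) (fun s => (12 : Fin 13) ∉ s) (fun s => (11 : Fin 13) ∉ s)]
    · refine mapF_eq_self fun s hs a ha => ?_
      rw [mem_filter, mem_link] at hs
      refine hfix a ?_ ?_
      · rintro rfl
        exact hs.1.1 ha
      · rintro rfl
        exact hs.2 ha
    · intro s
      have h1 : (11 : Fin 13) ∈ mapS τ s ↔ (12 : Fin 13) ∈ s := by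
        rw [mem_mapS']
        have hs : τ.symm = τ := Equiv.symm_swap _ _
        rw [hs, hτ11]
      rw [h1]
  rw [hEeq] at hE
  refine ⟨_, hE, ?_⟩
  have h1 := filter_eq_cone B' (show (12 : Fin 13) ≠ 11 by decide)
  rw [← h1]
  have h2 : B'.filter (fun b => (11 : Fin 13) ∈ b ∧ (12 : Fin 13) ∉ b) =
      mapF σ (B.filter (fun b => y ∈ b ∧ (12 : Fin 13) ∉ b)) := by
    rw [hB']
    refine (mapF_filter σ B (fun b => y ∈ b ∧ (12 : Fin 13) ∉ b)
      (fun b => (11 : Fin 13) ∈ b ∧ (12 : Fin 13) ∉ b) fun s => ?_).symm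
    rw [← hy, mem_mapS]
    have h3 : (12 : Fin 13) ∈ mapS σ s ↔ (12 : Fin 13) ∈ s := by
      rw [mem_mapS']
      have h4 : σ.symm 12 = 12 := by
        rw [Equiv.symm_apply_eq, h12]
      rw [h4]
    rw [h3]
  rw [h2, mapF_symm_mapF]

/-- LINKAGE: the blocks through `y` avoiding the root `12` come from the table of the pair link -/
theorem linkage {B : Finset (Finset (Fin 13))} (hB : OddCover B) {y : Fin 13} {T cap : ℕ}
    {P : Finset (Finset (Fin 13)) → Prop} (hP : Inv P) {S : Set (Finset (Finset (Fin 13)))}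
    (hT : TableOK T cap P S) {σ : Equiv.Perm (Fin 13)} (h12 : σ 12 = 12) (hy : σ y = 11)
    (hσT : mapF σ (link (link B 12) y) = fam 11 3 T) (hM : MM B y ≤ cap)
    (hPy : P (link B y)) :
    ∃ E ∈ S, B.filter (fun b => y ∈ b ∧ (12 : Fin 13) ∉ b) = mapF σ.symm (cone 11 E) :=
  linkage_core hB hT h12 hy hσT hM (hP _ _ (hP _ _ hPy))

/-- properties of a family and a point, invariant under relabelling -/
def InvA (P : Finset (Finset (Fin 13)) → Fin 13 → Prop) : Prop :=
  ∀ (σ : Equiv.Perm (Fin 13)) (D : Finset (Finset (Fin 13))) (a : Fin 13),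
    P D a → P (mapF σ D) (σ a)

/-- LINKAGE with a property relative to the apex: `P (link of y) (the centre)` -/
theorem linkage_apex {B : Finset (Finset (Fin 13))} (hB : OddCover B) {y : Fin 13} {T cap : ℕ}
    {P : Finset (Finset (Fin 13)) → Fin 13 → Prop} (hP : InvA P)
    {S : Set (Finset (Finset (Fin 13)))} (hT : TableOK T cap (fun D => P D 11) S)
    {σ : Equiv.Perm (Fin 13)} (h12 : σ 12 = 12) (hy : σ y = 11)
    (hσT : mapF σ (link (link B 12) y) = fam 11 3 T) (hM : MM B y ≤ cap)
    (hPy : P (link B y) 12) :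
    ∃ E ∈ S, B.filter (fun b => y ∈ b ∧ (12 : Fin 13) ∉ b) = mapF σ.symm (cone 11 E) := by
  refine linkage_core hB hT h12 hy hσT hM ?_
  have h1 := hP (Equiv.swap 11 12) _ _ (hP σ _ _ hPy)
  rwa [h12, Equiv.swap_apply_right] at h1

end Pool.Agent.Helper79.CV
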