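import Mathlib
import Pool.Agent.Helper79.CV.Linkage

/-!
MP_8ee768_co, project TH-Y': the generic star driver.

A stage of the star type says that there is no cover `B` with distinct points `x, y, z` and
`Q B x y z`, where `Q` is invariant under relabelling. The centre `x` is moved to `12` with its
link a representative; the lanes of the two other points are the blocks through them avoiding
`12`. Engines have to prove that no two candidate lanes which agree on the common blocks are the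
lanes of a cover with `Q`.
-/

set_option autoImplicit false

namespace Pool.Agent.Helper79.CV

open Finset
open Pool.Agent.Helper89.CV (OddCover ofMask)
open Pool.Agent.Helper97.CV
open Pool.Agent.Helper82.TY (below sub_iff_below)

/-- the lane of `p`: the blocks through `p` avoiding the root `12` -/
def lane (B : Finset (Finset (Fin 13))) (p : Fin 13) : Finset (Finset (Fin 13)) :=
  B.filter (fun b => p ∈ b ∧ (12 : Fin 13) ∉ b)

theorem mem_lane {B : Finset (Finset (Fin 13))} {p : Fin 13} {b : Finset (Fin 13)} :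
    b ∈ lane B p ↔ b ∈ B ∧ p ∈ b ∧ (12 : Fin 13) ∉ b := by
  unfold lane
  rw [mem_filter]

/-- two candidate lanes agree on the common blocks -/
def Agree (p q : Fin 13) (u v : Finset (Finset (Fin 13))) : Prop :=
  u.filter (fun b => q ∈ b) = v.filter (fun b => p ∈ b)

theorem agree_lane (B : Finset (Finset (Fin 13))) (p q : Fin 13) :
    Agree p q (lane B p) (lane B q) := by
  unfold Agree
  ext b
  rw [mem_filter, mem_filter, mem_lane, mem_lane]
  tauto

/-- relabelling invariant statements about a cover and three points -/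
def Inv₃ (Q : Finset (Finset (Fin 13)) → Fin 13 → Fin 13 → Fin 13 → Prop) : Prop :=
  ∀ (σ : Equiv.Perm (Fin 13)) (B : Finset (Finset (Fin 13))) (x y z : Fin 13),
    Q B x y z → Q (mapF σ B) (σ x) (σ y) (σ z)

/-- two lanes cannot be the lanes of a cover with `Q` and root link `fam 12 4 r` -/
def Dead (Q : Finset (Finset (Fin 13)) → Fin 13 → Fin 13 → Fin 13 → Prop) (r : ℕ)
    (p q : Fin 13) (u v : Finset (Finset (Fin 13))) : Prop :=
  ∀ B : Finset (Finset (Fin 13)), Q B 12 p q → link B 12 = fam 12 4 r → lane B p = u →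
    lane B q = v → False

/-- THE STAR DRIVER -/
theorem star_driver {cap : ℕ} {P : Finset (Finset (Fin 13)) → Prop} (hP : Inv P)
    {reps : List ℕ} (hR : RootOK cap P reps)
    {Q : Finset (Finset (Fin 13)) → Fin 13 → Fin 13 → Fin 13 → Prop} (hQ : Inv₃ Q)
    (hQB : ∀ B x y z, Q B x y z → OddCover B ∧ x ≠ y ∧ x ≠ z ∧ y ≠ z ∧ MM B x ≤ cap ∧
      P (link B x))
    {CY CZ : ℕ → Fin 13 → Set (Finset (Finset (Fin 13)))}
    (hY : ∀ B r p q, r ∈ reps → Q B 12 p q → link B 12 = fam 12 4 r → lane B p ∈ CY r p)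
    (hZ : ∀ B r p q, r ∈ reps → Q B 12 p q → link B 12 = fam 12 4 r → lane B q ∈ CZ r q)
    (hkill : ∀ r ∈ reps, ∀ p q : Fin 13, p ≠ 12 → q ≠ 12 → p ≠ q → ∀ u ∈ CY r p,
      ∀ v ∈ CZ r q, Agree p q u v → Dead Q r p q u v)
    {B : Finset (Finset (Fin 13))} {x y z : Fin 13} (h : Q B x y z) : False := by
  obtain ⟨hB, hxy, hxz, hyz, hM, hPx⟩ := hQB B x y z h
  obtain ⟨σ, hσ, r, hr, hlink⟩ := root_wlog hB hP hR hM hPx
  have h1 := hQ σ B x y z h
  rw [hσ] at h1
  have hp : σ y ≠ 12 := by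
    rw [← hσ]
    exact σ.injective.ne hxy.symm
  have hq : σ z ≠ 12 := by
    rw [← hσ]
    exact σ.injective.ne hxz.symm
  exact hkill r hr (σ y) (σ z) hp hq (σ.injective.ne hyz) _ (hY _ r _ _ hr h1 hlink) _
    (hZ _ r _ _ hr h1 hlink) (agree_lane _ _ _) _ h1 hlink rfl rfl

/-- the symmetric star driver: only position pairs `p < q` -/
theorem star_driver_symm {cap : ℕ} {P : Finset (Finset (Fin 13)) → Prop} (hP : Inv P)
    {reps : List ℕ} (hR : RootOK cap P reps)
    {Q : Finset (Finset (Fin 13)) → Fin 13 → Fin 13 → Fin 13 → Prop} (hQ : Inv₃ Q)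
    (hQs : ∀ B x y z, Q B x y z → Q B x z y)
    (hQB : ∀ B x y z, Q B x y z → OddCover B ∧ x ≠ y ∧ x ≠ z ∧ y ≠ z ∧ MM B x ≤ cap ∧
      P (link B x))
    {C : ℕ → Fin 13 → Set (Finset (Finset (Fin 13)))}
    (hC : ∀ B r p q, r ∈ reps → Q B 12 p q → link B 12 = fam 12 4 r → lane B p ∈ C r p)
    (hkill : ∀ r ∈ reps, ∀ p q : Fin 13, p < q → q < 12 → ∀ u ∈ C r p,
      ∀ v ∈ C r q, Agree p q u v → Dead Q r p q u v)
    {B : Finset (Finset (Fin 13))} {x y z : Fin 13} (h : Q B x y z) : False := by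
  obtain ⟨hB, hxy, hxz, hyz, hM, hPx⟩ := hQB B x y z h
  obtain ⟨σ, hσ, r, hr, hlink⟩ := root_wlog hB hP hR hM hPx
  have h1 := hQ σ B x y z h
  rw [hσ] at h1
  have hp : σ y ≠ 12 := by
    rw [← hσ]
    exact σ.injective.ne hxy.symm
  have hq : σ z ≠ 12 := by
    rw [← hσ]
    exact σ.injective.ne hxz.symm
  have hlt : ∀ a : Fin 13, a ≠ 12 → a < 12 := by decide
  rcases lt_trichotomy (σ y) (σ z) with h2 | h2 | h2
  · exact hkill r hr (σ y) (σ z) h2 (hlt _ hq) _ (hC _ r _ _ hr h1 hlink) _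
      (hC _ r _ _ hr (hQs _ _ _ _ h1) hlink) (agree_lane _ _ _) _ h1 hlink rfl rfl
  · exact (σ.injective.ne hyz) h2
  · exact hkill r hr (σ z) (σ y) h2 (hlt _ hp) _ (hC _ r _ _ hr (hQs _ _ _ _ h1) hlink) _
      (hC _ r _ _ hr h1 hlink) (agree_lane _ _ _) _ (hQs _ _ _ _ h1) hlink rfl rfl

/-- candidates of a position from a table and a certified permutation -/
theorem lane_mem_of_table {B : Finset (Finset (Fin 13))} (hB : OddCover B) {r : ℕ}
    (hr : link B 12 = fam 12 4 r) {y : Fin 13} {T cap : ℕ}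
    {P : Finset (Finset (Fin 13)) → Prop} (hP : Inv P) {S : Set (Finset (Finset (Fin 13)))}
    (hT : TableOK T cap P S) {σ : Equiv.Perm (Fin 13)} (h12 : σ 12 = 12) (hy : σ y = 11)
    (hσT : mapF σ (link (fam 12 4 r) y) = fam 11 3 T) (hM : MM B y ≤ cap)
    (hPy : P (link B y)) :
    lane B y ∈ {u | ∃ E ∈ S, u = mapF σ.symm (cone 11 E)} := by
  rw [← hr] at hσT
  obtain ⟨E, hE, h⟩ := linkage hB hP hT h12 hy hσT hM hPy
  exact ⟨E, hE, h⟩

/-- the blocks of `B` meeting `{12, p, q}` from the root code and the lanes -/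
theorem mem_of_mem_root {B : Finset (Finset (Fin 13))} {r : ℕ} (hr : link B 12 = fam 12 4 r)
    {b : Finset (Fin 13)} (hb : (12 : Fin 13) ∈ b) : b ∈ B ↔ b.erase 12 ∈ fam 12 4 r := by
  rw [← hr]
  exact mem_iff_erase_mem_link hb

theorem mem_of_mem_lane {B : Finset (Finset (Fin 13))} {p : Fin 13}
    {b : Finset (Fin 13)} (hb : (12 : Fin 13) ∉ b) (hp : p ∈ b) : b ∈ B ↔ b ∈ lane B p := by
  rw [mem_lane]
  tauto

/-- size of a lane: `2 |lane| + 2 (19 + 2 mm) = 114 + MM` -/
theorem two_mul_card_lane {B : Finset (Finset (Fin 13))} (hB : OddCover B) {p : Fin 13}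
    (hp : p ≠ 12) : 2 * (lane B p).card + 2 * (19 + 2 * mm B 12 p) = 114 + MM B p := by
  have h1 := two_cnt_point hB p
  have h2 := cnt_pair hB (show (12 : Fin 13) ≠ p from fun h => hp h.symm)
  have h3 : cnt B {p} = (lane B p).card + cnt B {12, p} := by
    unfold cnt lane
    rw [← card_filter_add_card_filter_not (s := B.filter (fun b => {p} ⊆ b))
      (fun b => (12 : Fin 13) ∉ b)]
    congr 1
    · congr 1
      ext b
      simp only [mem_filter, singleton_subset_iff]
      tauto
    · congr 1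
      ext b
      simp only [mem_filter, singleton_subset_iff, insert_subset_iff, not_not]
      tauto
  omega

end Pool.Agent.Helper79.CV
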