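import Mathlib
import Pool.Agent.Helper79.CV.Star
import Pool.Agent.Helper4.CV.Stages

/-!
MP_8ee768_co, project TH-Y': the driver of stage F (three small points), Finset level.

`reps` is the list of the representatives (codes on `{0, .., 11}`) of the classes of the odd
`(12,4,3)`-covers with at most 59 blocks, sorted by size. The centre `x` is the small point whose
class has the smallest index; `y`, `z` are the two smallest of the other points.
-/

set_option autoImplicit false

namespace Pool.Agent.Helper79.CV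

open Finset
open Pool.Agent.Helper89.CV (OddCover ofMask)
open Pool.Agent.Helper97.CV
open Pool.Agent.Helper4.CV (Mat NoS StF Ind)
open Pool.Agent.Helper82.TY (below sub_iff_below Best)

/-- `D` is isomorphic to the representative number `j` -/
def Cls (reps : List ℕ) (j : ℕ) (D : Finset (Finset (Fin 13))) : Prop :=
  ∃ r, reps[j]? = some r ∧ ∃ σ : Equiv.Perm (Fin 13), mapF σ D = fam 12 4 r

theorem cls_mapF {reps : List ℕ} {j : ℕ} {D : Finset (Finset (Fin 13))}
    (τ : Equiv.Perm (Fin 13)) : Cls reps j (mapF τ D) ↔ Cls reps j D := by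
  constructor
  · rintro ⟨r, hr, σ, h⟩
    exact ⟨r, hr, σ * τ, by rw [mapF_mul, h]⟩
  · rintro ⟨r, hr, σ, h⟩
    exact ⟨r, hr, σ * τ.symm, by rw [mapF_mul, mapF_symm_mapF, h]⟩

/-- completeness of the list of classes -/
def ClsOK (cap : ℕ) (reps : List ℕ) : Prop :=
  ∀ D : Finset (Finset (Fin 13)), OddFam 3 (below 12) D → 2 * D.card ≤ 114 + cap →
    ∃ j, Cls reps j D

theorem cls_link {B : Finset (Finset (Fin 13))} (hB : OddCover B) {x : Fin 13} {cap : ℕ}
    {reps : List ℕ} (h : ClsOK cap reps) (hM : MM B x ≤ cap) : ∃ j, Cls reps j (link B x) := by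
  obtain ⟨τ, hτ⟩ := exists_perm_one x 12
  have hlink : link (mapF τ B) 12 = mapF τ (link B x) := by
    rw [← hτ, link_mapF]
  have h1 : OddFam 3 (below 12) (link (mapF τ B) 12) := by
    rw [below_twelve]
    exact oddFam_link (oddCover_mapF hB τ) 12
  have h2 : 2 * (link (mapF τ B) 12).card ≤ 114 + cap := by
    rw [hlink, card_mapF, two_mul_card_link hB x]
    omega
  obtain ⟨j, hj⟩ := h _ h1 h2
  rw [hlink, cls_mapF] at hj
  exact ⟨j, hj⟩

/-- a permutation taking a link to a family on `{0, .., 11}` takes the point to `12` -/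
theorem perm_root {B : Finset (Finset (Fin 13))} (hB : OddCover B) {x : Fin 13}
    {σ : Equiv.Perm (Fin 13)} {r : ℕ} (h : mapF σ (link B x) = fam 12 4 r) : σ x = 12 := by
  by_contra hne
  set c := σ.symm 12 with hc
  have hcx : c ≠ x := by
    intro h1
    rw [← h1, hc, Equiv.apply_symm_apply] at hne
    exact hne rfl
  -- a quad of the link through `c`
  have h2 := cnt_pair hB (show x ≠ c from fun h3 => hcx h3.symm)
  have h3 : 0 < cnt B {x, c} := by omega
  unfold cnt at h3
  rw [card_pos] at h3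
  obtain ⟨b, hb⟩ := h3
  rw [mem_filter, insert_subset_iff, singleton_subset_iff] at hb
  have h4 : b.erase x ∈ link B x := by
    rw [mem_link]
    exact ⟨notMem_erase x b, by rw [insert_erase hb.2.1]; exact hb.1⟩
  have h5 : mapS σ (b.erase x) ∈ fam 12 4 r := by
    rw [← h]
    exact mem_mapF.2 h4
  have h6 := mk_lt_iff.1 (sub_of_mem_fam (by norm_num) h5).1 12 (by
    rw [mem_mapS']
    exact mem_erase.2 ⟨hcx, hb.2.2⟩)
  exact absurd h6 (by decide)

theorem best_mapF {B : Finset (Finset (Fin 13))} (h : Best B) (σ : Equiv.Perm (Fin 13)) :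
    Best (mapF σ B) := Pool.Agent.Helper82.TY.Best.map h σ

theorem mat_mapF {B : Finset (Finset (Fin 13))} (hB : OddCover B) (h : Mat B)
    (σ : Equiv.Perm (Fin 13)) : Mat (mapF σ B) := by
  have hM : ∀ u, MM (mapF σ B) u = MM B (σ.symm u) := fun u => by
    conv_lhs => rw [← Equiv.apply_symm_apply σ u]
    exact MM_mapF hB σ _
  have hm : ∀ u v, u ≠ v → mm (mapF σ B) u v = mm B (σ.symm u) (σ.symm v) := fun u v huv => by
    conv_lhs => rw [← Equiv.apply_symm_apply σ u, ← Equiv.apply_symm_apply σ v]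
    exact mm_mapF hB σ (σ.symm.injective.ne huv)
  constructor
  · intro x y hxy hx hy
    rw [hM] at hx hy
    rw [hm x y hxy]
    exact h.two _ _ (σ.symm.injective.ne hxy) hx hy
  · intro x y z hxy hxz hyz hx hy hz h1
    rw [hM] at hx hy hz
    rw [hm x y hxy] at h1
    rw [hm x z hxz]
    exact h.path _ _ _ (σ.symm.injective.ne hxy) (σ.symm.injective.ne hxz)
      (σ.symm.injective.ne hyz) hx hy hz h1

theorem nos_mapF {B : Finset (Finset (Fin 13))} (hB : OddCover B) (h : NoS B)
    (σ : Equiv.Perm (Fin 13)) : NoS (mapF σ B) := by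
  have hM : ∀ u, MM (mapF σ B) u = MM B (σ.symm u) := fun u => by
    conv_lhs => rw [← Equiv.apply_symm_apply σ u]
    exact MM_mapF hB σ _
  intro x y hxy hx hy
  rw [hM] at hx hy
  conv_lhs => rw [← Equiv.apply_symm_apply σ x, ← Equiv.apply_symm_apply σ y]
  rw [mm_mapF hB σ (σ.symm.injective.ne hxy)]
  exact h _ _ (σ.symm.injective.ne hxy) hx hy

/-- the configuration of stage F with centre `x` of class `j` -/
structure QF (reps : List ℕ) (j : ℕ) (B : Finset (Finset (Fin 13))) (x y z : Fin 13) : Prop where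
  best : Best B
  mat : Mat B
  nos : NoS B
  xy : x ≠ y
  xz : x ≠ z
  yz : y ≠ z
  hx : MM B x ≤ 4
  hy : MM B y ≤ 4
  hz : MM B z ≤ 4
  cls : Cls reps j (link B x)
  low : ∀ w, MM B w ≤ 4 → ∀ i < j, ¬ Cls reps i (link B w)
  oy : ∀ w, w ≠ x → w ≠ y → w ≠ z → MM B y ≤ MM B w
  oz : ∀ w, w ≠ x → w ≠ y → w ≠ z → MM B z ≤ MM B w

theorem QF.symm {reps : List ℕ} {j : ℕ} {B : Finset (Finset (Fin 13))} {x y z : Fin 13}
    (h : QF reps j B x y z) : QF reps j B x z y :=
  ⟨h.best, h.mat, h.nos, h.xz, h.xy, h.yz.symm, h.hx, h.hz, h.hy, h.cls, h.low,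
    fun w h1 h2 h3 => h.oz w h1 h3 h2, fun w h1 h2 h3 => h.oy w h1 h3 h2⟩

theorem QF.map {reps : List ℕ} {j : ℕ} {B : Finset (Finset (Fin 13))} {x y z : Fin 13}
    (h : QF reps j B x y z) (σ : Equiv.Perm (Fin 13)) :
    QF reps j (mapF σ B) (σ x) (σ y) (σ z) := by
  have hB := h.best.odd
  have hM : ∀ u, MM (mapF σ B) u = MM B (σ.symm u) := fun u => by
    conv_lhs => rw [← Equiv.apply_symm_apply σ u]
    exact MM_mapF hB σ _
  have hne : ∀ {w u : Fin 13}, w ≠ σ u → σ.symm w ≠ u := by
    intro w u h1 h2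
    exact h1 (by rw [← h2, Equiv.apply_symm_apply])
  refine ⟨best_mapF h.best σ, mat_mapF hB h.mat σ, nos_mapF hB h.nos σ, σ.injective.ne h.xy,
    σ.injective.ne h.xz, σ.injective.ne h.yz, ?_, ?_, ?_, ?_, ?_, ?_, ?_⟩
  · rw [MM_mapF hB]
    exact h.hx
  · rw [MM_mapF hB]
    exact h.hy
  · rw [MM_mapF hB]
    exact h.hz
  · rw [link_mapF, cls_mapF]
    exact h.cls
  · intro w hw i hi
    rw [hM] at hw
    rw [link_mapF', cls_mapF]
    exact h.low _ hw i hi
  · intro w h1 h2 h3
    rw [MM_mapF hB, hM]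
    exact h.oy _ (hne h1) (hne h2) (hne h3)
  · intro w h1 h2 h3
    rw [MM_mapF hB, hM]
    exact h.oz _ (hne h1) (hne h2) (hne h3)

theorem QF.mm_xy {reps : List ℕ} {j : ℕ} {B : Finset (Finset (Fin 13))} {x y z : Fin 13}
    (h : QF reps j B x y z) : mm B x y = 0 :=
  h.nos x y h.xy h.hx (h.hy.trans (by norm_num))

theorem QF.mm_xz {reps : List ℕ} {j : ℕ} {B : Finset (Finset (Fin 13))} {x y z : Fin 13}
    (h : QF reps j B x y z) : mm B x z = 0 :=
  h.nos x z h.xz h.hx (h.hz.trans (by norm_num))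

theorem QF.mm_yz {reps : List ℕ} {j : ℕ} {B : Finset (Finset (Fin 13))} {x y z : Fin 13}
    (h : QF reps j B x y z) : mm B y z = 0 :=
  h.nos y z h.yz h.hy (h.hz.trans (by norm_num))

/-- neighbours of the small points are heavy -/
theorem QF.heavy {reps : List ℕ} {j : ℕ} {B : Finset (Finset (Fin 13))} {x y z : Fin 13}
    (h : QF reps j B x y z) {u w : Fin 13} (hu : u = x ∨ u = y ∨ u = z) (huw : u ≠ w)
    (hm : 1 ≤ mm B u w) : 8 ≤ MM B w := by
  have hMu : MM B u ≤ 4 := by
    rcases hu with rfl | rfl | rfl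
    · exact h.hx
    · exact h.hy
    · exact h.hz
  by_contra hlt
  obtain ⟨t, ht⟩ := MM_even h.best.odd w
  have := h.nos u w huw hMu (by omega)
  omega

/-- stage F from the classes and the dead configurations of every class -/
theorem stF_of {reps : List ℕ} (hcls : ClsOK 4 reps)
    (hdead : ∀ j B x y z, QF reps j B x y z → False) : StF := by
  intro B hB hmat hnos h3
  classical
  have hBo := hB.odd
  set S := univ.filter (fun z => MM B z ≤ 4) with hS
  -- class index
  have hex : ∀ w ∈ S, ∃ j, Cls reps j (link B w) := fun w hw =>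
    cls_link hBo hcls (mem_filter.1 hw).2
  let f : Fin 13 → ℕ := fun w => if h : ∃ j, Cls reps j (link B w) then Nat.find h else 0
  have hfmem : ∀ w ∈ S, Cls reps (f w) (link B w) := by
    intro w hw
    have h1 := hex w hw
    simp only [f, dif_pos h1]
    exact Nat.find_spec h1
  have hfmin : ∀ w ∈ S, ∀ i < f w, ¬ Cls reps i (link B w) := by
    intro w hw i hi
    have h1 := hex w hw
    simp only [f, dif_pos h1] at hi
    exact Nat.find_min h1 hi
  obtain ⟨x, hxS, hxmin⟩ := exists_min_image S f (card_pos.1 (by omega))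
  -- the smallest of the other points
  obtain ⟨y, hy, hymin⟩ := exists_min_image (univ.erase x) (MM B)
    (card_pos.1 (by rw [card_erase_of_mem (mem_univ x), card_univ, Fintype.card_fin]; norm_num))
  have hyx := ne_of_mem_erase hy
  obtain ⟨z, hz, hzmin⟩ := exists_min_image ((univ.erase x).erase y) (MM B)
    (card_pos.1 (by
      rw [card_erase_of_mem hy, card_erase_of_mem (mem_univ x), card_univ, Fintype.card_fin]
      norm_num))
  have hzy := ne_of_mem_erase hz
  have hzx := ne_of_mem_erase (mem_of_mem_erase hz)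
  have hSx : 2 ≤ (S.erase x).card := by
    rw [card_erase_of_mem hxS]
    omega
  have hySmall : MM B y ≤ 4 := by
    obtain ⟨w, hw⟩ := card_pos.1 (show 0 < (S.erase x).card by omega)
    exact (hymin w (mem_erase.2 ⟨ne_of_mem_erase hw, mem_univ w⟩)).trans
      (mem_filter.1 (mem_of_mem_erase hw)).2
  have hzSmall : MM B z ≤ 4 := by
    have h1 : 1 ≤ ((S.erase x).erase y).card := by
      have := pred_card_le_card_erase (s := S.erase x) (a := y)
      omega
    obtain ⟨w, hw⟩ := card_pos.1 (show 0 < ((S.erase x).erase y).card by omega)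
    have hwx : w ≠ x := ne_of_mem_erase (mem_of_mem_erase hw)
    exact (hzmin w (mem_erase.2 ⟨ne_of_mem_erase hw, mem_erase.2 ⟨hwx, mem_univ w⟩⟩)).trans
      (mem_filter.1 (mem_of_mem_erase (mem_of_mem_erase hw))).2
  refine hdead (f x) B x y z ⟨hB, hmat, hnos, hyx.symm, hzx.symm, hzy.symm,
    (mem_filter.1 hxS).2, hySmall, hzSmall, hfmem x hxS, ?_, ?_, ?_⟩
  · intro w hw i hi
    have hwS : w ∈ S := mem_filter.2 ⟨mem_univ w, hw⟩
    exact hfmin w hwS i (lt_of_lt_of_le hi (hxmin w hwS))
  · intro w h1 _ _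
    exact hymin w (mem_erase.2 ⟨h1, mem_univ w⟩)
  · intro w h1 h2 _
    exact hzmin w (mem_erase.2 ⟨h2, mem_erase.2 ⟨h1, mem_univ w⟩⟩)

/-- one root: from the candidates of the positions and the dead pairs of lanes -/
theorem dead_root {reps : List ℕ} {j r : ℕ} (hr : reps[j]? = some r)
    {C : Fin 13 → Set (Finset (Finset (Fin 13)))}
    (hC : ∀ B p q, QF reps j B 12 p q → link B 12 = fam 12 4 r → lane B p ∈ C p)
    (hkill : ∀ p q : Fin 13, p < q → q < 12 → ∀ u ∈ C p, ∀ v ∈ C q, Agree p q u v →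
      Dead (QF reps j) r p q u v)
    {B : Finset (Finset (Fin 13))} {x y z : Fin 13} (h : QF reps j B x y z) : False := by
  obtain ⟨r', hr', σ, hσ⟩ := h.cls
  rw [hr] at hr'
  obtain rfl := Option.some_injective _ hr'
  have hx12 := perm_root h.best.odd hσ
  have h1 := h.map σ
  rw [hx12] at h1
  have hlink : link (mapF σ B) 12 = fam 12 4 r := by
    rw [← hσ, ← hx12, link_mapF]
  have hp : σ y ≠ 12 := h1.xy.symm
  have hq : σ z ≠ 12 := h1.xz.symm
  have hlt : ∀ a : Fin 13, a ≠ 12 → a < 12 := by decide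
  rcases lt_trichotomy (σ y) (σ z) with h2 | h2 | h2
  · exact hkill _ _ h2 (hlt _ hq) _ (hC _ _ _ h1 hlink) _ (hC _ _ _ h1.symm hlink)
      (agree_lane _ _ _) _ h1 hlink rfl rfl
  · exact h1.yz h2
  · exact hkill _ _ h2 (hlt _ hp) _ (hC _ _ _ h1.symm hlink) _ (hC _ _ _ h1 hlink)
      (agree_lane _ _ _) _ h1.symm hlink rfl rfl

/-- a class which is not reduced cannot be the centre: an explicit 5-set with three quads -/
theorem dead_of_nonreduced {reps : List ℕ} {j r : ℕ} (hr : reps[j]? = some r)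
    (hsize : ∀ i r', j ≤ i → reps[i]? = some r' → (fam 12 4 r).card ≤ (fam 12 4 r').card)
    (hcls : ClsOK 4 reps) {U : Finset (Fin 13)} (hU : U.card = 5) (hU12 : (12 : Fin 13) ∉ U)
    (h3 : 3 ≤ (fam 12 4 r ∩ U.powersetCard 4).card)
    {B : Finset (Finset (Fin 13))} {x y z : Fin 13} (h : QF reps j B x y z) : False := by
  obtain ⟨r', hr', σ, hσ⟩ := h.cls
  rw [hr] at hr'
  obtain rfl := Option.some_injective _ hr'
  have hx12 := perm_root h.best.odd hσ
  have h1 := h.map σ
  rw [hx12] at h1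
  have hlink : link (mapF σ B) 12 = fam 12 4 r := by
    rw [← hσ, ← hx12, link_mapF]
  have hmin : ∀ u, MM (mapF σ B) 12 ≤ MM (mapF σ B) u := by
    intro u
    by_cases hu : MM (mapF σ B) u ≤ 4
    · obtain ⟨i, hi⟩ := cls_link h1.best.odd hcls hu
      have hji : j ≤ i := by
        by_contra hlt
        exact h1.low u hu i (by omega) hi
      obtain ⟨r'', hr'', τ, hτ⟩ := hi
      have h2 := hsize i r'' hji hr''
      rw [← hτ, card_mapF, ← hlink] at h2
      have h3 := two_mul_card_link h1.best.odd 12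
      have h4 := two_mul_card_link h1.best.odd u
      omega
    · exact le_trans h1.hx (by omega)
  have h2 := Pool.Agent.Helper82.TY.Best.p_le_two h1.best hU hU12 hmin
  rw [hlink] at h2
  omega

end Pool.Agent.Helper79.CV
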