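import Mathlib
import Pool.Agent.Helper79.CV.FDriver
import Pool.Agent.Helper33.CV.Perm

/-!
MP_8ee768_co, project TH-Y': stage F, from the representatives to the frames.

A frame is a code `f` on `{0, .., 11}` of a root with the two other small points moved to `11`
and `10`. `rootOK r fr cs` checks that every admissible pair of points of the root `r` is moved
by a permutation to a frame of the list `fr`.
-/

set_option autoImplicit false

namespace Pool.Agent.Helper79.CV

open Finset
open Pool.Agent.Helper89.CV (OddCover ofMask)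
open Pool.Agent.Helper97.CV
open Pool.Agent.Helper33.CV

/-- the frame `f` of the class `j` is dead -/
def FrameF (reps : List ℕ) (j f : ℕ) : Prop :=
  ∀ B, QF reps j B 12 11 10 → link B 12 = fam 12 4 f → False

/-! ### degrees -/

/-- number of masks containing the point `p` -/
def degL (p : ℕ) : List ℕ → ℕ
  | [] => 0
  | m :: ms => (bif Nat.testBit m p then 1 else 0) + degL p ms

theorem famL_cons (m : ℕ) (ms : List ℕ) : famL (m :: ms) = insert (ofMask m) (famL ms) := by
  unfold famL
  rw [List.map_cons, List.toFinset_cons]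

theorem cnt_famL {ms : List ℕ} (hnd : ms.Nodup) (hlt : ∀ m ∈ ms, m < 2 ^ 13) (p : Fin 13) :
    cnt (famL ms) {p} = degL p.val ms := by
  induction ms with
  | nil => rfl
  | cons m ms ih =>
    have hm := hlt m List.mem_cons_self
    have ih' := ih (List.nodup_cons.1 hnd).2 fun a ha => hlt a (List.mem_cons_of_mem m ha)
    have hnot : ofMask m ∉ famL ms := by
      rw [mem_famL]
      rintro ⟨a, ha, h⟩
      have h1 := ofMask_injOn (hlt a (List.mem_cons_of_mem m ha)) hm h
      rw [h1] at ha
      exact (List.nodup_cons.1 hnd).1 ha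
    have e : degL p.val (m :: ms) = (bif Nat.testBit m p.val then 1 else 0) + degL p.val ms := rfl
    rw [e, ← ih', famL_cons]
    unfold cnt
    rw [filter_insert]
    by_cases h : Nat.testBit m p.val = true
    · rw [if_pos (singleton_subset_iff.2 (mem_ofMask.2 h)), h, cond_true,
        card_insert_of_notMem fun h1 => hnot (mem_filter.1 h1).1]
      omega
    · rw [if_neg (fun h1 => h (mem_ofMask.1 (singleton_subset_iff.1 h1)))]
      rw [Bool.not_eq_true] at h
      rw [h, cond_false]
      omega

theorem sublist_decL (ms : List ℕ) (N : ℕ) : (decL ms N).Sublist ms := by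
  induction ms generalizing N with
  | nil => exact List.Sublist.refl _
  | cons m ms ih =>
    have e : decL (m :: ms) N =
        bif Nat.beq (N % 2) 1 then m :: decL ms (N / 2) else decL ms (N / 2) := rfl
    rw [e]
    cases Nat.beq (N % 2) 1
    · exact (ih _).cons _
    · exact (ih _).cons_cons _

theorem deg_fam {n k N : ℕ} (hn : n ≤ 13) (p : Fin 13) :
    cnt (fam n k N) {p} = degL p.val (decL (L n k) N) := by
  rw [← famL_decL]
  refine cnt_famL ((sublist_decL _ _).nodup (nodup_L n k)) ?_ p
  intro m hm
  exact lt_of_lt_of_le (lt_of_mem_L ((sublist_decL _ _).subset hm))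
    (Nat.pow_le_pow_right (by norm_num) hn)

/-! ### the check of one pair -/

/-- the list of the `n` hex digits of `c`, lowest first -/
def digs : ℕ → ℕ → List ℕ
  | 0, _ => []
  | n + 1, c => Nat.mod c 16 :: digs n (Nat.div c 16)

/-- the permutation `l` fixes `12`, takes `p, q` to `11, 10` (or `10, 11`) and the list of masks
`ms` to the code `f` -/
def pairOK (ms : List ℕ) (f p q : ℕ) (l : List ℕ) : Bool :=
  okPerm l && (Nat.beq (l.getD 12 0) 12 &&
    (((Nat.beq (l.getD p 0) 11 && Nat.beq (l.getD q 0) 10) ||
      (Nat.beq (l.getD p 0) 10 && Nat.beq (l.getD q 0) 11)) &&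
    Nat.beq (encL 12 4 (ms.map (pmM l))) f))

theorem getD_permOf {l : List ℕ} (h : okPerm l = true) (p : Fin 13) :
    l.getD p.val 0 = (permOf l h p).val := by
  rw [List.getD_eq_getElem?_getD, permOf_apply h p]
  rfl

theorem keeps_twelve {σ : Equiv.Perm (Fin 13)} (h : σ 12 = 12) : Keeps 12 σ := by
  intro a ha
  by_contra h1
  have h2 : σ a = 12 := Fin.ext (by
    have := (σ a).isLt
    have e : (12 : Fin 13).val = 12 := rfl
    omega)
  have h3 : a = 12 := σ.injective (h2.trans h.symm)
  rw [h3] at ha
  exact absurd ha (by decide)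

theorem pairOK_sound {r f : ℕ} {p q : Fin 13} {l : List ℕ}
    (h : pairOK (decL (L 12 4) r) f p.val q.val l = true) :
    ∃ τ : Equiv.Perm (Fin 13), τ 12 = 12 ∧ mapF τ (fam 12 4 r) = fam 12 4 f ∧
      ((τ p = 11 ∧ τ q = 10) ∨ (τ p = 10 ∧ τ q = 11)) := by
  unfold pairOK at h
  rw [Bool.and_eq_true, Bool.and_eq_true, Bool.and_eq_true, Nat.beq_eq, Nat.beq_eq] at h
  obtain ⟨h1, h2, h3, h4⟩ := h
  have e12 : (12 : Fin 13).val = 12 := rfl
  have h5 : permOf l h1 12 = 12 := Fin.ext (by rw [← getD_permOf h1, e12, h2])
  have hk := keeps_twelve h5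
  refine ⟨permOf l h1, h5, ?_, ?_⟩
  · have h6 := fam_relab (n := 12) (k := 4) (by norm_num) hk r
    rw [valL_permOf] at h6
    unfold relab at h6
    rw [h4] at h6
    exact h6.symm
  · rw [Bool.or_eq_true, Bool.and_eq_true, Bool.and_eq_true, Nat.beq_eq, Nat.beq_eq, Nat.beq_eq,
      Nat.beq_eq, getD_permOf h1, getD_permOf h1] at h3
    rcases h3 with ⟨ha, hb⟩ | ⟨ha, hb⟩
    · exact Or.inl ⟨Fin.ext ha, Fin.ext hb⟩
    · exact Or.inr ⟨Fin.ext ha, Fin.ext hb⟩

/-- all pairs `p < q < 12` -/
def pqs : List (ℕ × ℕ) :=
  (List.range 12).flatMap fun q => (List.range q).map fun p => (p, q)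

theorem mem_pqs {p q : ℕ} (h : p < q) (hq : q < 12) : (p, q) ∈ pqs := by
  unfold pqs
  rw [List.mem_flatMap]
  exact ⟨q, List.mem_range.2 hq, List.mem_map.2 ⟨p, List.mem_range.2 h, rfl⟩⟩

/-- the check of a list of pairs; `cs` has one certificate for every pair of two points of degree
`19`: 13 hex digits of the permutation, then the number of the frame -/
def pairsOK (ms fr : List ℕ) : List (ℕ × ℕ) → List ℕ → Bool
  | [], _ => true
  | pq :: ps, cs =>
    bif Nat.beq (degL pq.1 ms) 19 && Nat.beq (degL pq.2 ms) 19 then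
      match cs with
      | [] => false
      | c :: cs => (match fr[Nat.shiftRight c 52]? with
        | none => false
        | some f => pairOK ms f pq.1 pq.2 (digs 13 c)) && pairsOK ms fr ps cs
    else pairsOK ms fr ps cs

theorem pairsOK_get {ms fr : List ℕ} {ps : List (ℕ × ℕ)} {cs : List ℕ}
    (h : pairsOK ms fr ps cs = true) {pq : ℕ × ℕ} (hmem : pq ∈ ps)
    (h1 : degL pq.1 ms = 19) (h2 : degL pq.2 ms = 19) :
    ∃ f ∈ fr, ∃ l, pairOK ms f pq.1 pq.2 l = true := by
  induction ps generalizing cs with
  | nil => exact absurd hmem List.not_mem_nil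
  | cons a ps ih =>
    by_cases hd : (Nat.beq (degL a.1 ms) 19 && Nat.beq (degL a.2 ms) 19) = true
    · cases cs with
      | nil =>
        have e : pairsOK ms fr (a :: ps) [] =
            bif Nat.beq (degL a.1 ms) 19 && Nat.beq (degL a.2 ms) 19 then false
            else pairsOK ms fr ps [] := rfl
        rw [e, hd, cond_true] at h
        exact absurd h Bool.false_ne_true
      | cons c cs =>
        have e : pairsOK ms fr (a :: ps) (c :: cs) =
            bif Nat.beq (degL a.1 ms) 19 && Nat.beq (degL a.2 ms) 19 then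
              ((match fr[Nat.shiftRight c 52]? with
              | none => false
              | some f => pairOK ms f a.1 a.2 (digs 13 c)) && pairsOK ms fr ps cs)
            else pairsOK ms fr ps (c :: cs) := rfl
        rw [e, hd, cond_true, Bool.and_eq_true] at h
        obtain ⟨h3, h4⟩ := h
        rcases List.mem_cons.1 hmem with rfl | h5
        · cases h6 : fr[Nat.shiftRight c 52]? with
          | none =>
            rw [h6] at h3
            exact absurd h3 Bool.false_ne_true
          | some f =>
            rw [h6] at h3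
            exact ⟨f, List.mem_of_getElem? h6, _, h3⟩
        · exact ih h4 h5
    · rw [Bool.not_eq_true] at hd
      have e : ∀ cs, pairsOK ms fr (a :: ps) cs =
          bif Nat.beq (degL a.1 ms) 19 && Nat.beq (degL a.2 ms) 19 then
            match cs with
            | [] => false
            | c :: cs => (match fr[Nat.shiftRight c 52]? with
              | none => false
              | some f => pairOK ms f a.1 a.2 (digs 13 c)) && pairsOK ms fr ps cs
          else pairsOK ms fr ps cs := fun _ => rfl
      rw [e, hd, cond_false] at h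
      rcases List.mem_cons.1 hmem with rfl | h5
      · rw [h1, h2] at hd
        exact absurd hd (by decide)
      · exact ih h h5

/-- the check of a root -/
def rootOK (r : ℕ) (fr cs : List ℕ) : Bool :=
  (fun ms => pairsOK ms fr pqs cs) (decL (L 12 4) r)

/-- a root whose frames are dead is dead, pair `p < q` -/
theorem dead_pair {reps : List ℕ} {j r : ℕ} {fr cs : List ℕ} (hok : rootOK r fr cs = true)
    (hfr : ∀ f ∈ fr, FrameF reps j f) {B : Finset (Finset (Fin 13))} {p q : Fin 13}
    (h : QF reps j B 12 p q) (hl : link B 12 = fam 12 4 r) (hpq : p < q) (hq : q < 12) :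
    False := by
  have hB := h.best.odd
  have hdeg : ∀ u : Fin 13, u ≠ 12 → mm B 12 u = 0 →
      degL u.val (decL (L 12 4) r) = 19 := by
    intro u hu hm
    rw [← deg_fam (by norm_num), ← hl, ← card_link]
    have := card_link_link hB (x := 12) (y := u) hu.symm
    rw [this, hm]
  have h1 := hdeg p (fun h1 => by rw [h1] at hpq; exact absurd (hpq.trans hq) (lt_irrefl _))
    h.mm_xy
  have h2 := hdeg q (fun h1 => by rw [h1] at hq; exact absurd hq (lt_irrefl _)) h.mm_xz
  obtain ⟨f, hf, l, h3⟩ := pairsOK_get (pq := (p.val, q.val)) hok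
    (mem_pqs hpq hq) h1 h2
  obtain ⟨τ, h4, h5, h6⟩ := pairOK_sound h3
  have hl' : link (mapF τ B) 12 = fam 12 4 f := by
    rw [← h5, ← hl]
    conv_lhs => rw [← h4]
    exact link_mapF τ B 12
  rcases h6 with ⟨ha, hb⟩ | ⟨ha, hb⟩
  · have h7 := h.map τ
    rw [h4, ha, hb] at h7
    exact hfr f hf _ h7 hl'
  · have h7 := h.symm.map τ
    rw [h4, ha, hb] at h7
    exact hfr f hf _ h7 hl'

/-- **a root whose frames are dead is dead** -/
theorem dead_of_frames {reps : List ℕ} {j r : ℕ} (hr : reps[j]? = some r) {fr cs : List ℕ}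
    (hok : rootOK r fr cs = true) (hfr : ∀ f ∈ fr, FrameF reps j f)
    {B : Finset (Finset (Fin 13))} {x y z : Fin 13} (h : QF reps j B x y z) : False := by
  obtain ⟨r', hr', σ, hσ⟩ := h.cls
  rw [hr] at hr'
  obtain rfl := Option.some_injective _ hr'
  have hx12 := perm_root h.best.odd hσ
  have h1 := h.map σ
  rw [hx12] at h1
  have hlink : link (mapF σ B) 12 = fam 12 4 r := by
    rw [← hσ, ← hx12, link_mapF]
  have hp : σ y ≠ 12 := h1.xy.symm
  have hq : σ z ≠ 12 := h1.xz.symm
  have hlt : ∀ a : Fin 13, a ≠ 12 → a < 12 := by decide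
  rcases lt_trichotomy (σ y) (σ z) with h2 | h2 | h2
  · exact dead_pair hok hfr h1 hlink h2 (hlt _ hq)
  · exact h1.yz h2
  · exact dead_pair hok hfr h1.symm hlink h2 (hlt _ hp)

end Pool.Agent.Helper79.CV
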