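import Mathlib
import Pool.Agent.Helper79.CV.FFrame
import Pool.Agent.Helper33.CV.Cube
import Pool.Agent.Helper82.TY.Rel

/-!
MP_8ee768_co, project TH-Y': stage F, from the tables to the lanes of a frame.

`EY B` and `EZ B` are the lanes of the points `11` and `10` in the frame `12, 11, 10`, both as
families of 4-subsets of `{0, .., 10}` (for `EZ` the point `10` stands for `11`).
-/

set_option autoImplicit false

namespace Pool.Agent.Helper79.CV

open Finset
open Pool.Agent.Helper89.CV (OddCover ofMask)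
open Pool.Agent.Helper97.CV
open Pool.Agent.Helper33.CV
open Pool.Agent.Helper82.TY (below sub_iff_below Best)

/-- families of sets of points -/
abbrev Fam := Finset (Finset (Fin 13))

/-- completeness of a list of entries (class number, code of the part avoiding `11`) -/
def TabP (reps : List ℕ) (T cap : ℕ) (P : Fam → Fin 13 → Prop) (l : List (ℕ × ℕ)) : Prop :=
  ∀ D : Fam, OddFam 3 (below 12) D → link D 11 = fam 11 3 T → 2 * D.card ≤ 114 + cap → P D 11 →
    ∃ k e, (k, e) ∈ l ∧ Cls reps k D ∧ D.filter (fun s => (11 : Fin 13) ∉ s) = fam 11 4 e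

theorem TabP.mono {reps : List ℕ} {T cap : ℕ} {P P' : Fam → Fin 13 → Prop} {l : List (ℕ × ℕ)}
    (h : TabP reps T cap P l) (hP : ∀ D a, P' D a → P D a) : TabP reps T cap P' l :=
  fun D h1 h2 h3 h4 => h D h1 h2 h3 (hP _ _ h4)

/-- the link is not of an earlier class -/
def From (reps : List ℕ) (j : ℕ) (D : Fam) : Prop := ∀ i < j, ¬ Cls reps i D

theorem tableOK_of_tabP {reps : List ℕ} {T cap : ℕ} {P : Fam → Fin 13 → Prop}
    {l : List (ℕ × ℕ)} (h : TabP reps T cap P l) (j : ℕ) :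
    TableOK T cap (fun D => P D 11 ∧ From reps j D)
      {E | ∃ k e, (k, e) ∈ l ∧ j ≤ k ∧ E = fam 11 4 e} := by
  intro D h1 h2 h3 h4
  obtain ⟨k, e, h5, h6, h7⟩ := h D h1 h2 h3 h4.1
  refine ⟨k, e, h5, ?_, h7⟩
  by_contra h8
  exact h4.2 k (by omega) h6

theorem cone_injective {p : Fin 13} {E F : Fam} (hE : ∀ s ∈ E, p ∉ s) (hF : ∀ s ∈ F, p ∉ s)
    (h : cone p E = cone p F) : E = F := by
  ext s
  constructor
  · intro hs
    have h1 : insert p s ∈ cone p E := by
      rw [mem_cone hE]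
      exact ⟨mem_insert_self p s, by rwa [erase_insert (hE s hs)]⟩
    rw [h, mem_cone hF] at h1
    rw [← erase_insert (hE s hs)]
    exact h1.2
  · intro hs
    have h1 : insert p s ∈ cone p F := by
      rw [mem_cone hF]
      exact ⟨mem_insert_self p s, by rwa [erase_insert (hF s hs)]⟩
    rw [← h, mem_cone hE] at h1
    rw [← erase_insert (hF s hs)]
    exact h1.2

theorem notMem_fam {k e : ℕ} {s : Finset (Fin 13)} (n : Fin 13) (hs : s ∈ fam n.val k e) :
    n ∉ s := by
  intro h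
  have h1 := (sub_of_mem_fam (by omega) hs).1
  rw [mk_lt_iff] at h1
  exact absurd (h1 n h) (lt_irrefl _)

/-- the part of the link of `y` avoiding the root is a relabelled entry -/
theorem link_mem_of_tabP {reps : List ℕ} {T cap j : ℕ} {P : Fam → Fin 13 → Prop}
    (hP : InvA P) {l : List (ℕ × ℕ)} (hT : TabP reps T cap P l) {B : Fam} (hB : OddCover B)
    {y : Fin 13} {σ : Equiv.Perm (Fin 13)} (h12 : σ 12 = 12) (hy : σ y = 11)
    (hσT : mapF σ (link (link B 12) y) = fam 11 3 T) (hM : MM B y ≤ cap)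
    (hPy : P (link B y) 12) (hj : From reps j (link B y)) :
    ∃ k e, (k, e) ∈ l ∧ j ≤ k ∧
      (link B y).filter (fun s => (12 : Fin 13) ∉ s) = mapF σ.symm (fam 11 4 e) := by
  have hinv : InvA (fun D a => P D a ∧ From reps j D) := by
    rintro τ D a ⟨h1, h2⟩
    exact ⟨hP τ D a h1, fun i hi => by
      rw [cls_mapF]
      exact h2 i hi⟩
  obtain ⟨E, ⟨k, e, h1, h2, rfl⟩, h3⟩ := linkage_apex hB hinv (tableOK_of_tabP hT j) h12 hy hσT hM
    ⟨hPy, hj⟩
  refine ⟨k, e, h1, h2, ?_⟩
  have hy12 : (12 : Fin 13) ≠ y := by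
    intro h4
    rw [← h4, h12] at hy
    exact absurd hy (by decide)
  rw [filter_eq_cone B hy12, mapF_cone] at h3
  have h4 : σ.symm 11 = y := by rw [← hy, Equiv.symm_apply_apply]
  rw [h4] at h3
  refine cone_injective ?_ ?_ h3
  · intro s hs
    exact (mem_link.1 (mem_filter.1 hs).1).1
  · intro s hs
    rw [mem_mapF', Equiv.symm_symm] at hs
    intro h5
    refine notMem_fam (k := 4) 11 hs ?_
    rw [← hy, mem_mapS]
    exact h5

/-! ### the frame `12, 11, 10` -/

/-- the lane of `11` -/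
def EY (B : Fam) : Fam := (link B 11).filter (fun s => (12 : Fin 13) ∉ s)

/-- the lane of `10`, the point `11` moved to `10` -/
def EZ (B : Fam) : Fam :=
  mapF (Equiv.swap 10 11) ((link B 10).filter (fun s => (12 : Fin 13) ∉ s))

theorem ey_mem {reps : List ℕ} {T cap j : ℕ} {P : Fam → Fin 13 → Prop}
    (hP : InvA P) {l : List (ℕ × ℕ)} (hT : TabP reps T cap P l) {B : Fam} (hB : OddCover B)
    {f : ℕ} (hf : link B 12 = fam 12 4 f) {ρ : Equiv.Perm (Fin 13)} (h12 : ρ 12 = 12)
    (h11 : ρ 11 = 11) (hρ : mapF ρ (fam 11 3 T) = link (fam 12 4 f) 11) (hM : MM B 11 ≤ cap)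
    (hPy : P (link B 11) 12) (hj : From reps j (link B 11)) :
    ∃ k e, (k, e) ∈ l ∧ j ≤ k ∧ EY B = mapF ρ (fam 11 4 e) := by
  have h1 : mapF ρ.symm (link (link B 12) 11) = fam 11 3 T := by
    rw [hf, ← hρ, mapF_symm_mapF]
  obtain ⟨k, e, h2, h3, h4⟩ := link_mem_of_tabP hP hT hB (σ := ρ.symm) (y := 11)
    (by rw [Equiv.symm_apply_eq, h12]) (by rw [Equiv.symm_apply_eq, h11]) h1 hM hPy hj
  exact ⟨k, e, h2, h3, by rw [← ρ.symm_symm]; exact h4⟩

theorem ez_mem {reps : List ℕ} {T cap j : ℕ} {P : Fam → Fin 13 → Prop}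
    (hP : InvA P) {l : List (ℕ × ℕ)} (hT : TabP reps T cap P l) {B : Fam} (hB : OddCover B)
    {f : ℕ} (hf : link B 12 = fam 12 4 f) {ρ : Equiv.Perm (Fin 13)} (h12 : ρ 12 = 12)
    (h11 : ρ 11 = 11)
    (hρ : mapF ρ (fam 11 3 T) = link (mapF (Equiv.swap 10 11) (fam 12 4 f)) 11)
    (hM : MM B 10 ≤ cap) (hPz : P (link B 10) 12) (hj : From reps j (link B 10)) :
    ∃ k e, (k, e) ∈ l ∧ j ≤ k ∧ EZ B = mapF ρ (fam 11 4 e) := by
  set τ : Equiv.Perm (Fin 13) := Equiv.swap 10 11 with hτ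
  have hτ10 : τ 10 = 11 := Equiv.swap_apply_left _ _
  have hτ12 : τ 12 = 12 := Equiv.swap_apply_of_ne_of_ne (by decide) (by decide)
  have e1 : (ρ.symm * τ) 12 = 12 := by
    rw [Equiv.Perm.mul_apply, hτ12, Equiv.symm_apply_eq, h12]
  have e2 : (ρ.symm * τ) 10 = 11 := by
    rw [Equiv.Perm.mul_apply, hτ10, Equiv.symm_apply_eq, h11]
  have h1 : mapF (ρ.symm * τ) (link (link B 12) 10) = fam 11 3 T := by
    rw [hf, mapF_mul, ← link_mapF τ (fam 12 4 f) 10, hτ10, ← hρ, mapF_symm_mapF]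
  obtain ⟨k, e, h2, h3, h4⟩ := link_mem_of_tabP hP hT hB e1 e2 h1 hM hPz hj
  refine ⟨k, e, h2, h3, ?_⟩
  unfold EZ
  rw [← hτ, h4, ← mapF_mul]
  congr 1
  ext a
  rw [Equiv.Perm.mul_apply]
  congr 1
  rw [← Equiv.eq_symm_apply, Equiv.symm_apply_eq, Equiv.Perm.mul_apply]
  rw [Equiv.apply_symm_apply, Equiv.symm_apply_apply]

/-- the two lanes agree on the sets through the last point -/
theorem link_ey_ez (B : Fam) : link (EY B) 10 = link (EZ B) 10 := by
  set τ : Equiv.Perm (Fin 13) := Equiv.swap 10 11 with hτ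
  have hτ10 : τ 10 = 11 := Equiv.swap_apply_left _ _
  have hτ11 : τ 11 = 10 := Equiv.swap_apply_right _ _
  have h1 : link (EZ B) 10 =
      mapF τ (link ((link B 10).filter (fun s => (12 : Fin 13) ∉ s)) 11) := by
    unfold EZ
    rw [← hτ, ← link_mapF, hτ11]
  have h2 : mapF τ (link ((link B 10).filter (fun s => (12 : Fin 13) ∉ s)) 11) =
      link ((link B 10).filter (fun s => (12 : Fin 13) ∉ s)) 11 := by
    refine mapF_eq_self fun s hs a ha => ?_
    rw [mem_link, mem_filter, mem_link] at hs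
    refine Equiv.swap_apply_of_ne_of_ne ?_ ?_
    · rintro rfl
      exact hs.2.1.1 (mem_insert_of_mem ha)
    · rintro rfl
      exact hs.1 ha
  rw [h1, h2]
  unfold EY
  ext s
  simp only [mem_link, mem_filter, mem_insert, not_or]
  rw [Finset.insert_comm 10 11 s]
  have e1 : (10 : Fin 13) ≠ 11 := by decide
  have e2 : (12 : Fin 13) ≠ 10 := by decide
  have e3 : (12 : Fin 13) ≠ 11 := by decide
  have e4 : (11 : Fin 13) ≠ 10 := by decide
  tauto

/-- upper halves of the cubes -/
theorem cub_ey_ez (B : Fam) : cub 11 (EY B) >>> 1024 = cub 11 (EZ B) >>> 1024 := by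
  have h := cub_shift 10
  have e : (10 : Fin 13).val = 10 := rfl
  simp only [e] at h
  have e2 : (2 : ℕ) ^ 10 = 1024 := by norm_num
  rw [← e2, h, h, link_ey_ez]

/-- the sets through `11` avoiding `12` -/
theorem mem_ey {B : Fam} {s : Finset (Fin 13)} (h11 : (11 : Fin 13) ∉ s)
    (h12 : (12 : Fin 13) ∉ s) : s ∈ EY B ↔ insert 11 s ∈ B := by
  unfold EY
  rw [mem_filter, mem_link]
  tauto

/-- the sets through `10` avoiding `11` and `12` -/
theorem mem_ez {B : Fam} {s : Finset (Fin 13)} (h10 : (10 : Fin 13) ∉ s)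
    (h11 : (11 : Fin 13) ∉ s) (h12 : (12 : Fin 13) ∉ s) : s ∈ EZ B ↔ insert 10 s ∈ B := by
  unfold EZ
  have h1 : mapS (Equiv.swap (10 : Fin 13) 11).symm s = s :=
    mapS_eq_self fun a ha => by
      rw [Equiv.symm_swap]
      refine Equiv.swap_apply_of_ne_of_ne ?_ ?_
      · rintro rfl
        exact h10 ha
      · rintro rfl
        exact h11 ha
  rw [mem_mapF', h1, mem_filter, mem_link]
  tauto

theorem sub_ey {B : Fam} (hB : OddCover B) {s : Finset (Fin 13)} (hs : s ∈ EY B) :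
    Sub 11 4 s := by
  unfold EY at hs
  rw [mem_filter, mem_link] at hs
  refine ⟨?_, ?_⟩
  · rw [mk_lt_iff]
    intro a ha
    have h1 : a ≠ 11 := by
      rintro rfl
      exact hs.1.1 ha
    have h2 : a ≠ 12 := by
      rintro rfl
      exact hs.2 ha
    have h3 : a.val ≠ 11 := fun h => h1 (Fin.ext h)
    have h4 : a.val ≠ 12 := fun h => h2 (Fin.ext h)
    omega
  · have h1 := hB.1 _ hs.1.2
    rw [card_insert_of_notMem hs.1.1] at h1
    omega

theorem sub_ez {B : Fam} (hB : OddCover B) {s : Finset (Fin 13)} (hs : s ∈ EZ B) :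
    Sub 11 4 s := by
  unfold EZ at hs
  rw [mem_mapF', mem_filter, mem_link] at hs
  set t := mapS (Equiv.swap (10 : Fin 13) 11).symm s with ht
  have hst : s = mapS (Equiv.swap (10 : Fin 13) 11) t := by
    rw [ht, mapS_mapS_symm]
  refine ⟨?_, ?_⟩
  · rw [mk_lt_iff]
    intro a ha
    have h1 : a ≠ 11 := by
      rintro rfl
      rw [hst, mem_mapS', Equiv.symm_swap, Equiv.swap_apply_right] at ha
      exact hs.1.1 ha
    have h2 : a ≠ 12 := by
      rintro rfl
      rw [hst, mem_mapS', Equiv.symm_swap,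
        Equiv.swap_apply_of_ne_of_ne (by decide) (by decide)] at ha
      exact hs.2 ha
    have h3 : a.val ≠ 11 := fun h => h1 (Fin.ext h)
    have h4 : a.val ≠ 12 := fun h => h2 (Fin.ext h)
    omega
  · have h1 := hB.1 _ hs.1.2
    rw [card_insert_of_notMem hs.1.1] at h1
    rw [hst, card_mapS]
    omega

/-! ### the relative filter -/

/-- every 5-set with three members contains `a`, and its rest is a member -/
def RelX (D : Fam) (a : Fin 13) : Prop :=
  ∀ U : Finset (Fin 13), U.card = 5 → 3 ≤ (D ∩ U.powersetCard 4).card → a ∈ U ∧ U.erase a ∈ D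

theorem mapF_inter_powersetCard (σ : Equiv.Perm (Fin 13)) (D : Fam) (U : Finset (Fin 13))
    (k : ℕ) : mapF σ D ∩ (mapS σ U).powersetCard k = mapF σ (D ∩ U.powersetCard k) := by
  ext s
  rw [mem_inter, mem_mapF', mem_mapF', mem_inter, mem_powersetCard, mem_powersetCard, card_mapS]
  have h1 : s ⊆ mapS σ U ↔ mapS σ.symm s ⊆ U := by
    constructor
    · intro h a ha
      rw [mem_mapS', Equiv.symm_symm] at ha
      have := h ha
      rwa [mem_mapS', Equiv.symm_apply_apply] at this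
    · intro h a ha
      rw [mem_mapS']
      refine h ?_
      rw [mem_mapS', Equiv.symm_symm, Equiv.apply_symm_apply]
      exact ha
  rw [h1]

theorem invA_relX : InvA RelX := by
  intro σ D a h U hU h3
  obtain ⟨V, rfl⟩ : ∃ V, U = mapS σ V := ⟨mapS σ.symm U, by rw [mapS_mapS_symm]⟩
  rw [mapF_inter_powersetCard, card_mapF] at h3
  rw [card_mapS] at hU
  obtain ⟨h4, h5⟩ := h V hU h3
  refine ⟨mem_mapS.2 h4, ?_⟩
  have h6 : (mapS σ V).erase (σ a) = mapS σ (V.erase a) := by
    ext b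
    rw [mem_erase, mem_mapS', mem_mapS', mem_erase]
    constructor
    · rintro ⟨h7, h8⟩
      exact ⟨fun h9 => h7 (by rw [← h9, Equiv.apply_symm_apply]), h8⟩
    · rintro ⟨h7, h8⟩
      exact ⟨fun h9 => h7 (by rw [h9, Equiv.symm_apply_apply]), h8⟩
  rw [h6]
  exact mem_mapF.2 h5

/-- `x` is the only point which can be lower than `y` -/
theorem relX_of_best {B : Fam} (hB : Best B) {x y : Fin 13}
    (hx : ∀ u, u ≠ x → MM B y ≤ MM B u) : RelX (link B y) x := by
  intro U hU h3
  have hy : y ∉ U := by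
    intro hy
    have h4 : link B y ∩ U.powersetCard 4 ⊆ {U.erase y} := by
      intro s hs
      rw [mem_inter, mem_link, mem_powersetCard] at hs
      rw [mem_singleton]
      refine eq_of_subset_of_card_le (subset_erase.2 ⟨hs.2.1, hs.1.1⟩) ?_
      rw [card_erase_of_mem hy, hU, hs.2.2]
    have h5 := card_le_card h4
    rw [card_singleton] at h5
    omega
  exact hB.p_rel hx hU hy h3

/-- in a configuration of stage F -/
theorem QF.relX_y {reps : List ℕ} {j : ℕ} {B : Fam} {x y z : Fin 13}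
    (h : QF reps j B x y z) (hyz : MM B y ≤ MM B z) : RelX (link B y) x :=
  relX_of_best h.best fun u hu => by
    by_cases h1 : u = y
    · rw [h1]
    · by_cases h2 : u = z
      · rw [h2]
        exact hyz
      · exact h.oy u hu h1 h2

theorem QF.relX_z {reps : List ℕ} {j : ℕ} {B : Fam} {x y z : Fin 13}
    (h : QF reps j B x y z) (hyz : MM B z ≤ MM B y) : RelX (link B z) x :=
  h.symm.relX_y hyz

theorem QF.from_y {reps : List ℕ} {j : ℕ} {B : Fam} {x y z : Fin 13}
    (h : QF reps j B x y z) : From reps j (link B y) := h.low y h.hy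

theorem QF.from_z {reps : List ℕ} {j : ℕ} {B : Fam} {x y z : Fin 13}
    (h : QF reps j B x y z) : From reps j (link B z) := h.low z h.hz

end Pool.Agent.Helper79.CV
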