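import Mathlib
import Pool.Agent.Helper79.CV.FLane

/-!
MP_8ee768_co, project TH-Y': full lanes.

`laneF D` for a family `D` on `{0, .., 11}` with apex `11`: the members avoiding the apex
(4-sets), the triples in at least three members, the points in at least 21 members; all are
subsets of `{0, .., 10}`. `LY B`, `LZ B` are the lanes of the points `11` and `10` in the frame
`12, 11, 10`.
-/

set_option autoImplicit false

namespace Pool.Agent.Helper79.CV

open Finset
open Pool.Agent.Helper89.CV (OddCover ofMask)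
open Pool.Agent.Helper97.CV
open Pool.Agent.Helper33.CV
open Pool.Agent.Helper82.TY (below sub_iff_below Best)

/-- the lane of a family with apex `11` -/
def laneF (D : Fam) : Fam :=
  (D.filter (fun s => (11 : Fin 13) ∉ s) ∪
    ((below 11).powersetCard 3).filter (fun t => 3 ≤ cnt D t)) ∪
    ((below 11).powersetCard 1).filter (fun t => 21 ≤ cnt D t)

theorem mem_laneF {D : Fam} {s : Finset (Fin 13)} :
    s ∈ laneF D ↔ (s ∈ D ∧ (11 : Fin 13) ∉ s) ∨ (s ⊆ below 11 ∧ s.card = 3 ∧ 3 ≤ cnt D s) ∨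
      (s ⊆ below 11 ∧ s.card = 1 ∧ 21 ≤ cnt D s) := by
  unfold laneF
  rw [mem_union, mem_union, mem_filter, mem_filter, mem_filter, mem_powersetCard,
    mem_powersetCard]
  tauto

/-- `ρ` fixes the points `11` and `12` -/
def Fix2 (ρ : Equiv.Perm (Fin 13)) : Prop := ρ 11 = 11 ∧ ρ 12 = 12

theorem Fix2.symm {ρ : Equiv.Perm (Fin 13)} (h : Fix2 ρ) : Fix2 ρ.symm :=
  ⟨by rw [Equiv.symm_apply_eq, h.1], by rw [Equiv.symm_apply_eq, h.2]⟩

theorem Fix2.keeps {ρ : Equiv.Perm (Fin 13)} (h : Fix2 ρ) : Keeps 11 ρ := by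
  intro a ha
  have h1 : ρ a ≠ 11 := fun h1 => by
    rw [ρ.injective (h1.trans h.1.symm)] at ha
    exact absurd ha (by decide)
  have h2 : ρ a ≠ 12 := fun h1 => by
    rw [ρ.injective (h1.trans h.2.symm)] at ha
    exact absurd ha (by decide)
  have h3 : (ρ a).val ≠ 11 := fun h4 => h1 (Fin.ext h4)
  have h4 : (ρ a).val ≠ 12 := fun h4 => h2 (Fin.ext h4)
  omega

theorem subset_below_mapS {n : ℕ} {ρ : Equiv.Perm (Fin 13)} (h : Keeps n ρ)
    {s : Finset (Fin 13)} : mapS ρ s ⊆ below n ↔ s ⊆ below n := by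
  constructor
  · intro h1 a ha
    have h2 := h1 (mem_mapS.2 ha)
    rw [mem_below] at h2 ⊢
    have h3 := h.symm _ h2
    rwa [Equiv.symm_apply_apply] at h3
  · intro h1 a ha
    rw [mem_mapS'] at ha
    have h2 := h1 ha
    rw [mem_below] at h2 ⊢
    have h3 := h _ h2
    rwa [Equiv.apply_symm_apply] at h3

/-- lanes are equivariant -/
theorem laneF_mapF {ρ : Equiv.Perm (Fin 13)} (h : Fix2 ρ) (D : Fam) :
    laneF (mapF ρ D) = mapF ρ (laneF D) := by
  ext s
  obtain ⟨t, rfl⟩ : ∃ t, s = mapS ρ t := ⟨mapS ρ.symm s, by rw [mapS_mapS_symm]⟩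
  rw [mem_mapF, mem_laneF, mem_laneF, mem_mapF, subset_below_mapS h.keeps, card_mapS, cnt_mapF]
  have h1 : (11 : Fin 13) ∈ mapS ρ t ↔ (11 : Fin 13) ∈ t := by
    have h2 := mem_mapS (σ := ρ) (s := t) (a := 11)
    rwa [h.1] at h2
  rw [h1]

/-- the family with link `fam 11 3 T` at `11` and remaining members `fam 11 4 e` -/
def ent (T e : ℕ) : Fam := cone 11 (fam 11 3 T) ∪ fam 11 4 e

theorem eq_ent {D : Fam} {T e : ℕ} (h1 : link D 11 = fam 11 3 T)
    (h2 : D.filter (fun s => (11 : Fin 13) ∉ s) = fam 11 4 e) : D = ent T e := by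
  have h0 : ∀ s ∈ fam 11 3 T, (11 : Fin 13) ∉ s := fun s hs => notMem_fam (k := 3) 11 hs
  ext s
  unfold ent
  rw [mem_union, mem_cone h0, ← h1, ← h2, mem_link, mem_filter]
  constructor
  · intro hs
    by_cases h : (11 : Fin 13) ∈ s
    · exact Or.inl ⟨h, notMem_erase _ _, by rwa [insert_erase h]⟩
    · exact Or.inr ⟨hs, h⟩
  · rintro (⟨h3, -, h4⟩ | h)
    · rwa [insert_erase h3] at h4
    · exact h.1

/-! ### the moved link -/

/-- the exchange of the points `11` and `12` -/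
def sw : Equiv.Perm (Fin 13) := Equiv.swap 11 12

theorem sw11 : sw 11 = 12 := Equiv.swap_apply_left _ _

theorem sw12 : sw 12 = 11 := Equiv.swap_apply_right _ _

theorem sw_of_ne {a : Fin 13} (h1 : a ≠ 11) (h2 : a ≠ 12) : sw a = a :=
  Equiv.swap_apply_of_ne_of_ne h1 h2

/-- the link of `y` moved by `σ` (`σ 12 = 12`, `σ y = 11`), the apex at `11` -/
def moved (σ : Equiv.Perm (Fin 13)) (B : Fam) (y : Fin 13) : Fam :=
  mapF (sw * σ) (link B y)

theorem moved_odd {B : Fam} (hB : OddCover B) {y : Fin 13} {σ : Equiv.Perm (Fin 13)}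
    (hy : σ y = 11) : OddFam 3 (below 12) (moved σ B y) := by
  have h1 := (oddFam_link hB y).map (sw * σ)
  have h2 : mapS (sw * σ) (univ.erase y) = below 12 := by
    ext a
    rw [mem_mapS', mem_erase, mem_below]
    have h3 : (sw * σ) y = 12 := by
      rw [Equiv.Perm.mul_apply, hy, sw11]
    constructor
    · rintro ⟨h4, -⟩
      by_contra h5
      have h6 : a = 12 := Fin.ext (by
        have := a.isLt
        have e : (12 : Fin 13).val = 12 := rfl
        omega)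
      exact h4 (by rw [h6, Equiv.symm_apply_eq, h3])
    · intro h4
      refine ⟨fun h5 => ?_, mem_univ _⟩
      rw [Equiv.symm_apply_eq, h3] at h5
      rw [h5] at h4
      exact absurd h4 (by decide)
  rw [h2] at h1
  exact h1

theorem moved_link {B : Fam} {y : Fin 13} {T : ℕ} {σ : Equiv.Perm (Fin 13)}
    (h12 : σ 12 = 12) (hσT : mapF σ (link (link B 12) y) = fam 11 3 T) :
    link (moved σ B y) 11 = fam 11 3 T := by
  have h1 : (sw * σ) 12 = 11 := by
    rw [Equiv.Perm.mul_apply, h12, sw12]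
  have h2 : link (moved σ B y) 11 = mapF (sw * σ) (link (link B y) 12) := by
    unfold moved
    conv_lhs => rw [← h1]
    exact link_mapF _ _ _
  rw [h2, link_comm B y 12, mapF_mul, hσT]
  refine mapF_eq_self fun s hs a ha => ?_
  have h3 := mk_lt_iff.1 (sub_of_mem_fam (by norm_num) hs).1 a ha
  refine sw_of_ne ?_ ?_
  · rintro rfl
    exact absurd h3 (by decide)
  · rintro rfl
    exact absurd h3 (by decide)

theorem moved_card {B : Fam} (hB : OddCover B) {y : Fin 13} {σ : Equiv.Perm (Fin 13)} :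
    2 * (moved σ B y).card = 114 + MM B y := by
  unfold moved
  rw [card_mapF, two_mul_card_link hB y]

/-- the full linkage: the moved link is an entry, with its class -/
theorem moved_mem_cls {reps : List ℕ} {T cap j : ℕ} {P : Fam → Fin 13 → Prop}
    (hP : InvA P) {l : List (ℕ × ℕ)} (hT : TabP reps T cap P l) {B : Fam} (hB : OddCover B)
    {y : Fin 13} {σ : Equiv.Perm (Fin 13)} (h12 : σ 12 = 12) (hy : σ y = 11)
    (hσT : mapF σ (link (link B 12) y) = fam 11 3 T) (hM : MM B y ≤ cap)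
    (hPy : P (link B y) 12) (hj : From reps j (link B y)) :
    ∃ k e, (k, e) ∈ l ∧ j ≤ k ∧ moved σ B y = ent T e ∧ Cls reps k (link B y) := by
  have h1 := moved_link h12 hσT
  have h2 := moved_card hB (σ := σ) (y := y)
  have h3 : P (moved σ B y) 11 := by
    have h4 := hP (sw * σ) _ _ hPy
    rwa [Equiv.Perm.mul_apply, h12, sw12] at h4
  obtain ⟨k, e, h4, h5, h6⟩ := hT _ (moved_odd hB hy) h1 (by omega) h3
  unfold moved at h5
  rw [cls_mapF] at h5
  refine ⟨k, e, h4, ?_, eq_ent h1 h6, h5⟩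
  by_contra h7
  exact hj k (by omega) h5

theorem moved_mem {reps : List ℕ} {T cap j : ℕ} {P : Fam → Fin 13 → Prop}
    (hP : InvA P) {l : List (ℕ × ℕ)} (hT : TabP reps T cap P l) {B : Fam} (hB : OddCover B)
    {y : Fin 13} {σ : Equiv.Perm (Fin 13)} (h12 : σ 12 = 12) (hy : σ y = 11)
    (hσT : mapF σ (link (link B 12) y) = fam 11 3 T) (hM : MM B y ≤ cap)
    (hPy : P (link B y) 12) (hj : From reps j (link B y)) :
    ∃ k e, (k, e) ∈ l ∧ j ≤ k ∧ moved σ B y = ent T e := by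
  obtain ⟨k, e, h1, h2, h3, -⟩ := moved_mem_cls hP hT hB h12 hy hσT hM hPy hj
  exact ⟨k, e, h1, h2, h3⟩

/-- the same with the table frame given by `ρ` -/
theorem moved_mem_fix_cls {reps : List ℕ} {T cap j : ℕ} {P : Fam → Fin 13 → Prop}
    (hP : InvA P) {l : List (ℕ × ℕ)} (hT : TabP reps T cap P l) {B : Fam} (hB : OddCover B)
    {f : ℕ} (hf : link B 12 = fam 12 4 f)
    {y : Fin 13} {σ : Equiv.Perm (Fin 13)} (h12 : σ 12 = 12) (hy : σ y = 11)
    {ρ : Equiv.Perm (Fin 13)} (hρ : Fix2 ρ)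
    (hρT : mapF ρ (fam 11 3 T) = link (mapF σ (fam 12 4 f)) 11) (hM : MM B y ≤ cap)
    (hPy : P (link B y) 12) (hj : From reps j (link B y)) :
    ∃ k e, (k, e) ∈ l ∧ j ≤ k ∧ moved σ B y = mapF ρ (ent T e) ∧ Cls reps k (link B y) := by
  have e1 : (ρ.symm * σ) 12 = 12 := by rw [Equiv.Perm.mul_apply, h12, hρ.symm.2]
  have e2 : (ρ.symm * σ) y = 11 := by rw [Equiv.Perm.mul_apply, hy, hρ.symm.1]
  have h1 : mapF (ρ.symm * σ) (link (link B 12) y) = fam 11 3 T := by
    rw [hf, mapF_mul, ← link_mapF σ (fam 12 4 f) y, hy, ← hρT, mapF_symm_mapF]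
  obtain ⟨k, e, h2, h3, h4, h9⟩ := moved_mem_cls hP hT hB e1 e2 h1 hM hPy hj
  refine ⟨k, e, h2, h3, ?_, h9⟩
  rw [← h4]
  unfold moved
  rw [← mapF_mul]
  congr 1
  ext a
  simp only [Equiv.Perm.mul_apply]
  congr 1
  by_cases h11 : σ a = 11
  · rw [h11, hρ.symm.1, sw11, hρ.2]
  · by_cases h12' : σ a = 12
    · rw [h12', hρ.symm.2, sw12, hρ.1]
    · have h5 : ρ.symm (σ a) ≠ 11 := fun h => h11 (by
        rw [Equiv.symm_apply_eq, hρ.1] at h
        exact h)
      have h6 : ρ.symm (σ a) ≠ 12 := fun h => h12' (by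
        rw [Equiv.symm_apply_eq, hρ.2] at h
        exact h)
      rw [sw_of_ne h11 h12', sw_of_ne h5 h6, Equiv.apply_symm_apply]

theorem moved_mem_fix {reps : List ℕ} {T cap j : ℕ} {P : Fam → Fin 13 → Prop}
    (hP : InvA P) {l : List (ℕ × ℕ)} (hT : TabP reps T cap P l) {B : Fam} (hB : OddCover B)
    {f : ℕ} (hf : link B 12 = fam 12 4 f)
    {y : Fin 13} {σ : Equiv.Perm (Fin 13)} (h12 : σ 12 = 12) (hy : σ y = 11)
    {ρ : Equiv.Perm (Fin 13)} (hρ : Fix2 ρ)
    (hρT : mapF ρ (fam 11 3 T) = link (mapF σ (fam 12 4 f)) 11) (hM : MM B y ≤ cap)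
    (hPy : P (link B y) 12) (hj : From reps j (link B y)) :
    ∃ k e, (k, e) ∈ l ∧ j ≤ k ∧ moved σ B y = mapF ρ (ent T e) := by
  obtain ⟨k, e, h1, h2, h3, -⟩ := moved_mem_fix_cls hP hT hB hf h12 hy hρ hρT hM hPy hj
  exact ⟨k, e, h1, h2, h3⟩

/-! ### the lanes of the frame `12, 11, 10` -/

/-- the lane of the point `11` -/
def LY (B : Fam) : Fam := laneF (moved 1 B 11)

/-- the lane of the point `10`; the point `10` of the lane stands for `11` -/
def LZ (B : Fam) : Fam := laneF (moved (Equiv.swap 10 11) B 10)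

/-- the lane of `11` is a relabelled entry of the table -/
theorem ly_mem {reps : List ℕ} {T cap j : ℕ} {P : Fam → Fin 13 → Prop}
    (hP : InvA P) {l : List (ℕ × ℕ)} (hT : TabP reps T cap P l) {B : Fam} (hB : OddCover B)
    {f : ℕ} (hf : link B 12 = fam 12 4 f) {ρ : Equiv.Perm (Fin 13)} (hρ : Fix2 ρ)
    (hρT : mapF ρ (fam 11 3 T) = link (fam 12 4 f) 11) (hM : MM B 11 ≤ cap)
    (hPy : P (link B 11) 12) (hj : From reps j (link B 11)) :
    ∃ k e, (k, e) ∈ l ∧ j ≤ k ∧ LY B = mapF ρ (laneF (ent T e)) := by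
  obtain ⟨k, e, h1, h2, h3⟩ := moved_mem_fix hP hT hB hf (σ := 1) (y := 11) rfl rfl hρ
    (by rw [mapF_one]; exact hρT) hM hPy hj
  exact ⟨k, e, h1, h2, by unfold LY; rw [h3, laneF_mapF hρ]⟩

/-- the lane of `10` is a relabelled entry of the table -/
theorem lz_mem {reps : List ℕ} {T cap j : ℕ} {P : Fam → Fin 13 → Prop}
    (hP : InvA P) {l : List (ℕ × ℕ)} (hT : TabP reps T cap P l) {B : Fam} (hB : OddCover B)
    {f : ℕ} (hf : link B 12 = fam 12 4 f) {ρ : Equiv.Perm (Fin 13)} (hρ : Fix2 ρ)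
    (hρT : mapF ρ (fam 11 3 T) = link (mapF (Equiv.swap 10 11) (fam 12 4 f)) 11)
    (hM : MM B 10 ≤ cap) (hPz : P (link B 10) 12) (hj : From reps j (link B 10)) :
    ∃ k e, (k, e) ∈ l ∧ j ≤ k ∧ LZ B = mapF ρ (laneF (ent T e)) := by
  obtain ⟨k, e, h1, h2, h3⟩ := moved_mem_fix hP hT hB hf (σ := Equiv.swap 10 11) (y := 10)
    (Equiv.swap_apply_of_ne_of_ne (by decide) (by decide)) (Equiv.swap_apply_left _ _) hρ hρT
    hM hPz hj
  exact ⟨k, e, h1, h2, by unfold LZ; rw [h3, laneF_mapF hρ]⟩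

/-! ### what a lane says about the cover -/

/-- sets of points below `11` are not moved by `sw` -/
theorem mapS_swap_below {s : Finset (Fin 13)} (h : s ⊆ below 11) :
    mapS sw.symm s = s := by
  have e : sw.symm = sw := Equiv.symm_swap _ _
  rw [e]
  refine mapS_eq_self fun a ha => ?_
  have h1 := mem_below.1 (h ha)
  refine sw_of_ne ?_ ?_
  · rintro rfl
    exact absurd h1 (by decide)
  · rintro rfl
    exact absurd h1 (by decide)

theorem notMem_of_subset_below {n : ℕ} {s : Finset (Fin 13)} (h : s ⊆ below n) {a : Fin 13}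
    (ha : n ≤ a.val) : a ∉ s := fun h1 => by
  have := mem_below.1 (h h1)
  omega

/-- membership in a moved link -/
theorem mem_moved {σ : Equiv.Perm (Fin 13)} {B : Fam} {y : Fin 13} {s t : Finset (Fin 13)}
    (hs : s ⊆ below 11) (ht : mapS σ t = s) (hy : y ∉ t) :
    (s ∈ moved σ B y ↔ insert y t ∈ B) := by
  unfold moved
  rw [mapF_mul, mem_mapF', mapS_swap_below hs, ← ht, mem_mapF, mem_link]
  tauto

theorem cnt_moved {σ : Equiv.Perm (Fin 13)} {B : Fam} {y : Fin 13} {s t : Finset (Fin 13)}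
    (hs : s ⊆ below 11) (ht : mapS σ t = s) (hy : y ∉ t) :
    cnt (moved σ B y) s = cnt B (insert y t) := by
  unfold moved
  rw [mapF_mul, cnt_mapF', mapS_swap_below hs, ← ht, cnt_mapF, cnt_link B hy]

/-- the lane in terms of the cover -/
theorem mem_laneF_moved {σ : Equiv.Perm (Fin 13)} {B : Fam} {y : Fin 13}
    {s t : Finset (Fin 13)} (hs : s ⊆ below 11) (ht : mapS σ t = s) (hy : y ∉ t) :
    s ∈ laneF (moved σ B y) ↔ insert y t ∈ B ∨ (t.card = 3 ∧ 3 ≤ cnt B (insert y t)) ∨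
      (t.card = 1 ∧ 21 ≤ cnt B (insert y t)) := by
  rw [mem_laneF, mem_moved hs ht hy, cnt_moved hs ht hy]
  have h1 : s.card = t.card := by rw [← ht, card_mapS]
  rw [h1]
  have h2 : (11 : Fin 13) ∉ s := notMem_of_subset_below hs (le_refl _)
  tauto

/-- the lane of `11` -/
theorem mem_LY {B : Fam} {s : Finset (Fin 13)} (hs : s ⊆ below 11) :
    s ∈ LY B ↔ insert 11 s ∈ B ∨ (s.card = 3 ∧ 3 ≤ cnt B (insert 11 s)) ∨
      (s.card = 1 ∧ 21 ≤ cnt B (insert 11 s)) :=
  mem_laneF_moved hs (mapS_one s) (notMem_of_subset_below hs (le_refl _))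

theorem mapS_swap10_below {s : Finset (Fin 13)} (h : s ⊆ below 10) :
    mapS (Equiv.swap 10 11) s = s := by
  refine mapS_eq_self fun a ha => ?_
  have h1 := mem_below.1 (h ha)
  refine Equiv.swap_apply_of_ne_of_ne ?_ ?_
  · rintro rfl
    exact absurd h1 (by decide)
  · rintro rfl
    exact absurd h1 (by decide)

theorem below_mono {m n : ℕ} (h : m ≤ n) : below m ⊆ below n := by
  intro a ha
  rw [mem_below] at ha ⊢
  omega

/-- the lane of `10`, sets avoiding `11` -/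
theorem mem_LZ {B : Fam} {s : Finset (Fin 13)} (hs : s ⊆ below 10) :
    s ∈ LZ B ↔ insert 10 s ∈ B ∨ (s.card = 3 ∧ 3 ≤ cnt B (insert 10 s)) ∨
      (s.card = 1 ∧ 21 ≤ cnt B (insert 10 s)) :=
  mem_laneF_moved (hs.trans (below_mono (by norm_num))) (mapS_swap10_below hs)
    (notMem_of_subset_below hs (le_refl _))

/-- the lane of `10`, sets through `11` (coded by `10`) -/
theorem mem_LZ' {B : Fam} {s : Finset (Fin 13)} (hs : s ⊆ below 10) :
    insert 10 s ∈ LZ B ↔ insert 10 (insert 11 s) ∈ B ∨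
      ((insert 11 s).card = 3 ∧ 3 ≤ cnt B (insert 10 (insert 11 s))) ∨
      ((insert 11 s).card = 1 ∧ 21 ≤ cnt B (insert 10 (insert 11 s))) := by
  refine mem_laneF_moved (t := insert 11 s) ?_ ?_ ?_
  · intro a ha
    rw [mem_insert] at ha
    rcases ha with rfl | ha
    · exact mem_below.2 (by decide)
    · exact below_mono (by norm_num) (hs ha)
  · rw [mapS_insert, Equiv.swap_apply_right, mapS_swap10_below hs]
  · rw [mem_insert, not_or]
    exact ⟨by decide, notMem_of_subset_below hs (le_refl _)⟩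

/-- the lanes agree on the sets through the last point -/
theorem link_LY_LZ (B : Fam) {s : Finset (Fin 13)} (hs : s ⊆ below 10) :
    insert 10 s ∈ LY B ↔ insert 10 s ∈ LZ B := by
  have h10 : (10 : Fin 13) ∉ s := notMem_of_subset_below hs (le_refl _)
  have h11 : (11 : Fin 13) ∉ s := notMem_of_subset_below hs (by decide)
  rw [mem_LZ' hs, mem_LY, insert_comm 11 10 s, card_insert_of_notMem h10,
    card_insert_of_notMem h11]
  intro a ha
  rw [mem_insert] at ha
  rcases ha with rfl | ha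
  · exact mem_below.2 (by decide)
  · exact below_mono (by norm_num) (hs ha)

/-- the upper halves of the cubes of the two lanes are equal -/
theorem cub_LY_LZ (B : Fam) : cub 11 (LY B) >>> 1024 = cub 11 (LZ B) >>> 1024 := by
  have h := cub_shift 10
  have e : (10 : Fin 13).val = 10 := rfl
  simp only [e] at h
  have e2 : (2 : ℕ) ^ 10 = 1024 := by norm_num
  rw [← e2, h, h]
  refine Nat.eq_of_testBit_eq fun m => ?_
  by_cases hm : m < 2 ^ 10
  · rw [testBit_cub _ hm, testBit_cub _ hm, decide_eq_decide, mem_link, mem_link]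
    have hs : ofMask m ⊆ below 10 := by
      intro a ha
      rw [mem_below]
      rw [mem_ofMask] at ha
      by_contra h1
      rw [Nat.testBit_eq_false_of_lt (lt_of_lt_of_le hm
        (Nat.pow_le_pow_right (by norm_num) (by omega)))] at ha
      exact Bool.false_ne_true ha
    rw [link_LY_LZ B hs]
  · rw [testBit_cub_ge _ (by omega), testBit_cub_ge _ (by omega)]

/-! ### dead pairs of lanes -/

/-- two lanes (cube codes) of the frame `12, 11, 10` are impossible under `H` -/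
def LaneDead (H : Fam → Prop) (u v : ℕ) : Prop :=
  ∀ B, H B → cub 11 (LY B) = u → cub 11 (LZ B) = v → False

theorem LaneDead.mono {H H' : Fam → Prop} {u v : ℕ} (h : LaneDead H u v)
    (hH : ∀ B, H' B → H B) : LaneDead H' u v := fun B hB => h B (hH B hB)

/-- from complete lists of lanes -/
theorem dead_of_lanes {H : Fam → Prop} {CY CZ : Set ℕ}
    (hY : ∀ B, H B → cub 11 (LY B) ∈ CY) (hZ : ∀ B, H B → cub 11 (LZ B) ∈ CZ)
    (hk : ∀ u ∈ CY, ∀ v ∈ CZ, u >>> 1024 = v >>> 1024 → LaneDead H u v) (B : Fam) : ¬ H B :=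
  fun hB => hk _ (hY B hB) _ (hZ B hB) (cub_LY_LZ B) B hB rfl rfl

/-- the property of the covers of a frame of stage F -/
def HF (reps : List ℕ) (j f : ℕ) (B : Fam) : Prop :=
  QF reps j B 12 11 10 ∧ link B 12 = fam 12 4 f

theorem frameF_of_lanes {reps : List ℕ} {j f : ℕ} {CY CZ : Set ℕ}
    (hY : ∀ B, HF reps j f B → cub 11 (LY B) ∈ CY) (hZ : ∀ B, HF reps j f B → cub 11 (LZ B) ∈ CZ)
    (hk : ∀ u ∈ CY, ∀ v ∈ CZ, u >>> 1024 = v >>> 1024 → LaneDead (HF reps j f) u v) :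
    FrameF reps j f := fun B hB hl => dead_of_lanes hY hZ hk B ⟨hB, hl⟩

/-- the cubes of the entries of a list, relabelled by `ρ`, from the class `j` on -/
def cubes (T j : ℕ) (ρ : Equiv.Perm (Fin 13)) (l : List (ℕ × ℕ)) : Set ℕ :=
  {u | ∃ k e, (k, e) ∈ l ∧ j ≤ k ∧ u = cub 11 (mapF ρ (laneF (ent T e)))}

theorem hf_ly {reps : List ℕ} {T j f : ℕ} {l : List (ℕ × ℕ)}
    (hT : TabP reps T 4 (fun _ _ => True) l) {ρ : Equiv.Perm (Fin 13)} (hρ : Fix2 ρ)
    (hρT : mapF ρ (fam 11 3 T) = link (fam 12 4 f) 11) {B : Fam} (h : HF reps j f B) :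
    cub 11 (LY B) ∈ cubes T j ρ l := by
  obtain ⟨k, e, h1, h2, h3⟩ := ly_mem (P := fun _ _ => True) (fun _ _ _ _ => trivial) hT
    h.1.best.odd h.2 hρ hρT h.1.hy trivial h.1.from_y
  exact ⟨k, e, h1, h2, by rw [h3]⟩

theorem hf_lz {reps : List ℕ} {T j f : ℕ} {l : List (ℕ × ℕ)}
    (hT : TabP reps T 4 (fun _ _ => True) l) {ρ : Equiv.Perm (Fin 13)} (hρ : Fix2 ρ)
    (hρT : mapF ρ (fam 11 3 T) = link (mapF (Equiv.swap 10 11) (fam 12 4 f)) 11) {B : Fam}
    (h : HF reps j f B) : cub 11 (LZ B) ∈ cubes T j ρ l := by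
  obtain ⟨k, e, h1, h2, h3⟩ := lz_mem (P := fun _ _ => True) (fun _ _ _ _ => trivial) hT
    h.1.best.odd h.2 hρ hρT h.1.hz trivial h.1.from_z
  exact ⟨k, e, h1, h2, by rw [h3]⟩

/-- the relative forms -/
theorem hf_ly_rel {reps : List ℕ} {T j f : ℕ} {l : List (ℕ × ℕ)}
    (hT : TabP reps T 4 RelX l) {ρ : Equiv.Perm (Fin 13)} (hρ : Fix2 ρ)
    (hρT : mapF ρ (fam 11 3 T) = link (fam 12 4 f) 11) {B : Fam} (h : HF reps j f B)
    (hyz : MM B 11 ≤ MM B 10) : cub 11 (LY B) ∈ cubes T j ρ l := by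
  obtain ⟨k, e, h1, h2, h3⟩ := ly_mem invA_relX hT h.1.best.odd h.2 hρ hρT h.1.hy
    (h.1.relX_y hyz) h.1.from_y
  exact ⟨k, e, h1, h2, by rw [h3]⟩

theorem hf_lz_rel {reps : List ℕ} {T j f : ℕ} {l : List (ℕ × ℕ)}
    (hT : TabP reps T 4 RelX l) {ρ : Equiv.Perm (Fin 13)} (hρ : Fix2 ρ)
    (hρT : mapF ρ (fam 11 3 T) = link (mapF (Equiv.swap 10 11) (fam 12 4 f)) 11) {B : Fam}
    (h : HF reps j f B) (hyz : MM B 10 ≤ MM B 11) : cub 11 (LZ B) ∈ cubes T j ρ l := by
  obtain ⟨k, e, h1, h2, h3⟩ := lz_mem invA_relX hT h.1.best.odd h.2 hρ hρT h.1.hz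
    (h.1.relX_z hyz) h.1.from_z
  exact ⟨k, e, h1, h2, by rw [h3]⟩

end Pool.Agent.Helper79.CV
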