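import Mathlib
import Pool.Agent.Helper79.CV.Lane3

/-!
MP_8ee768_co, project TH-Y': the context of the star engine and the blocks of stage F.

`StarCtx f c t d B` is everything the engine uses about a cover in the frame `12, 11, 10`: the
root link, the total of the three excesses, the lower bounds `c` (all outside points) and `8`
(neighbours of the frame) up to one exception of size `d`.
-/

set_option autoImplicit false

namespace Pool.Agent.Helper79.CV

open Finset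
open Pool.Agent.Helper89.CV (OddCover ofMask)
open Pool.Agent.Helper97.CV
open Pool.Agent.Helper33.CV
open Pool.Agent.Helper82.TY (below sub_iff_below Best)

/-- the point `w` has an excess with a point of the frame -/
def Nbr (B : Fam) (w : Fin 13) : Prop := 1 ≤ mm B 12 w ∨ 1 ≤ mm B 11 w ∨ 1 ≤ mm B 10 w

/-- the context of the star engine -/
structure StarCtx (f c t d : ℕ) (B : Fam) : Prop where
  odd : OddCover B
  le157 : B.card ≤ 157
  root : link B 12 = fam 12 4 f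
  tot : t ≤ MM B 10 + MM B 11 + MM B 12
  low : ∃ s : Fin 13, ∀ w : Fin 13, w.val < 10 →
    c ≤ MM B w + (if w = s then d else 0) ∧ (Nbr B w → 8 ≤ MM B w + (if w = s then d else 0))

/-- without exception -/
theorem StarCtx.of_le {f c t : ℕ} {B : Fam} (h1 : OddCover B) (h2 : B.card ≤ 157)
    (h3 : link B 12 = fam 12 4 f) (h4 : t ≤ MM B 10 + MM B 11 + MM B 12)
    (h5 : ∀ w : Fin 13, w.val < 10 → c ≤ MM B w) (h6 : ∀ w : Fin 13, w.val < 10 → Nbr B w →
      8 ≤ MM B w) (d : ℕ) : StarCtx f c t d B :=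
  ⟨h1, h2, h3, h4, 12, fun w hw => ⟨le_trans (h5 w hw) (Nat.le_add_right _ _),
    fun h => le_trans (h6 w hw h) (Nat.le_add_right _ _)⟩⟩

/-- one exception -/
theorem StarCtx.of_exc {f c t d : ℕ} {B : Fam} (h1 : OddCover B) (h2 : B.card ≤ 157)
    (h3 : link B 12 = fam 12 4 f) (h4 : t ≤ MM B 10 + MM B 11 + MM B 12) {s : Fin 13}
    (h5 : ∀ w : Fin 13, w.val < 10 → w ≠ s → c ≤ MM B w) (h6 : ∀ w : Fin 13, w.val < 10 →
      w ≠ s → Nbr B w → 8 ≤ MM B w) (h7 : c ≤ MM B s + d) (h8 : Nbr B s → 8 ≤ MM B s + d) :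
    StarCtx f c t d B := by
  refine ⟨h1, h2, h3, h4, s, fun w hw => ?_⟩
  by_cases h : w = s
  · rw [if_pos h, h]
    exact ⟨h7, h8⟩
  · rw [if_neg h]
    exact ⟨h5 w hw h, fun h9 => h6 w hw h h9⟩

/-! ### stage F -/

/-- a frame of stage F with the excesses of the two lanes -/
def HM (reps : List ℕ) (j f m m' : ℕ) (B : Fam) : Prop :=
  HF reps j f B ∧ MM B 11 = m ∧ MM B 10 = m'

theorem HM.ctx {reps : List ℕ} {j f m m' t : ℕ} {B : Fam} (h : HM reps j f m m' B)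
    (ht : 2 * (fam 12 4 f).card + m + m' = 114 + t) : StarCtx f (max m m') t 0 B := by
  obtain ⟨⟨hq, hf⟩, h1, h2⟩ := h
  have hB := hq.best.odd
  have h3 := two_mul_card_link hB 12
  rw [hf] at h3
  refine StarCtx.of_le hB hq.best.le hf (by omega) ?_ ?_ 0
  · intro w hw
    have e1 : w ≠ 12 := by
      rintro rfl
      exact absurd hw (by decide)
    have e2 : w ≠ 11 := by
      rintro rfl
      exact absurd hw (by decide)
    have e3 : w ≠ 10 := by
      rintro rfl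
      exact absurd hw (by decide)
    rw [← h1, ← h2]
    exact max_le (hq.oy w e1 e2 e3) (hq.oz w e1 e2 e3)
  · intro w hw hn
    have e1 : (12 : Fin 13) ≠ w := by
      rintro rfl
      exact absurd hw (by decide)
    have e2 : (11 : Fin 13) ≠ w := by
      rintro rfl
      exact absurd hw (by decide)
    have e3 : (10 : Fin 13) ≠ w := by
      rintro rfl
      exact absurd hw (by decide)
    rcases hn with hn | hn | hn
    · exact hq.heavy (Or.inl rfl) e1 hn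
    · exact hq.heavy (Or.inr (Or.inl rfl)) e2 hn
    · exact hq.heavy (Or.inr (Or.inr rfl)) e3 hn

/-- the classes with excess `m` are the numbers in `[lo m, hi m)` -/
def SizeOK (reps : List ℕ) (lo hi : ℕ → ℕ) : Prop :=
  ∀ k r, reps[k]? = some r → ∀ m ≤ 4, 2 * (fam 12 4 r).card = 114 + m → lo m ≤ k ∧ k < hi m

/-- the cubes of the entries of excess `m`, relabelled by `ρ`, from the class `j` on -/
def cubesM (T j lo hi : ℕ) (ρ : Equiv.Perm (Fin 13)) (l : List (ℕ × ℕ)) : Set ℕ :=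
  {u | ∃ k e, (k, e) ∈ l ∧ j ≤ k ∧ (lo ≤ k ∧ k < hi) ∧ u = cub 11 (mapF ρ (laneF (ent T e)))}

theorem size_of_moved {reps : List ℕ} {lo hi : ℕ → ℕ} (hs : SizeOK reps lo hi) {B : Fam}
    (hB : OddCover B) {y : Fin 13} {k : ℕ} (hk : Cls reps k (link B y)) (hy : MM B y ≤ 4) :
    lo (MM B y) ≤ k ∧ k < hi (MM B y) := by
  obtain ⟨r, hr, σ, h⟩ := hk
  refine hs k r hr _ hy ?_
  rw [← h, card_mapF, two_mul_card_link hB y]

/-- the lane of `11` in a block, any invariant property -/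
theorem block_ly {reps : List ℕ} {T j f m m' : ℕ} {P : Fam → Fin 13 → Prop} (hP : InvA P)
    {l : List (ℕ × ℕ)} (hT : TabP reps T 4 P l) {lo hi : ℕ → ℕ} (hs : SizeOK reps lo hi)
    {ρ : Equiv.Perm (Fin 13)} (hρ : Fix2 ρ)
    (hρT : mapF ρ (fam 11 3 T) = link (fam 12 4 f) 11) {B : Fam} (h : HM reps j f m m' B)
    (hPy : P (link B 11) 12) : cub 11 (LY B) ∈ cubesM T j (lo m) (hi m) ρ l := by
  obtain ⟨⟨hq, hf⟩, h1, h2⟩ := h
  obtain ⟨k, e, h3, h4, h5, h6⟩ := moved_mem_fix_cls hP hT hq.best.odd hf (σ := 1) (y := 11)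
    rfl rfl hρ (by rw [mapF_one]; exact hρT) hq.hy hPy hq.from_y
  have h7 := size_of_moved hs hq.best.odd h6 hq.hy
  rw [h1] at h7
  exact ⟨k, e, h3, h4, h7, by unfold LY; rw [h5, laneF_mapF hρ]⟩

/-- the lane of `10` in a block -/
theorem block_lz {reps : List ℕ} {T j f m m' : ℕ} {P : Fam → Fin 13 → Prop} (hP : InvA P)
    {l : List (ℕ × ℕ)} (hT : TabP reps T 4 P l) {lo hi : ℕ → ℕ} (hs : SizeOK reps lo hi)
    {ρ : Equiv.Perm (Fin 13)} (hρ : Fix2 ρ)
    (hρT : mapF ρ (fam 11 3 T) = link (mapF (Equiv.swap 10 11) (fam 12 4 f)) 11) {B : Fam}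
    (h : HM reps j f m m' B) (hPz : P (link B 10) 12) :
    cub 11 (LZ B) ∈ cubesM T j (lo m') (hi m') ρ l := by
  obtain ⟨⟨hq, hf⟩, h1, h2⟩ := h
  obtain ⟨k, e, h3, h4, h5, h6⟩ := moved_mem_fix_cls hP hT hq.best.odd hf
    (σ := Equiv.swap 10 11) (y := 10)
    (Equiv.swap_apply_of_ne_of_ne (by decide) (by decide)) (Equiv.swap_apply_left _ _) hρ hρT
    hq.hz hPz hq.from_z
  have h7 := size_of_moved hs hq.best.odd h6 hq.hz
  rw [h2] at h7
  exact ⟨k, e, h3, h4, h7, by unfold LZ; rw [h5, laneF_mapF hρ]⟩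

/-- the data of one frame: types and relabellings of the two lanes -/
structure FrameD (f Ty Tz : ℕ) (ρy ρz : Equiv.Perm (Fin 13)) : Prop where
  fy : Fix2 ρy
  fz : Fix2 ρz
  ty : mapF ρy (fam 11 3 Ty) = link (fam 12 4 f) 11
  tz : mapF ρz (fam 11 3 Tz) = link (mapF (Equiv.swap 10 11) (fam 12 4 f)) 11

/-- **a frame of stage F is dead if all its blocks are**: `l`, `l'` are the full lists, `lx`,
`lx'` the relative ones -/
theorem frameF_of_blocks {reps : List ℕ} {j f Ty Tz : ℕ} {ρy ρz : Equiv.Perm (Fin 13)}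
    (hd : FrameD f Ty Tz ρy ρz) {l lx l' lx' : List (ℕ × ℕ)}
    (hl : TabP reps Ty 4 (fun _ _ => True) l) (hlx : TabP reps Ty 4 RelX lx)
    (hl' : TabP reps Tz 4 (fun _ _ => True) l') (hlx' : TabP reps Tz 4 RelX lx')
    {lo hi : ℕ → ℕ} (hs : SizeOK reps lo hi)
    (heq : ∀ m, m = 0 ∨ m = 2 ∨ m = 4 → ∀ u ∈ cubesM Ty j (lo m) (hi m) ρy lx,
      ∀ v ∈ cubesM Tz j (lo m) (hi m) ρz lx', u >>> 1024 = v >>> 1024 →
      LaneDead (HM reps j f m m) u v)
    (hlt : ∀ m m', (m = 0 ∧ m' = 2) ∨ (m = 0 ∧ m' = 4) ∨ (m = 2 ∧ m' = 4) →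
      ∀ u ∈ cubesM Ty j (lo m) (hi m) ρy lx, ∀ v ∈ cubesM Tz j (lo m') (hi m') ρz l',
      u >>> 1024 = v >>> 1024 → LaneDead (HM reps j f m m') u v)
    (hgt : ∀ m m', (m' = 0 ∧ m = 2) ∨ (m' = 0 ∧ m = 4) ∨ (m' = 2 ∧ m = 4) →
      ∀ u ∈ cubesM Ty j (lo m) (hi m) ρy l, ∀ v ∈ cubesM Tz j (lo m') (hi m') ρz lx',
      u >>> 1024 = v >>> 1024 → LaneDead (HM reps j f m m') u v) :
    FrameF reps j f := by
  intro B hB hf
  have hT : InvA (fun _ _ => True) := fun _ _ _ _ => trivial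
  obtain ⟨a, ha⟩ := MM_even hB.best.odd 11
  obtain ⟨b, hb⟩ := MM_even hB.best.odd 10
  have h1 := hB.hy
  have h2 := hB.hz
  have hm : HM reps j f (MM B 11) (MM B 10) B := ⟨⟨hB, hf⟩, rfl, rfl⟩
  have hag := cub_LY_LZ B
  rcases lt_trichotomy (MM B 11) (MM B 10) with h | h | h
  · exact hlt _ _ (by omega) _ (block_ly invA_relX hlx hs hd.fy hd.ty hm (hB.relX_y h.le)) _
      (block_lz hT hl' hs hd.fz hd.tz hm trivial) hag B hm rfl rfl
  · have hm' : HM reps j f (MM B 11) (MM B 11) B := ⟨⟨hB, hf⟩, rfl, h.symm⟩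
    exact heq _ (by omega) _ (block_ly invA_relX hlx hs hd.fy hd.ty hm' (hB.relX_y h.le)) _
      (block_lz invA_relX hlx' hs hd.fz hd.tz hm' (hB.relX_z h.ge)) hag B hm' rfl rfl
  · exact hgt _ _ (by omega) _ (block_ly hT hl hs hd.fy hd.ty hm trivial) _
      (block_lz invA_relX hlx' hs hd.fz hd.tz hm (hB.relX_z h.le)) hag B hm rfl rfl

end Pool.Agent.Helper79.CV
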