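import Mathlib
import Pool.Agent.Helper79.CV.FBlock
import Pool.Agent.Helper91.TY.CRun

/-!
MP_8ee768_co, project TH-Y': stage F, the check of the frame data in cube format.

`cubL ms` is the cube code of a list of masks. `frameChk f Ty wy ny Tz wz nz` checks that the
words `wy`, `wz` (helper91's words of transpositions) move the table types to the links of the
points `11` and `10` in the frame `f`.
-/

set_option autoImplicit false

namespace Pool.Agent.Helper79.CV

open Finset
open Pool.Agent.Helper89.CV (OddCover ofMask)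
open Pool.Agent.Helper97.CV
open Pool.Agent.Helper33.CV
open Pool.Agent.Helper63.SIMD
open Pool.Agent.Helper91.TY
open Pool.Agent.Helper82.TY (below sub_iff_below Best)

/-- the cube code of a list of masks -/
def cubL : List ℕ → ℕ
  | [] => 0
  | m :: ms => Nat.lor (Nat.shiftLeft 1 m) (cubL ms)

theorem testBit_cubL (ms : List ℕ) (j : ℕ) : (cubL ms).testBit j = true ↔ j ∈ ms := by
  induction ms with
  | nil =>
    unfold cubL
    rw [Nat.zero_testBit]
    simp
  | cons m ms ih =>
    have e : cubL (m :: ms) = (1 <<< m) ||| cubL ms := rfl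
    rw [e, Nat.testBit_or, Bool.or_eq_true, ih, Nat.one_shiftLeft, Nat.testBit_two_pow,
      decide_eq_true_eq, List.mem_cons]
    constructor
    · rintro (h | h)
      · exact Or.inl h.symm
      · exact Or.inr h
    · rintro (h | h)
      · exact Or.inl h.symm
      · exact Or.inr h

theorem cub_famL {n : ℕ} (hn : n ≤ 13) {ms : List ℕ} (h : ∀ m ∈ ms, m < 2 ^ n) :
    cub n (famL ms) = cubL ms := by
  have hlt : ∀ m, m < 2 ^ n → m < 2 ^ 13 := fun m hm =>
    lt_of_lt_of_le hm (Nat.pow_le_pow_right (by norm_num) hn)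
  refine Nat.eq_of_testBit_eq fun j => ?_
  rw [Bool.eq_iff_iff, testBit_cubL]
  by_cases hj : j < 2 ^ n
  · rw [testBit_cub _ hj, decide_eq_true_eq, mem_famL]
    constructor
    · rintro ⟨m, hm, h1⟩
      rw [← ofMask_injOn (hlt m (h m hm)) (hlt j hj) h1]
      exact hm
    · exact fun h1 => ⟨j, h1, rfl⟩
  · rw [testBit_cub_ge _ (by omega)]
    constructor
    · intro h1
      exact absurd h1 Bool.false_ne_true
    · intro h1
      exact absurd (h j h1) hj

/-- the cube code of a coded family -/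
def cubF (n k N : ℕ) : ℕ := cubL (decL (L n k) N)

theorem cub_fam {n k : ℕ} (hn : n ≤ 13) (N : ℕ) : cub n (fam n k N) = cubF n k N := by
  unfold cubF
  rw [← famL_decL, cub_famL hn]
  intro m hm
  exact lt_of_mem_L ((sublist_decL _ _).subset hm)

theorem fld_zero {W X : ℕ} (h : X < 2 ^ W) : fld W X 0 = X := by
  unfold fld
  rw [Nat.mul_zero, pow_zero, Nat.div_one, Nat.mod_eq_of_lt h]

theorem runC_one {n : ℕ} (hn : n ≤ 13) {w len : ℕ} (hw : okW n w len = true) (D : Fam) :
    fld (2 ^ n) (runC (2 ^ n * 1) len w (cub n D)) 0 = cub n (mapF (wpc (prs w len)) D) :=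
  fld_runC hn hw Nat.one_pos (fld_zero (cub_lt n D))

theorem cub_injOn {n : ℕ} {D E : Fam} (hD : ∀ s ∈ D, mk s < 2 ^ n) (hE : ∀ s ∈ E, mk s < 2 ^ n)
    (h : cub n D = cub n E) : D = E := cub_injective hD hE h

theorem wpc_fix2 {w len : ℕ} (hw : okW 11 w len = true) : Fix2 (wpc (prs w len)) := by
  have h : ∀ p ∈ prs w len, p.1.val < 11 ∧ p.2.val < 11 := fun p hp => by
    have h1 := prs_lt hw p hp
    omega
  exact ⟨wpc_fix h (by decide), wpc_fix h (by decide)⟩

/-- the digit of the exchange of the points `10` and `11` -/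
def d1011 : ℕ := 186

/-- the check of the frame data, `C` = the cube of the root -/
noncomputable def frameChk (C Ty wy ny Tz wz nz : ℕ) : Bool :=
  okW 11 wy ny && (okW 11 wz nz &&
    (Nat.beq (Nat.mod (runC 2048 ny wy (cubF 11 3 Ty)) (2 ^ 2048)) (Nat.shiftRight C 2048) &&
    Nat.beq (Nat.mod (runC 2048 nz wz (cubF 11 3 Tz)) (2 ^ 2048))
      (Nat.shiftRight (Nat.mod (cstep 4096 d1011 C) (2 ^ 4096)) 2048)))

theorem fld_mod (W X : ℕ) : fld W X 0 = X % 2 ^ W := by
  unfold fld
  rw [Nat.mul_zero, pow_zero, Nat.div_one]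

theorem mk_lt_link {n : Fin 13} {D : Fam} (hD : ∀ s ∈ D, mk s < 2 ^ (n.val + 1)) :
    ∀ s ∈ link D n, mk s < 2 ^ n.val := by
  intro s hs
  rw [mem_link] at hs
  have h1 := hD _ hs.2
  rw [mk_lt_iff] at h1 ⊢
  intro a ha
  have h2 := h1 a (mem_insert_of_mem ha)
  have h3 : a ≠ n := by
    rintro rfl
    exact hs.1 ha
  have h4 : a.val ≠ n.val := fun h => h3 (Fin.ext h)
  omega

theorem frameChk_sound {f Ty wy ny Tz wz nz : ℕ}
    (h : frameChk (cubF 12 4 f) Ty wy ny Tz wz nz = true) :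
    FrameD f Ty Tz (wpc (prs wy ny)) (wpc (prs wz nz)) := by
  unfold frameChk at h
  rw [Bool.and_eq_true, Bool.and_eq_true, Bool.and_eq_true, Nat.beq_eq, Nat.beq_eq] at h
  obtain ⟨h1, h2, h3, h4⟩ := h
  have hy := wpc_fix2 h1
  have hz := wpc_fix2 h2
  have e11 : (11 : Fin 13).val = 11 := rfl
  have hfam : ∀ s ∈ fam 12 4 f, mk s < 2 ^ ((11 : Fin 13).val + 1) := fun s hs =>
    (sub_of_mem_fam (by norm_num) hs).1
  have hT : ∀ T, ∀ ρ : Equiv.Perm (Fin 13), Fix2 ρ → ∀ s ∈ mapF ρ (fam 11 3 T),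
      mk s < 2 ^ 11 := by
    intro T ρ hρ s hs
    rw [mem_mapF'] at hs
    exact (hρ.keeps.symm.sub_iff.1 (sub_of_mem_fam (by norm_num) hs)).1
  have hsh : ∀ D : Fam, cub 12 D >>> 2048 = cub 11 (link D 11) := fun D => cub_shift 11 D
  refine ⟨hy, hz, ?_, ?_⟩
  · refine cub_injOn (n := 11) (hT _ _ hy) ?_ ?_
    · exact mk_lt_link hfam
    · rw [← hsh, cub_fam (by norm_num), ← runC_one (by norm_num) h1, fld_mod,
        cub_fam (by norm_num)]
      exact h3
  · have hsw : cub 12 (mapF (Equiv.swap 10 11) (fam 12 4 f)) =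
        (cstep 4096 d1011 (cub 12 (fam 12 4 f))) % 2 ^ 4096 := by
      have h5 := fld_cswap_cub (i := 10) (j := 11) (n := 12) (N := 1) (by decide) (by decide)
        (by norm_num) Nat.one_pos (fld_zero (cub_lt 12 (fam 12 4 f)))
      rw [fld_mod] at h5
      exact h5.symm
    refine cub_injOn (n := 11) (hT _ _ hz) ?_ ?_
    · refine mk_lt_link fun s hs => ?_
      rw [mem_mapF'] at hs
      have hk : Keeps 12 (Equiv.swap (10 : Fin 13) 11) :=
        keeps_twelve (Equiv.swap_apply_of_ne_of_ne (by decide) (by decide))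
      exact (hk.symm.sub_iff.1 (sub_of_mem_fam (n := 12) (by norm_num) hs)).1
    · rw [← hsh, hsw, cub_fam (by norm_num), ← runC_one (by norm_num) h2, fld_mod,
        cub_fam (by norm_num)]
      exact h4

end Pool.Agent.Helper79.CV
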