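import Mathlib
import Pool.Agent.Helper79.CV.FReps
import Pool.Agent.Helper44.TY.TabF
import Pool.Agent.Helper16.TY.RunFin

/-!
MP_8ee768_co, project TH-Y': stage F, the 466 classes from the classification of all odd covers
with at most 60 blocks: every other class of helper16's table has at least 60 members.
-/

set_option autoImplicit false
set_option maxRecDepth 100000
set_option exponentiation.threshold 20000

namespace Pool.Agent.Helper79.CV

open Finset
open Pool.Agent.Helper89.CV (OddCover ofMask)
open Pool.Agent.Helper97.CV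
open Pool.Agent.Helper63.SIMD
open Pool.Agent.Helper82.TY (popR popR_eq_pop below force force_eq)
open Pool.Agent.Helper97.CV
open Pool.Agent.Helper16.TY (Tr)
open Pool.Agent.Helper44.TY (memN memN_iff clsOK_of_rootOK)

/-- representative of the list or at least 60 members -/
noncomputable def smallOK (v : ℕ) : Bool :=
  force (Nat.mod v (2 ^ 495)) fun r => Nat.ble 60 (popR r) || memN repsF r

/-- test of `n` fields of width `w` -/
noncomputable def walk (w : ℕ) (f : ℕ → Bool) (n : ℕ) : ℕ → Bool :=
  @Nat.rec (fun _ => ℕ → Bool) (fun _ => true)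
    (fun _ ih X => force (Nat.mod X (2 ^ w)) f && force (Nat.shiftRight X w) ih) n

theorem walk_sound {w : ℕ} {f : ℕ → Bool} {n X : ℕ} (h : walk w f n X = true) {i : ℕ}
    (hi : i < n) : f (fld w X i) = true := by
  induction n generalizing X i with
  | zero => exact absurd hi (Nat.not_lt_zero _)
  | succ n ih =>
    have e : walk w f (n + 1) X = (force (Nat.mod X (2 ^ w)) f &&
      force (Nat.shiftRight X w) (walk w f n)) := rfl
    rw [e, Bool.and_eq_true, force_eq, force_eq] at h
    cases i with
    | zero =>
      have e2 : fld w X 0 = X % 2 ^ w := by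
        unfold fld
        rw [Nat.mul_zero, pow_zero, Nat.div_one]
      rw [e2]
      exact h.1
    | succ i =>
      have h1 := ih h.2 (Nat.lt_of_succ_lt_succ hi)
      have e2 : fld w (Nat.shiftRight X w) i = fld w X (i + 1) := by
        unfold fld
        have e3 : Nat.shiftRight X w = X / 2 ^ w := Nat.shiftRight_eq_div_pow X w
        rw [e3, Nat.div_div_eq_div_mul, ← pow_add, Nat.mul_succ, Nat.add_comm w (w * i)]
      rw [← e2]
      exact h1

theorem fld_fld {w k X b i : ℕ} (hi : i < k) :
    fld w (fld (w * k) X b) i = fld w X (k * b + i) := by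
  unfold fld
  apply Nat.eq_of_testBit_eq
  intro t
  rw [Nat.testBit_mod_two_pow, Nat.testBit_mod_two_pow, Nat.testBit_div_two_pow,
    Nat.testBit_mod_two_pow, Nat.testBit_div_two_pow, Nat.testBit_div_two_pow]
  by_cases ht : t < w
  · have h1 : t + w * i < w * k := by
      calc t + w * i < w + w * i := by omega
        _ = w * (i + 1) := by ring
        _ ≤ w * k := Nat.mul_le_mul_left w hi
    have h2 : t + w * i + w * k * b = t + w * (k * b + i) := by ring
    simp only [ht, h1, h2, decide_true, Bool.true_and]
  · simp only [ht, decide_false, Bool.false_and]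

/-- all the leaves of the tree -/
noncomputable def allT (f : ℕ → Bool) (t : Tr) : Bool :=
  @Tr.rec (fun _ => Bool) (fun n => force n f) (fun _ _ a b => a && b) t

theorem allT_sound {f : ℕ → Bool} {t : Tr} (h : allT f t = true) :
    t.All fun n => f n = true := by
  induction t with
  | lf n =>
    have h1 : force n f = true := h
    rw [force_eq] at h1
    exact h1
  | nd a b iha ihb =>
    have h1 : (allT f a && allT f b) = true := h
    rw [Bool.and_eq_true] at h1
    exact ⟨iha h1.1, ihb h1.2⟩

/-- the test of a group -/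
noncomputable def grpOK (X : ℕ) : Bool := walk 15872 (walk 512 smallOK 31) 8 X

theorem grp_sound {X : ℕ} (h : grpOK X = true) {i : ℕ} (hi : i < 248) :
    smallOK (fld 512 X i) = true := by
  have hb : i / 31 < 8 := by omega
  have h1 := walk_sound h hb
  have h2 := walk_sound h1 (Nat.mod_lt i (show 0 < 31 by norm_num))
  have h3 := fld_fld (w := 512) (k := 31) (X := X) (b := i / 31)
    (Nat.mod_lt i (show 0 < 31 by norm_num))
  rw [show 512 * 31 = 15872 from rfl, Nat.div_add_mod] at h3
  rw [← h3]
  exact h2

theorem tree_small : allT grpOK Pool.Agent.Helper16.TY.Tab.tree = true := by decide +kernel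

theorem small_of_mem {r : ℕ} (hr : r ∈ Pool.Agent.Helper16.TY.reps) :
    r ∈ repsF ∨ 114 + 4 < 2 * (fam 12 4 r).card := by
  unfold Pool.Agent.Helper16.TY.reps at hr
  rw [List.mem_map] at hr
  obtain ⟨j, -, rfl⟩ := hr
  have h1 : smallOK (Pool.Agent.Helper16.TY.Tab.tv j) = true := by
    unfold Pool.Agent.Helper16.TY.Tab.tv
    rw [Pool.Agent.Helper16.TY.val_eq]
    exact grp_sound (Tr.all_get (allT_sound tree_small) _) (Nat.mod_lt _ (by norm_num))
  unfold smallOK at h1
  rw [force_eq, Bool.or_eq_true, memN_iff] at h1
  have e : Nat.mod (Pool.Agent.Helper16.TY.Tab.tv j) (2 ^ 495) =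
    Pool.Agent.Helper16.TY.Tab.rp j := rfl
  rw [e] at h1
  have hlt : Pool.Agent.Helper16.TY.Tab.rp j < 2 ^ 495 := Nat.mod_lt _ (by positivity)
  rcases h1 with h1 | h1
  · right
    have h2 := Nat.le_of_ble_eq_true h1
    rw [popR_eq_pop] at h2
    have h3 := Pool.Agent.Helper82.TY.card_eq_pop (n := 12) (k := 4) (by norm_num)
      (D := fam 12 4 (Pool.Agent.Helper16.TY.Tab.rp j))
      (fun s hs => sub_of_mem_fam (by norm_num) hs)
    rw [enc_fam (by norm_num) (by rw [show (12 : ℕ).choose 4 = 495 by decide]; exact hlt)] at h3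
    rw [h3]
    omega
  · exact Or.inl h1

/-- **the 466 classes from the classes with at most 60 members** -/
theorem clsOK_repsF (h : RootOK 6 (fun _ => True) Pool.Agent.Helper16.TY.reps) :
    ClsOK 4 repsF :=
  clsOK_of_rootOK (by norm_num) h fun _ hr => small_of_mem hr

end Pool.Agent.Helper79.CV
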