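import Mathlib
import Pool.Agent.Helper79.CV.FBlock
import Pool.Agent.Helper55.TY.M10
import Pool.Agent.Helper28.TY.K3

/-!
MP_8ee768_co, project TH-Y': what the two lanes of a frame `12, 11, 10` say about the pair word of
the known blocks (the start of helper55's search), and about the excesses of the pairs.
-/

set_option autoImplicit false

namespace Pool.Agent.Helper79.CV

open Finset
open Pool.Agent.Helper89.CV (OddCover ofMask)
open Pool.Agent.Helper97.CV
open Pool.Agent.Helper33.CV
open Pool.Agent.Helper82.TY (below sub_iff_below Best)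
open Pool.Agent.Helper28.TY (R10 KB P12 Pz bad2 Lam_KB lk)
open Pool.Agent.Helper55.TY.M10 (Dec B5 Q4)

theorem R10_eq_below : R10 = below 10 := rfl

/-- the known blocks -/
theorem dec_eq_KB {B : Fam} (hB : ∀ b ∈ B, b.card = 5) : Dec B B5 = KB B := by
  unfold Dec KB
  refine filter_congr fun b hb => not_congr ?_
  unfold B5
  rw [List.mem_toFinset, mem_L (by norm_num), ofMask_mk]
  constructor
  · rintro ⟨h1, -⟩ a ha
    rw [R10_eq_below, mem_below]
    exact mk_lt_iff.1 h1 a ha
  · intro h
    refine ⟨mk_lt_iff.2 fun a ha => ?_, hB b hb⟩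
    have h1 := h ha
    rw [R10_eq_below, mem_below] at h1
    exact h1

/-- bad quads in a sum of excesses -/
theorem card_le_sum_ex {B : Fam} {A : Fam} {P : Finset (Fin 13) → Prop} [DecidablePred P]
    (hA : ∀ q ∈ A, q.card = 4 ∧ P q ∧ 3 ≤ cnt B q) :
    A.card ≤ ∑ q ∈ quads.filter P, ex B q := by
  have h1 : A ⊆ quads.filter P := fun q hq =>
    mem_filter.2 ⟨mem_quads.2 (hA q hq).1, (hA q hq).2.1⟩
  calc A.card = ∑ _q ∈ A, 1 := by rw [sum_const, smul_eq_mul, mul_one]
    _ ≤ ∑ q ∈ A, ex B q := sum_le_sum fun q hq => by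
        have := (hA q hq).2.2
        unfold ex
        omega
    _ ≤ ∑ q ∈ quads.filter P, ex B q := sum_le_sum_of_subset h1

/-- the triples of the lane `F` through `s` -/
def tri (F : Fam) (s : Finset (Fin 13)) : Fam :=
  ((below 10).powersetCard 3).filter fun t => s ⊆ t ∧ t ∈ F

theorem mem_tri {F : Fam} {s t : Finset (Fin 13)} :
    t ∈ tri F s ↔ (t ⊆ below 10 ∧ t.card = 3) ∧ s ⊆ t ∧ t ∈ F := by
  unfold tri
  rw [mem_filter, mem_powersetCard]

theorem notMem_below_ge {s : Finset (Fin 13)} (h : s ⊆ below 10) {k : Fin 13}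
    (hk : 10 ≤ k.val) : k ∉ s := notMem_of_subset_below h hk

/-- `insert k` on sets of outside points -/
theorem card_image_insert {A : Fam} {k : Fin 13} (hk : 10 ≤ k.val)
    (hA : ∀ t ∈ A, t ⊆ below 10) : (A.image (insert k)).card = A.card := by
  refine card_image_of_injOn fun a ha b hb hab => ?_
  have h1 := notMem_below_ge (hA a ha) hk
  have h2 := notMem_below_ge (hA b hb) hk
  have h3 := congrArg (fun x => x.erase k) hab
  simp only [erase_insert h1, erase_insert h2] at h3
  exact h3

theorem tri_LY {B : Fam} (hB : OddCover B) {s t : Finset (Fin 13)} (h : t ∈ tri (LY B) s) :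
    3 ≤ cnt B (insert 11 t) := by
  rw [mem_tri] at h
  obtain ⟨⟨h1, h2⟩, -, h4⟩ := h
  rw [mem_LY (h1.trans (below_mono (by norm_num)))] at h4
  rcases h4 with h4 | h4 | h4
  · have h5 := hB.1 _ h4
    rw [card_insert_of_notMem (notMem_below_ge h1 (by decide)), h2] at h5
    omega
  · exact h4.2
  · omega

theorem tri_LZ {B : Fam} (hB : OddCover B) {s t : Finset (Fin 13)} (h : t ∈ tri (LZ B) s) :
    3 ≤ cnt B (insert 10 t) := by
  rw [mem_tri] at h
  obtain ⟨⟨h1, h2⟩, -, h4⟩ := h
  rw [mem_LZ h1] at h4
  rcases h4 with h4 | h4 | h4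
  · have h5 := hB.1 _ h4
    rw [card_insert_of_notMem (notMem_below_ge h1 (by decide)), h2] at h5
    omega
  · exact h4.2
  · omega

/-- the excess of the quads through `12` and `s` -/
theorem sum_ex_twelve {B : Fam} (hB : OddCover B) {s : Finset (Fin 13)} (hs : s ⊆ below 10)
    (h2 : s.card = 2) :
    5 + ∑ q ∈ quads.filter (fun q => s ⊆ q ∧ 12 ∈ q), ex B q = cnt (link B 12) s := by
  have h12 : (12 : Fin 13) ∉ s := notMem_below_ge hs (by decide)
  rw [cnt_link B h12, cnt_triple hB (by rw [card_insert_of_notMem h12, h2])]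
  unfold Lam LamW
  congr 1
  refine sum_congr (filter_congr fun q _ => ?_) fun _ _ => rfl
  rw [insert_subset_iff]
  exact and_comm

/-- **the pair word of the known blocks** -/
theorem pair_le {B : Fam} (hB : OddCover B) {s : Finset (Fin 13)} (hs : s ⊆ below 10)
    (h2 : s.card = 2) :
    cnt (link B 12) s + ((tri (LY B) s).card + (if insert 10 s ∈ LY B then 1 else 0)) +
      (tri (LZ B) s).card + bad2 B s ≤ Lam (Dec B B5) s + 5 := by
  have h10 : (10 : Fin 13) ∉ s := notMem_below_ge hs (by decide)
  have h11 : (11 : Fin 13) ∉ s := notMem_below_ge hs (by decide)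
  have h12 : (12 : Fin 13) ∉ s := notMem_below_ge hs (by decide)
  rw [dec_eq_KB hB.1, Lam_KB hB.1]
  have e1 : P12 B s = ∑ q ∈ quads.filter (fun q => s ⊆ q ∧ 12 ∈ q), ex B q +
      ∑ q ∈ quads.filter (fun q => s ⊆ q ∧ (11 ∈ q ∧ 12 ∉ q)), ex B q := by
    unfold P12
    rw [sum_filter, sum_filter, sum_filter, ← sum_add_distrib]
    refine sum_congr rfl fun q _ => ?_
    by_cases a1 : s ⊆ q <;> by_cases a2 : (12 : Fin 13) ∈ q <;> by_cases a3 : (11 : Fin 13) ∈ q <;>
      simp [a1, a2, a3]
  have e2 := sum_ex_twelve hB hs h2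
  have e3 : (tri (LY B) s).card + (if insert 10 s ∈ LY B then 1 else 0) ≤
      ∑ q ∈ quads.filter (fun q => s ⊆ q ∧ (11 ∈ q ∧ 12 ∉ q)), ex B q := by
    have hA : ∀ t ∈ tri (LY B) s, t ⊆ below 10 := fun t ht => (mem_tri.1 ht).1.1
    have c1 := card_image_insert (A := tri (LY B) s) (k := 11) (by decide) hA
    have hq1 : ∀ q ∈ (tri (LY B) s).image (insert 11),
        q.card = 4 ∧ (s ⊆ q ∧ (11 ∈ q ∧ (12 : Fin 13) ∉ q)) ∧ 3 ≤ cnt B q := by
      intro q hq
      rw [mem_image] at hq
      obtain ⟨t, ht, rfl⟩ := hq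
      have h3 := mem_tri.1 ht
      refine ⟨?_, ⟨h3.2.1.trans (subset_insert _ _), mem_insert_self _ _, ?_⟩, tri_LY hB ht⟩
      · rw [card_insert_of_notMem (notMem_below_ge h3.1.1 (by decide)), h3.1.2]
      · rw [mem_insert, not_or]
        exact ⟨by decide, notMem_below_ge h3.1.1 (by decide)⟩
    by_cases h : insert 10 s ∈ LY B
    · rw [if_pos h, ← c1]
      have h4 : 3 ≤ cnt B (insert 11 (insert 10 s)) := by
        rw [mem_LY] at h
        · rcases h with h | h | h
          · have h5 := hB.1 _ h
            rw [card_insert_of_notMem, card_insert_of_notMem h10, h2] at h5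
            · omega
            · rw [mem_insert, not_or]
              exact ⟨by decide, h11⟩
          · exact h.2
          · have h5 := h.1
            rw [card_insert_of_notMem h10, h2] at h5
            omega
        · intro a ha
          rw [mem_insert] at ha
          rcases ha with rfl | ha
          · exact mem_below.2 (by decide)
          · exact below_mono (by norm_num) (hs ha)
      have h5 : insert 11 (insert 10 s) ∉ (tri (LY B) s).image (insert 11) := by
        intro h6
        rw [mem_image] at h6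
        obtain ⟨t, ht, h7⟩ := h6
        have h8 : (10 : Fin 13) ∈ insert 11 t := by
          rw [h7]
          exact mem_insert_of_mem (mem_insert_self _ _)
        rw [mem_insert] at h8
        rcases h8 with h8 | h8
        · exact absurd h8 (by decide)
        · exact notMem_below_ge (hA t ht) (by decide) h8
      rw [← card_insert_of_notMem h5]
      refine card_le_sum_ex fun q hq => ?_
      rw [mem_insert] at hq
      rcases hq with rfl | hq
      · refine ⟨?_, ⟨(subset_insert _ _).trans (subset_insert _ _), mem_insert_self _ _, ?_⟩, h4⟩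
        · rw [card_insert_of_notMem, card_insert_of_notMem h10, h2]
          rw [mem_insert, not_or]
          exact ⟨by decide, h11⟩
        · rw [mem_insert, mem_insert, not_or, not_or]
          exact ⟨by decide, by decide, h12⟩
      · exact hq1 q hq
    · rw [if_neg h, add_zero, ← c1]
      exact card_le_sum_ex hq1
  have e4 : (tri (LZ B) s).card ≤ Pz B s := by
    have hA : ∀ t ∈ tri (LZ B) s, t ⊆ below 10 := fun t ht => (mem_tri.1 ht).1.1
    have c1 := card_image_insert (A := tri (LZ B) s) (k := 10) (by decide) hA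
    rw [← c1]
    refine card_le_sum_ex fun q hq => ?_
    rw [mem_image] at hq
    obtain ⟨t, ht, rfl⟩ := hq
    have h3 := mem_tri.1 ht
    refine ⟨?_, ⟨h3.2.1.trans (subset_insert _ _), mem_insert_self _ _, ?_, ?_⟩, tri_LZ hB ht⟩
    · rw [card_insert_of_notMem (notMem_below_ge h3.1.1 (by decide)), h3.1.2]
    · rw [mem_insert, not_or]
      exact ⟨by decide, notMem_below_ge h3.1.1 (by decide)⟩
    · rw [mem_insert, not_or]
      exact ⟨by decide, notMem_below_ge h3.1.1 (by decide)⟩
  omega

/-! ### excesses of pairs -/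

theorem single_LY {B : Fam} (hB : OddCover B) {z : Fin 13} (hz : z.val < 10) :
    {z} ∈ LY B ↔ 1 ≤ mm B 11 z := by
  have h1 : ({z} : Finset (Fin 13)) ⊆ below 11 := by
    rw [singleton_subset_iff, mem_below]
    omega
  have hne : (11 : Fin 13) ≠ z := by
    rintro rfl
    exact absurd hz (by decide)
  have h2 : insert 11 {z} = ({11, z} : Finset (Fin 13)) := rfl
  rw [mem_LY h1, h2, cnt_pair hB hne, card_singleton]
  constructor
  · rintro (h | h | h)
    · have h5 := hB.1 _ h
      rw [card_pair hne] at h5
      omega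
    · omega
    · omega
  · intro h
    right
    right
    omega

theorem single_LZ {B : Fam} (hB : OddCover B) {z : Fin 13} (hz : z.val < 10) :
    {z} ∈ LZ B ↔ 1 ≤ mm B 10 z := by
  have h1 : ({z} : Finset (Fin 13)) ⊆ below 10 := by
    rw [singleton_subset_iff, mem_below]
    omega
  have hne : (10 : Fin 13) ≠ z := by
    rintro rfl
    exact absurd hz (by decide)
  have h2 : insert 10 {z} = ({10, z} : Finset (Fin 13)) := rfl
  rw [mem_LZ h1, h2, cnt_pair hB hne, card_singleton]
  constructor
  · rintro (h | h | h)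
    · have h5 := hB.1 _ h
      rw [card_pair hne] at h5
      omega
    · omega
    · omega
  · intro h
    right
    right
    omega

/-- the excess with `12` is the degree in the root -/
theorem mm_twelve {B : Fam} (hB : OddCover B) {z : Fin 13} (hz : z.val < 10) :
    cnt (link B 12) {z} = 19 + 2 * mm B 12 z := by
  have hne : (12 : Fin 13) ≠ z := by
    rintro rfl
    exact absurd hz (by decide)
  rw [cnt_link B (by rw [mem_singleton]; exact hne), ← cnt_pair hB hne]

/-! ### parities and links -/

theorem four_LY {B : Fam} {q : Finset (Fin 13)} (hq : q ⊆ below 10) (h4 : q.card = 4) :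
    q ∈ LY B ↔ insert 11 q ∈ B := by
  rw [mem_LY (hq.trans (below_mono (by norm_num))), h4]
  constructor
  · rintro (h | h | h)
    · exact h
    · omega
    · omega
  · exact Or.inl

theorem four_LZ {B : Fam} {q : Finset (Fin 13)} (hq : q ⊆ below 10) (h4 : q.card = 4) :
    q ∈ LZ B ↔ insert 10 q ∈ B := by
  rw [mem_LZ hq, h4]
  constructor
  · rintro (h | h | h)
    · exact h
    · omega
    · omega
  · exact Or.inl

end Pool.Agent.Helper79.CV
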