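import Mathlib
import Pool.Agent.Helper79.CV.FBlock

/-!
MP_8ee768_co, project TH-Y': tables modulo the automorphisms of the type.

`TabA reps T cap P A l`: every family over `fam 11 3 T` is `mapF α (ent T e)` for an entry
`(k, e)` of `l` and a member `α` of `A`. The lanes of a frame are then the cubes
`cub 11 (mapF (ρ * α) (laneF (ent T e)))`.
-/

set_option autoImplicit false

namespace Pool.Agent.Helper79.CV

open Finset
open Pool.Agent.Helper89.CV (OddCover ofMask)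
open Pool.Agent.Helper97.CV
open Pool.Agent.Helper33.CV
open Pool.Agent.Helper82.TY (below sub_iff_below Best)

/-- completeness of a list of entries modulo a set of permutations -/
def TabA (reps : List ℕ) (T cap : ℕ) (P : Fam → Fin 13 → Prop) (A : Set (Equiv.Perm (Fin 13)))
    (l : List (ℕ × ℕ)) : Prop :=
  ∀ D : Fam, OddFam 3 (below 12) D → link D 11 = fam 11 3 T → 2 * D.card ≤ 114 + cap → P D 11 →
    ∃ k e, (k, e) ∈ l ∧ ∃ α ∈ A, Fix2 α ∧ Cls reps k D ∧ D = mapF α (ent T e)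

theorem tabA_of_tabP {reps : List ℕ} {T cap : ℕ} {P : Fam → Fin 13 → Prop} {l : List (ℕ × ℕ)}
    (h : TabP reps T cap P l) : TabA reps T cap P {1} l := by
  intro D h1 h2 h3 h4
  obtain ⟨k, e, h5, h6, h7⟩ := h D h1 h2 h3 h4
  refine ⟨k, e, h5, 1, rfl, ⟨rfl, rfl⟩, h6, ?_⟩
  rw [mapF_one]
  exact eq_ent h2 h7

theorem TabA.mono {reps : List ℕ} {T cap : ℕ} {P P' : Fam → Fin 13 → Prop}
    {A : Set (Equiv.Perm (Fin 13))} {l : List (ℕ × ℕ)} (h : TabA reps T cap P A l)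
    (hP : ∀ D a, P' D a → P D a) : TabA reps T cap P' A l :=
  fun D h1 h2 h3 h4 => h D h1 h2 h3 (hP _ _ h4)

/-- the full linkage modulo automorphisms -/
theorem moved_memA {reps : List ℕ} {T cap j : ℕ} {P : Fam → Fin 13 → Prop}
    (hP : InvA P) {A : Set (Equiv.Perm (Fin 13))} {l : List (ℕ × ℕ)}
    (hT : TabA reps T cap P A l) {B : Fam} (hB : OddCover B)
    {y : Fin 13} {σ : Equiv.Perm (Fin 13)} (h12 : σ 12 = 12) (hy : σ y = 11)
    (hσT : mapF σ (link (link B 12) y) = fam 11 3 T) (hM : MM B y ≤ cap)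
    (hPy : P (link B y) 12) (hj : From reps j (link B y)) :
    ∃ k e, (k, e) ∈ l ∧ j ≤ k ∧ (∃ α ∈ A, Fix2 α ∧ moved σ B y = mapF α (ent T e)) ∧
      Cls reps k (link B y) := by
  have h1 := moved_link h12 hσT
  have h2 := moved_card hB (σ := σ) (y := y)
  have h3 : P (moved σ B y) 11 := by
    have h4 := hP (sw * σ) _ _ hPy
    rwa [Equiv.Perm.mul_apply, h12, sw12] at h4
  obtain ⟨k, e, h4, α, hα, hf, h5, h6⟩ := hT _ (moved_odd hB hy) h1 (by omega) h3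
  unfold moved at h5
  rw [cls_mapF] at h5
  refine ⟨k, e, h4, ?_, ⟨α, hα, hf, h6⟩, h5⟩
  by_contra h7
  exact hj k (by omega) h5

theorem moved_memA_fix {reps : List ℕ} {T cap j : ℕ} {P : Fam → Fin 13 → Prop}
    (hP : InvA P) {A : Set (Equiv.Perm (Fin 13))} {l : List (ℕ × ℕ)}
    (hT : TabA reps T cap P A l) {B : Fam} (hB : OddCover B)
    {D : Fam} (hf : link B 12 = D)
    {y : Fin 13} {σ : Equiv.Perm (Fin 13)} (h12 : σ 12 = 12) (hy : σ y = 11)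
    {ρ : Equiv.Perm (Fin 13)} (hρ : Fix2 ρ)
    (hρT : mapF ρ (fam 11 3 T) = link (mapF σ D) 11) (hM : MM B y ≤ cap)
    (hPy : P (link B y) 12) (hj : From reps j (link B y)) :
    ∃ k e, (k, e) ∈ l ∧ j ≤ k ∧ (∃ α ∈ A, Fix2 α ∧ moved σ B y = mapF (ρ * α) (ent T e)) ∧
      Cls reps k (link B y) := by
  have e1 : (ρ.symm * σ) 12 = 12 := by rw [Equiv.Perm.mul_apply, h12, hρ.symm.2]
  have e2 : (ρ.symm * σ) y = 11 := by rw [Equiv.Perm.mul_apply, hy, hρ.symm.1]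
  have h1 : mapF (ρ.symm * σ) (link (link B 12) y) = fam 11 3 T := by
    rw [hf, mapF_mul, ← link_mapF σ D y, hy, ← hρT, mapF_symm_mapF]
  obtain ⟨k, e, h2, h3, ⟨α, hα, hfα, h4⟩, h9⟩ := moved_memA hP hT hB e1 e2 h1 hM hPy hj
  refine ⟨k, e, h2, h3, ⟨α, hα, hfα, ?_⟩, h9⟩
  rw [mapF_mul, ← h4]
  unfold moved
  rw [← mapF_mul]
  congr 1
  ext a
  simp only [Equiv.Perm.mul_apply]
  congr 1
  by_cases h11 : σ a = 11
  · rw [h11, hρ.symm.1, sw11, hρ.2]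
  · by_cases h12' : σ a = 12
    · rw [h12', hρ.symm.2, sw12, hρ.1]
    · have h5 : ρ.symm (σ a) ≠ 11 := fun h => h11 (by
        rw [Equiv.symm_apply_eq, hρ.1] at h
        exact h)
      have h6 : ρ.symm (σ a) ≠ 12 := fun h => h12' (by
        rw [Equiv.symm_apply_eq, hρ.2] at h
        exact h)
      rw [sw_of_ne h11 h12', sw_of_ne h5 h6, Equiv.apply_symm_apply]

theorem Fix2.mul {ρ α : Equiv.Perm (Fin 13)} (h1 : Fix2 ρ) (h2 : Fix2 α) : Fix2 (ρ * α) :=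
  ⟨by rw [Equiv.Perm.mul_apply, h2.1, h1.1], by rw [Equiv.Perm.mul_apply, h2.2, h1.2]⟩

/-- the cubes of the entries, relabelled by `ρ * α`, classes in `[max j lo, hi)` -/
def cubesA (T j lo hi : ℕ) (ρ : Equiv.Perm (Fin 13)) (A : Set (Equiv.Perm (Fin 13)))
    (l : List (ℕ × ℕ)) : Set ℕ :=
  {u | ∃ k e, (k, e) ∈ l ∧ j ≤ k ∧ (lo ≤ k ∧ k < hi) ∧
    ∃ α ∈ A, u = cub 11 (mapF (ρ * α) (laneF (ent T e)))}

theorem block_lyA {reps : List ℕ} {T j f m m' : ℕ} {P : Fam → Fin 13 → Prop} (hP : InvA P)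
    {A : Set (Equiv.Perm (Fin 13))} {l : List (ℕ × ℕ)} (hT : TabA reps T 4 P A l)
    {lo hi : ℕ → ℕ} (hs : SizeOK reps lo hi) {ρ : Equiv.Perm (Fin 13)} (hρ : Fix2 ρ)
    (hρT : mapF ρ (fam 11 3 T) = link (fam 12 4 f) 11) {B : Fam} (h : HM reps j f m m' B)
    (hPy : P (link B 11) 12) : cub 11 (LY B) ∈ cubesA T j (lo m) (hi m) ρ A l := by
  obtain ⟨⟨hq, hf⟩, h1, h2⟩ := h
  obtain ⟨k, e, h3, h4, ⟨α, hα, hfα, h5⟩, h6⟩ := moved_memA_fix hP hT hq.best.odd hf (σ := 1)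
    (y := 11) rfl rfl hρ (by rw [mapF_one]; exact hρT) hq.hy hPy hq.from_y
  have h7 := size_of_moved hs hq.best.odd h6 hq.hy
  rw [h1] at h7
  exact ⟨k, e, h3, h4, h7, α, hα, by unfold LY; rw [h5, laneF_mapF (hρ.mul hfα)]⟩

theorem block_lzA {reps : List ℕ} {T j f m m' : ℕ} {P : Fam → Fin 13 → Prop} (hP : InvA P)
    {A : Set (Equiv.Perm (Fin 13))} {l : List (ℕ × ℕ)} (hT : TabA reps T 4 P A l)
    {lo hi : ℕ → ℕ} (hs : SizeOK reps lo hi) {ρ : Equiv.Perm (Fin 13)} (hρ : Fix2 ρ)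
    (hρT : mapF ρ (fam 11 3 T) = link (mapF (Equiv.swap 10 11) (fam 12 4 f)) 11) {B : Fam}
    (h : HM reps j f m m' B) (hPz : P (link B 10) 12) :
    cub 11 (LZ B) ∈ cubesA T j (lo m') (hi m') ρ A l := by
  obtain ⟨⟨hq, hf⟩, h1, h2⟩ := h
  obtain ⟨k, e, h3, h4, ⟨α, hα, hfα, h5⟩, h6⟩ := moved_memA_fix hP hT hq.best.odd hf
    (σ := Equiv.swap 10 11) (y := 10)
    (Equiv.swap_apply_of_ne_of_ne (by decide) (by decide)) (Equiv.swap_apply_left _ _) hρ hρT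
    hq.hz hPz hq.from_z
  have h7 := size_of_moved hs hq.best.odd h6 hq.hz
  rw [h2] at h7
  exact ⟨k, e, h3, h4, h7, α, hα, by unfold LZ; rw [h5, laneF_mapF (hρ.mul hfα)]⟩

/-- **a frame of stage F is dead if all its blocks are** (tables modulo automorphisms) -/
theorem frameF_of_blocksA {reps : List ℕ} {j f Ty Tz : ℕ} {ρy ρz : Equiv.Perm (Fin 13)}
    (hd : FrameD f Ty Tz ρy ρz) {A A' : Set (Equiv.Perm (Fin 13))}
    {l lx l' lx' : List (ℕ × ℕ)}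
    (hl : TabA reps Ty 4 (fun _ _ => True) A l) (hlx : TabA reps Ty 4 RelX A lx)
    (hl' : TabA reps Tz 4 (fun _ _ => True) A' l') (hlx' : TabA reps Tz 4 RelX A' lx')
    {lo hi : ℕ → ℕ} (hs : SizeOK reps lo hi)
    (heq : ∀ m, m = 0 ∨ m = 2 ∨ m = 4 → ∀ u ∈ cubesA Ty j (lo m) (hi m) ρy A lx,
      ∀ v ∈ cubesA Tz j (lo m) (hi m) ρz A' lx', u >>> 1024 = v >>> 1024 →
      LaneDead (HM reps j f m m) u v)
    (hlt : ∀ m m', (m = 0 ∧ m' = 2) ∨ (m = 0 ∧ m' = 4) ∨ (m = 2 ∧ m' = 4) →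
      ∀ u ∈ cubesA Ty j (lo m) (hi m) ρy A lx, ∀ v ∈ cubesA Tz j (lo m') (hi m') ρz A' l',
      u >>> 1024 = v >>> 1024 → LaneDead (HM reps j f m m') u v)
    (hgt : ∀ m m', (m' = 0 ∧ m = 2) ∨ (m' = 0 ∧ m = 4) ∨ (m' = 2 ∧ m = 4) →
      ∀ u ∈ cubesA Ty j (lo m) (hi m) ρy A l, ∀ v ∈ cubesA Tz j (lo m') (hi m') ρz A' lx',
      u >>> 1024 = v >>> 1024 → LaneDead (HM reps j f m m') u v) :
    FrameF reps j f := by
  intro B hB hf
  have hT : InvA (fun _ _ => True) := fun _ _ _ _ => trivial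
  obtain ⟨a, ha⟩ := MM_even hB.best.odd 11
  obtain ⟨b, hb⟩ := MM_even hB.best.odd 10
  have h1 := hB.hy
  have h2 := hB.hz
  have hm : HM reps j f (MM B 11) (MM B 10) B := ⟨⟨hB, hf⟩, rfl, rfl⟩
  have hag := cub_LY_LZ B
  rcases lt_trichotomy (MM B 11) (MM B 10) with h | h | h
  · exact hlt _ _ (by omega) _ (block_lyA invA_relX hlx hs hd.fy hd.ty hm (hB.relX_y h.le)) _
      (block_lzA hT hl' hs hd.fz hd.tz hm trivial) hag B hm rfl rfl
  · have hm' : HM reps j f (MM B 11) (MM B 11) B := ⟨⟨hB, hf⟩, rfl, h.symm⟩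
    exact heq _ (by omega) _ (block_lyA invA_relX hlx hs hd.fy hd.ty hm' (hB.relX_y h.le)) _
      (block_lzA invA_relX hlx' hs hd.fz hd.tz hm' (hB.relX_z h.ge)) hag B hm' rfl rfl
  · exact hgt _ _ (by omega) _ (block_lyA hT hl hs hd.fy hd.ty hm trivial) _
      (block_lzA invA_relX hlx' hs hd.fz hd.tz hm (hB.relX_z h.le)) hag B hm rfl rfl

end Pool.Agent.Helper79.CV
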