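import Mathlib
import Pool.Agent.Helper79.CV.FastCub
import Pool.Agent.Helper82.TY.PopR

/-!
MP_8ee768_co, project TH-Y': stage F, from the representatives to the frames, in cube format.

`rootOK2 r fr cs`: every pair of points of degree 19 of the root `r` is moved by a word of
exchanges to the points `11, 10`, and the root to a frame of the list `fr`. One certificate per
pair: `c = n + 2 ^ 8 * (number of the frame) + 2 ^ 32 * w`, `w` a word with `n` digits.
-/

set_option autoImplicit false
set_option maxRecDepth 100000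
set_option exponentiation.threshold 5000

namespace Pool.Agent.Helper79.CV

open Finset
open Pool.Agent.Helper89.CV (OddCover ofMask)
open Pool.Agent.Helper97.CV
open Pool.Agent.Helper33.CV
open Pool.Agent.Helper91.TY
open Pool.Agent.Helper82.TY (popR popR_eq_pop supM cnt_eq_pop)

/-! ### abstract form -/

/-- a root whose admissible pairs all move to dead frames is dead -/
theorem dead_of_moves {reps : List ℕ} {j r : ℕ} (hr : reps[j]? = some r)
    (hmv : ∀ p q : Fin 13, p < q → q < 12 → cnt (fam 12 4 r) {p} = 19 →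
      cnt (fam 12 4 r) {q} = 19 → ∃ f, FrameF reps j f ∧ ∃ τ : Equiv.Perm (Fin 13), τ 12 = 12 ∧
        mapF τ (fam 12 4 r) = fam 12 4 f ∧ ((τ p = 11 ∧ τ q = 10) ∨ (τ p = 10 ∧ τ q = 11)))
    {B : Finset (Finset (Fin 13))} {x y z : Fin 13} (h : QF reps j B x y z) : False := by
  have hpair : ∀ (B : Fam) (p q : Fin 13), QF reps j B 12 p q → link B 12 = fam 12 4 r →
      p < q → q < 12 → False := by
    intro B p q h hl hpq hq
    have hB := h.best.odd
    have hdeg : ∀ u : Fin 13, u ≠ 12 → mm B 12 u = 0 → cnt (fam 12 4 r) {u} = 19 := by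
      intro u hu hm
      rw [← hl, ← card_link]
      have := card_link_link hB (x := 12) (y := u) hu.symm
      rw [this, hm]
    obtain ⟨f, hf, τ, h4, h5, h6⟩ := hmv p q hpq hq
      (hdeg p (fun h1 => by rw [h1] at hpq; exact absurd (hpq.trans hq) (lt_irrefl _)) h.mm_xy)
      (hdeg q (fun h1 => by rw [h1] at hq; exact absurd hq (lt_irrefl _)) h.mm_xz)
    have hl' : link (mapF τ B) 12 = fam 12 4 f := by
      rw [← h5, ← hl]
      conv_lhs => rw [← h4]
      exact link_mapF τ B 12
    rcases h6 with ⟨ha, hb⟩ | ⟨ha, hb⟩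
    · have h7 := h.map τ
      rw [h4, ha, hb] at h7
      exact hf _ h7 hl'
    · have h7 := h.symm.map τ
      rw [h4, ha, hb] at h7
      exact hf _ h7 hl'
  obtain ⟨r', hr', σ, hσ⟩ := h.cls
  rw [hr] at hr'
  obtain rfl := Option.some_injective _ hr'
  have hx12 := perm_root h.best.odd hσ
  have h1 := h.map σ
  rw [hx12] at h1
  have hlink : link (mapF σ B) 12 = fam 12 4 r := by
    rw [← hσ, ← hx12, link_mapF]
  have hp : σ y ≠ 12 := h1.xy.symm
  have hq : σ z ≠ 12 := h1.xz.symm
  have hlt : ∀ a : Fin 13, a ≠ 12 → a < 12 := by decide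
  rcases lt_trichotomy (σ y) (σ z) with h2 | h2 | h2
  · exact hpair _ _ _ h1 hlink h2 (hlt _ hq)
  · exact h1.yz h2
  · exact hpair _ _ _ h1.symm hlink h2 (hlt _ hp)

/-! ### words and points -/

/-- one exchange on a point -/
def appD (d p : ℕ) : ℕ :=
  bif Nat.beq p (Nat.mod d 16) then Nat.div d 16 else
    bif Nat.beq p (Nat.div d 16) then Nat.mod d 16 else p

/-- a word on a point -/
def appW (w : ℕ) : ℕ → ℕ → ℕ
  | 0, p => p
  | n + 1, p => appD (dig8 w n) (appW w n p)

theorem appD_eq {d : ℕ} {i j : Fin 13} (hi : i.val = d % 16) (hj : j.val = d / 16) (a : Fin 13) :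
    (Equiv.swap i j a).val = appD d a.val := by
  have e1 : Nat.mod d 16 = i.val := hi.symm
  have e2 : Nat.div d 16 = j.val := hj.symm
  unfold appD
  rw [e1, e2]
  by_cases h1 : a = i
  · rw [h1, Equiv.swap_apply_left]
    have : Nat.beq i.val i.val = true := by rw [Nat.beq_eq]
    rw [this, cond_true]
  · have h2 : Nat.beq a.val i.val = false := by
      rw [Bool.eq_false_iff, Ne, Nat.beq_eq]
      exact fun h => h1 (Fin.ext h)
    rw [h2, cond_false]
    by_cases h3 : a = j
    · rw [h3, Equiv.swap_apply_right]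
      have : Nat.beq j.val j.val = true := by rw [Nat.beq_eq]
      rw [this, cond_true]
    · have h4 : Nat.beq a.val j.val = false := by
        rw [Bool.eq_false_iff, Ne, Nat.beq_eq]
        exact fun h => h3 (Fin.ext h)
      rw [h4, cond_false, Equiv.swap_apply_of_ne_of_ne h1 h3]

theorem appW_eq {m w n : ℕ} (hw : okW m w n = true) (a : Fin 13) :
    (wpc (prs w n) a).val = appW w n a.val := by
  induction n with
  | zero => rfl
  | succ n ih =>
    have h' : (okW m w n && (Nat.blt (dig8 w n % 16) (dig8 w n / 16) &&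
      (Nat.blt (dig8 w n / 16) m && Nat.blt (dig8 w n / 16) 13))) = true := hw
    rw [Bool.and_eq_true, Bool.and_eq_true, Bool.and_eq_true, Nat.blt_eq, Nat.blt_eq,
      Nat.blt_eq] at h'
    obtain ⟨h1, h2, h3, h4⟩ := h'
    have e3 : wpc (prs w (n + 1)) = Equiv.swap (Fin.ofNat 13 (dig8 w n % 16))
        (Fin.ofNat 13 (dig8 w n / 16)) * wpc (prs w n) := by
      show wpc (prs w n ++ [(Fin.ofNat 13 (dig8 w n % 16), Fin.ofNat 13 (dig8 w n / 16))]) = _
      rw [wpc_append]
      rfl
    have e4 : appW w (n + 1) a.val = appD (dig8 w n) (appW w n a.val) := rfl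
    rw [e3, Equiv.Perm.mul_apply, appD_eq (d := dig8 w n), e4, ih h1]
    · exact Nat.mod_eq_of_lt (by omega)
    · exact Nat.mod_eq_of_lt (by omega)

/-! ### the check of one pair -/

/-- the word `w` takes `p, q` to `11, 10` (or `10, 11`) and the cube `C` to the cube `Cf` -/
noncomputable def pairOK2 (C Cf p q w n : ℕ) : Bool :=
  okW 12 w n && (((Nat.beq (appW w n p) 11 && Nat.beq (appW w n q) 10) ||
      (Nat.beq (appW w n p) 10 && Nat.beq (appW w n q) 11)) &&
    Nat.beq (Nat.mod (runC 4096 n w C) (2 ^ 4096)) Cf)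

theorem pairOK2_sound {r f n w : ℕ} {p q : Fin 13}
    (h : pairOK2 (cub 12 (fam 12 4 r)) (cub 12 (fam 12 4 f)) p.val q.val w n = true) :
    ∃ τ : Equiv.Perm (Fin 13), τ 12 = 12 ∧ mapF τ (fam 12 4 r) = fam 12 4 f ∧
      ((τ p = 11 ∧ τ q = 10) ∨ (τ p = 10 ∧ τ q = 11)) := by
  unfold pairOK2 at h
  rw [Bool.and_eq_true, Bool.and_eq_true, Nat.beq_eq] at h
  obtain ⟨h1, h2, h3⟩ := h
  have hlt : ∀ p ∈ prs w n, p.1.val < 12 ∧ p.2.val < 12 := fun p hp => by
    have h1 := prs_lt h1 p hp
    omega
  have h12 : wpc (prs w n) 12 = 12 := wpc_fix hlt (by decide)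
  refine ⟨wpc (prs w n), h12, ?_, ?_⟩
  · have hk := keeps_twelve h12
    refine cub_injOn (n := 12) ?_ (fun s hs => (sub_of_mem_fam (by norm_num) hs).1) ?_
    · intro s hs
      rw [mem_mapF'] at hs
      exact (hk.symm.sub_iff.1 (sub_of_mem_fam (n := 12) (by norm_num) hs)).1
    · rw [← runC_one (by norm_num) h1, fld_mod]
      exact h3
  · rw [Bool.or_eq_true, Bool.and_eq_true, Bool.and_eq_true, Nat.beq_eq, Nat.beq_eq, Nat.beq_eq,
      Nat.beq_eq, ← appW_eq h1, ← appW_eq h1] at h2
    rcases h2 with ⟨ha, hb⟩ | ⟨ha, hb⟩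
    · exact Or.inl ⟨Fin.ext ha, Fin.ext hb⟩
    · exact Or.inr ⟨Fin.ext ha, Fin.ext hb⟩

/-! ### degrees -/

/-- codes of the 4-subsets through a point -/
def supL : List ℕ :=
  [0x404082112c04082112c082112c10896112c4b2dc04082112c082112c10896112c4b2dc082112c10896112c4b2dc10896112c4b2dc2258965b8965b96ef,
   0x808104225408104225410422542112a22549556c08104225410422542112a22549556c10422542112a22549556c2112a22549556c44a92aad92aadab77,
   0x1010208449810208449820844984224c4499269b410208449820844984224c4499269b420844984224c4499269b44224c4499269b489324d36a4d36cdbb,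
   0x202041088e02041088e041088e08447088e238e382041088e041088e08447088e238e3841088e08447088e238e388447088e238e3911c471c7471c771dd,
   0x40408210f00408210f008210f01087810f03c0fc0408210f008210f01087810f03c0fc08210f01087810f03c0fc1087810f03c0fc21e0781f8781f87e1e,
   0x8081041f00081041f001041f0020f801f003ff00081041f001041f0020f801f003ff001041f0020f801f003ff0020f801f003ff003e007fe007fe007fe0,
   0x1010207e00010207e000207e0003f0001fffc000010207e000207e0003f0001fffc0000207e0003f0001fffc00003f0001fffc00003fff800007ffff8000,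
   0x20203f80000203f800003f800003ffffe00000000203f800003f800003ffffe000000003f800003ffffe000000003ffffe000000003ffffffff800000000,
   0x403fc0000003fc0000003ffffffc00000000000003fc0000003ffffffc00000000000003ffffffc00000000000003fffffffffffffc00000000000000000,
   0x7fc000000003ffffffffc000000000000000000003ffffffffc000000000000000000003ffffffffffffffffffffc0000000000000000000000000000000,
   0x7ffffffffffc000000000000000000000000000003fffffffffffffffffffffffffffffc0000000000000000000000000000000000000000000000000000,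
   0x7ffffffffffffffffffffffffffffffffffffffffc0000000000000000000000000000000000000000000000000000000000000000000000000000000000]

theorem supL_eq : ∀ p < 12, supL[p]? = some (supM 12 4 (2 ^ p)) := by decide +kernel

/-- the degree of the point `p` -/
def dgF (r p : ℕ) : ℕ := popR (Nat.land r (supL.getD p 0))

theorem dgF_eq {r : ℕ} (hr : r < 2 ^ 495) {p : Fin 13} (hp : p < 12) :
    cnt (fam 12 4 r) {p} = dgF r p.val := by
  have hp' : p.val < 12 := hp
  have h1 := cnt_eq_pop (n := 12) (k := 4) (t := 2 ^ p.val) (by norm_num)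
    (Nat.pow_lt_pow_right (by norm_num) p.isLt) (D := fam 12 4 r)
    (fun s hs => sub_of_mem_fam (by norm_num) hs)
  have h2 : ofMask (2 ^ p.val) = {p} := by
    ext a
    rw [mem_ofMask, Nat.testBit_two_pow, decide_eq_true_eq, mem_singleton]
    exact ⟨fun h => Fin.ext h.symm, fun h => by rw [h]⟩
  have h3 : (12 : ℕ).choose 4 = 495 := by decide
  rw [h2, enc_fam (by norm_num) (by rw [h3]; exact hr)] at h1
  rw [h1]
  unfold dgF
  rw [popR_eq_pop, List.getD_eq_getElem?_getD, supL_eq p.val hp']
  rfl

/-! ### all pairs -/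

/-- one certificate -/
noncomputable def certOK (C : ℕ) (fr : List ℕ) (p q c : ℕ) : Bool :=
  match fr[Nat.mod (Nat.shiftRight c 8) (2 ^ 24)]? with
  | none => false
  | some f => Nat.blt f (2 ^ 495) &&
      pairOK2 C (cub4 f) p q (Nat.shiftRight c 32) (Nat.mod c 256)

/-- the check of a list of pairs -/
noncomputable def pairsOK2 (r C : ℕ) (fr : List ℕ) : List (ℕ × ℕ) → List ℕ → Bool
  | [], _ => true
  | pq :: ps, cs =>
    bif Nat.beq (dgF r pq.1) 19 && Nat.beq (dgF r pq.2) 19 then
      match cs with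
      | [] => false
      | c :: cs => certOK C fr pq.1 pq.2 c && pairsOK2 r C fr ps cs
    else pairsOK2 r C fr ps cs

theorem pairsOK2_get {r C : ℕ} {fr : List ℕ} {ps : List (ℕ × ℕ)} {cs : List ℕ}
    (h : pairsOK2 r C fr ps cs = true) {pq : ℕ × ℕ} (hmem : pq ∈ ps)
    (h1 : dgF r pq.1 = 19) (h2 : dgF r pq.2 = 19) :
    ∃ f ∈ fr, f < 2 ^ 495 ∧ ∃ w n, pairOK2 C (cub4 f) pq.1 pq.2 w n = true := by
  induction ps generalizing cs with
  | nil => exact absurd hmem List.not_mem_nil
  | cons a ps ih =>
    by_cases hd : (Nat.beq (dgF r a.1) 19 && Nat.beq (dgF r a.2) 19) = true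
    · cases cs with
      | nil =>
        have e : pairsOK2 r C fr (a :: ps) [] =
            bif Nat.beq (dgF r a.1) 19 && Nat.beq (dgF r a.2) 19 then false
            else pairsOK2 r C fr ps [] := rfl
        rw [e, hd, cond_true] at h
        exact absurd h Bool.false_ne_true
      | cons c cs =>
        have e : pairsOK2 r C fr (a :: ps) (c :: cs) =
            bif Nat.beq (dgF r a.1) 19 && Nat.beq (dgF r a.2) 19 then
              (certOK C fr a.1 a.2 c && pairsOK2 r C fr ps cs)
            else pairsOK2 r C fr ps (c :: cs) := rfl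
        rw [e, hd, cond_true, Bool.and_eq_true] at h
        obtain ⟨h3, h4⟩ := h
        rcases List.mem_cons.1 hmem with rfl | h5
        · unfold certOK at h3
          cases h6 : fr[Nat.mod (Nat.shiftRight c 8) (2 ^ 24)]? with
          | none =>
            rw [h6] at h3
            exact absurd h3 Bool.false_ne_true
          | some f =>
            rw [h6] at h3
            have h7 : (Nat.blt f (2 ^ 495) && pairOK2 C (cub4 f) pq.1 pq.2
              (Nat.shiftRight c 32) (Nat.mod c 256)) = true := h3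
            rw [Bool.and_eq_true, Nat.blt_eq] at h7
            exact ⟨f, List.mem_of_getElem? h6, h7.1, _, _, h7.2⟩
        · exact ih h4 h5
    · rw [Bool.not_eq_true] at hd
      have e : ∀ cs, pairsOK2 r C fr (a :: ps) cs =
          bif Nat.beq (dgF r a.1) 19 && Nat.beq (dgF r a.2) 19 then
            match cs with
            | [] => false
            | c :: cs => certOK C fr a.1 a.2 c && pairsOK2 r C fr ps cs
          else pairsOK2 r C fr ps cs := fun _ => rfl
      rw [e, hd, cond_false] at h
      rcases List.mem_cons.1 hmem with rfl | h5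
      · rw [h1, h2] at hd
        exact absurd hd (by decide)
      · exact ih h h5

/-- the check of a root -/
noncomputable def rootOK2 (r : ℕ) (fr cs : List ℕ) : Bool :=
  Nat.blt r (2 ^ 495) && frc2 (fun C => pairsOK2 r C fr pqs cs) (cub4 r)
where
  frc2 (f : ℕ → Bool) (e : ℕ) : Bool := @Nat.rec (fun _ => Bool) (f 0) (fun m _ => f (Nat.succ m)) e

theorem frc2_eq (f : ℕ → Bool) (e : ℕ) : rootOK2.frc2 f e = f e := by
  cases e <;> rfl

/-- **a root whose frames are dead is dead** -/
theorem dead_of_frames2 {reps : List ℕ} {j r : ℕ} (hr : reps[j]? = some r) {fr cs : List ℕ}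
    (hok : rootOK2 r fr cs = true) (hfr : ∀ f ∈ fr, FrameF reps j f)
    {B : Finset (Finset (Fin 13))} {x y z : Fin 13} (h : QF reps j B x y z) : False := by
  unfold rootOK2 at hok
  rw [Bool.and_eq_true, Nat.blt_eq, frc2_eq] at hok
  obtain ⟨hlt, hok⟩ := hok
  refine dead_of_moves hr ?_ h
  intro p q hpq hq h1 h2
  rw [dgF_eq hlt (hpq.trans hq)] at h1
  rw [dgF_eq hlt hq] at h2
  obtain ⟨f, hf, hflt, w, n, h3⟩ := pairsOK2_get (pq := (p.val, q.val)) hok (mem_pqs hpq hq) h1 h2
  rw [cub4_eq hlt, cub4_eq hflt] at h3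
  exact ⟨f, hfr f hf, pairOK2_sound h3⟩

end Pool.Agent.Helper79.CV
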